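import Pool.Agent.LFC.Defs

/-!
Cat (size 4): a path of bounded speed in a compact `X` stays at the end in a compact subset of one chart.
PROOF. Let `s_j ↑ s₂`, `s_j ∈ Ioo a s₂`; `p (s_j)` has a cluster point `x` (compactness), `x ∈ (A.c i).source`, `z = A.c i x`, `closedBall z (2 R) ⊆ (A.c i).target`
(`open_target`), `Q = closedBall z (2 R)`, `C` from `hv` (take `C > 0`). `N = (A.c i).symm '' ball z R` is a neighbourhood of `x` (`(A.c i).source ∩ A.c i ⁻¹' ball z R` is open); choose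
`s₁ ∈ Ioo a s₂` with `p s₁ ∈ N` and `C (s₂ - s₁) < R`. Claim: for `s ∈ Ico s₁ s₂`, `p s ∈ (A.c i).source` and `A.c i (p s) ∈ closedBall z (2 R)`. The set
`Q' = (A.c i).symm '' closedBall z (2 R)` is compact, so closed (T2). Fix `s`; let `Z = {σ | ∀ τ ∈ Icc s₁ σ, p τ ∈ Q'}`... on `Icc s₁ s`: closed because `p` is continuous and `Q'` closed; if
`σ ∈ Z`, the path `A.c i ∘ p` has on `Icc s₁ σ` speed `≤ C` (mean value inequality `norm_image_sub_le_of_norm_deriv_le_segment'`), so `‖A.c i (p σ) - z‖ < R + C (σ - s₁) < 2 R`: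
`p σ` is in the open set `(A.c i).source ∩ A.c i ⁻¹' ball z (2 R)` and by continuity `p τ` too for `τ` slightly bigger. `IsClosed.Icc_subset_of_forall_exists_gt`.
-/

open scoped ContDiff ComplexConjugate Topology
open Complex

namespace Pool.Agent.LFC

open Pool.Agent.DTW Pool.Agent.SKF

variable {n : ℕ} {X : Type*} [TopologicalSpace X] [T2Space X] [CompactSpace X] {ι : Type*}

theorem cat (A : Atlas n X ι) {p : ℝ → X} {a s₂ : ℝ} (h : a < s₂)
    (hp : ∀ s ∈ Set.Ioo a s₂, ContinuousAt p s)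
    (hv : ∀ i, ∀ Q : Set (E n), IsCompact Q → Q ⊆ (A.c i).target → ∃ C : ℝ,
      ∀ s ∈ Set.Ioo a s₂, p s ∈ (A.c i).source → A.c i (p s) ∈ Q →
        ∃ v : E n, HasDerivAt (fun σ => A.c i (p σ)) v s ∧ ‖v‖ ≤ C) :
    ∃ (i : ι) (Q : Set (E n)), IsCompact Q ∧ Q ⊆ (A.c i).target ∧ ∃ s₁ ∈ Set.Ioo a s₂,
      ∀ s ∈ Set.Ico s₁ s₂, p s ∈ (A.c i).source ∧ A.c i (p s) ∈ Q := by
  obtain ⟨x, hx⟩ := exists_clusterPt_of_compactSpace (Filter.map p (𝓝[<] s₂))
  have hx' : MapClusterPt x (𝓝[<] s₂) p := hx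
  rw [mapClusterPt_iff_frequently] at hx'
  set i := ix A x with hi_def
  have hi : x ∈ (A.c i).source := mem_ix A x
  have hz : A.c i x ∈ (A.c i).target := (A.c i).map_source hi
  obtain ⟨δ, hδ, hball⟩ := Metric.isOpen_iff.1 (A.c i).open_target _ hz
  set z := A.c i x with hz_def
  obtain ⟨R, hR, hRδ⟩ : ∃ R : ℝ, 0 < R ∧ 2 * R < δ := ⟨δ / 4, by positivity, by linarith⟩
  have hQt : Metric.closedBall z (2 * R) ⊆ (A.c i).target :=
    (Metric.closedBall_subset_ball hRδ).trans hball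
  have hQc : IsCompact (Metric.closedBall z (2 * R)) := isCompact_closedBall z (2 * R)
  obtain ⟨C0, hC0⟩ := hv i _ hQc hQt
  obtain ⟨C, hC, hCpos⟩ : ∃ C : ℝ, C0 ≤ C ∧ 0 < C := ⟨max C0 1, le_max_left _ _, by positivity⟩
  have hN : {y | y ∈ (A.c i).source ∧ A.c i y ∈ Metric.ball z R} ∈ 𝓝 x := by
    refine Filter.inter_mem ((A.c i).open_source.mem_nhds hi) ?_
    exact (A.c i).continuousAt hi (Metric.ball_mem_nhds z hR)
  have hev : ∀ᶠ s in 𝓝[<] s₂, s ∈ Set.Ioo a s₂ ∧ C * (s₂ - s) < R := by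
    have h1 : Set.Ioo a s₂ ∈ 𝓝[<] s₂ := Ioo_mem_nhdsLT h
    have h2 : Set.Ioo (s₂ - R / C) s₂ ∈ 𝓝[<] s₂ :=
      Ioo_mem_nhdsLT (by have : 0 < R / C := by positivity
                         linarith)
    filter_upwards [h1, h2] with s hs hs'
    refine ⟨hs, ?_⟩
    have h3 : s₂ - s < R / C := by linarith [hs'.1]
    calc C * (s₂ - s) < C * (R / C) := mul_lt_mul_of_pos_left h3 hCpos
      _ = R := mul_div_cancel₀ R hCpos.ne'
  obtain ⟨s₁, hs₁N, hs₁, hs₁R⟩ := ((hx' _ hN).and_eventually hev).exists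
  refine ⟨i, _, hQc, hQt, s₁, hs₁, ?_⟩
  set S : Set X := {y | y ∈ (A.c i).source ∧ A.c i y ∈ Metric.closedBall z (2 * R)} with hS
  have hSim : S = (A.c i).symm '' Metric.closedBall z (2 * R) := by
    ext y
    constructor
    · rintro ⟨h1, h2⟩
      exact ⟨A.c i y, h2, (A.c i).left_inv h1⟩
    · rintro ⟨u, hu, rfl⟩
      refine ⟨(A.c i).map_target (hQt hu), ?_⟩
      rw [(A.c i).right_inv (hQt hu)]
      exact hu
  have hScl : IsClosed S := by
    rw [hSim]
    exact (hQc.image_of_continuousOn ((A.c i).continuousOn_symm.mono hQt)).isClosed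
  have hs₁S : p s₁ ∈ S :=
    ⟨hs₁N.1, Metric.closedBall_subset_closedBall (by linarith)
      (Metric.ball_subset_closedBall hs₁N.2)⟩
  intro s hs
  have key : Set.Icc s₁ s ⊆ {σ | ∀ τ ∈ Set.Icc s₁ σ, p τ ∈ S} := by
    refine IsClosed.Icc_subset_of_forall_mem_nhdsWithin ?_ ?_ ?_
    · refine isClosed_of_closure_subset fun σ hσ => ?_
      have hσI : σ ∈ Set.Icc s₁ s := closure_minimal (fun t ht => ht.2) isClosed_Icc hσ
      refine ⟨fun τ hτ => ?_, hσI⟩
      have hbelow : ∀ τ ∈ Set.Ico s₁ σ, p τ ∈ S := by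
        intro τ hτ
        obtain ⟨σ', hσ', hd⟩ := Metric.mem_closure_iff.1 hσ (σ - τ) (by linarith [hτ.2])
        refine hσ'.1 τ ⟨hτ.1, ?_⟩
        rw [Real.dist_eq] at hd
        have := (abs_lt.1 hd).2
        linarith
      rcases lt_or_eq_of_le hτ.2 with h1 | h1
      · exact hbelow τ ⟨hτ.1, h1⟩
      · rcases eq_or_lt_of_le hτ.1 with h2 | h2
        · rw [← h2]
          exact hs₁S
        · have hτs : τ ∈ Set.Ioo a s₂ :=
            ⟨by linarith [hs₁.1], by linarith [hs.2, hσI.2]⟩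
          have hc : Filter.Tendsto p (𝓝[<] τ) (𝓝 (p τ)) :=
            ((hp τ hτs).tendsto).mono_left nhdsWithin_le_nhds
          refine hScl.mem_of_tendsto hc ?_
          filter_upwards [Ioo_mem_nhdsLT h2] with t ht
          exact hbelow t ⟨ht.1.le, by linarith [ht.2]⟩
    · intro τ hτ
      have : τ = s₁ := le_antisymm hτ.2 hτ.1
      rw [this]
      exact hs₁S
    · rintro σ ⟨hσ, hσI⟩
      have hin : ∀ τ ∈ Set.Icc s₁ σ, τ ∈ Set.Ioo a s₂ := fun τ hτ =>
        ⟨by linarith [hs₁.1, hτ.1], by linarith [hs.2, hσI.2, hτ.2]⟩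
      have hex : ∀ τ ∈ Set.Icc s₁ σ, ∃ v : E n,
          HasDerivAt (fun σ => A.c i (p σ)) v τ ∧ ‖v‖ ≤ C := by
        intro τ hτ
        obtain ⟨v, h1, h2⟩ := hC0 τ (hin τ hτ) (hσ τ hτ).1 (hσ τ hτ).2
        exact ⟨v, h1, h2.trans hC⟩
      choose! v hv1 hv2 using hex
      have hle := (convex_Icc s₁ σ).norm_image_sub_le_of_norm_hasDerivWithin_le
        (f := fun σ => A.c i (p σ)) (f' := v) (C := C)
        (fun τ hτ => (hv1 τ hτ).hasDerivWithinAt) hv2
        (Set.left_mem_Icc.2 hσI.1) (Set.right_mem_Icc.2 hσI.1)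
      have hlt : A.c i (p σ) ∈ Metric.ball z (2 * R) := by
        rw [mem_ball_iff_norm]
        have h1 : ‖A.c i (p s₁) - z‖ < R := mem_ball_iff_norm.1 hs₁N.2
        have h2 : C * ‖σ - s₁‖ < R := by
          rw [Real.norm_of_nonneg (by linarith [hσI.1])]
          refine lt_of_le_of_lt ?_ hs₁R
          exact mul_le_mul_of_nonneg_left (by linarith [hσI.2, hs.2]) hCpos.le
        calc ‖A.c i (p σ) - z‖ = ‖(A.c i (p σ) - A.c i (p s₁)) + (A.c i (p s₁) - z)‖ := by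
              congr 1
              abel
          _ ≤ ‖A.c i (p σ) - A.c i (p s₁)‖ + ‖A.c i (p s₁) - z‖ := norm_add_le _ _
          _ < 2 * R := by linarith
      have hσS := (hσ σ (Set.right_mem_Icc.2 hσI.1)).1
      have hO : {y | y ∈ (A.c i).source ∧ A.c i y ∈ Metric.ball z (2 * R)} ∈ 𝓝 (p σ) := by
        refine Filter.inter_mem ((A.c i).open_source.mem_nhds hσS) ?_
        exact (A.c i).continuousAt hσS (Metric.isOpen_ball.mem_nhds hlt)
      have hevσ := (hp σ (hin σ (Set.right_mem_Icc.2 hσI.1))) hO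
      obtain ⟨ε, hε, hεO⟩ := Metric.mem_nhds_iff.1 hevσ
      have hnb : Set.Ioo σ (σ + ε) ∈ 𝓝[>] σ := Ioo_mem_nhdsGT (by linarith)
      filter_upwards [hnb] with t ht
      intro τ hτ
      rcases le_or_gt τ σ with h1 | h1
      · exact hσ τ ⟨hτ.1, h1⟩
      · have h2 : τ ∈ Metric.ball σ ε := by
          rw [Metric.mem_ball, Real.dist_eq, abs_of_pos (by linarith)]
          linarith [hτ.2, ht.2]
        have h3 := hεO h2
        exact ⟨h3.1, Metric.ball_subset_closedBall h3.2⟩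
  exact key (Set.right_mem_Icc.2 hs.1) s (Set.right_mem_Icc.2 hs.1)

end Pool.Agent.LFC
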