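import Pool.Agent.LFC.Fra
import Pool.Agent.SKF.Inv

/-!
Chb (size 4): being a leaf map can be checked in one chart.
PROOF. Let `Φ t ∈ (A.c i).source ∩ (A.c j).source`. `Φ` is continuous at `t`, so near `t`,
`A.c j ∘ Φ = ph A i j ∘ (A.c i ∘ Φ)` (`ph A i j = A.c j ∘ (A.c i).symm`, `ph_chart`), and `ph A i j` is complex
differentiable at `z = A.c i (Φ t) ∈ Uo A i j` (`contDiffOn_ph`, `isOpen_Uo`, `mem_Uo`): chain rule,
`T' = (fderiv ℂ (ph A i j) z).comp T`. `IsFrame`: put `D = fderiv ℂ (ph A i j) z`. `levi (B.wt i) z a b =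
levi (B.wt j) (ph A i j z) (D a) (D b)` (`inv_levi`), `D (XX (B.wt i) z b) = XX (B.wt j) (ph A i j z) (D b)` (private
`inv_XX` in SKF/Inv.lean: copy its proof), `D` bijective (`inv_bij`).
-/

open scoped ContDiff ComplexConjugate Topology
open Complex

namespace Pool.Agent.LFC

open Pool.Agent.DTW Pool.Agent.SKF

variable {n r : ℕ} {X : Type*} [TopologicalSpace X] {ι : Type*} {A : Atlas n X ι}

private theorem chb_S_ext {a a' : E n} (h : ∀ b, S a b = S a' b) : a = a' := by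
  funext k
  have h3 := h (e k.swap)
  rw [S_single, S_single, Sum.swap_swap, sg_swap, neg_neg] at h3
  have h4 : sg k ≠ 0 := by
    intro h0
    have := sg_sq k
    rw [h0] at this
    simp at this
  exact mul_left_cancel₀ h4 h3

private theorem chb_smi (B : Bundle A) {i j : ι} {z : E n} (hz : z ∈ Uo A i j) :
    ContDiffAt ℝ ∞ (B.wt i) z :=
  ContDiffOn.contDiffAt (B.smooth i) ((A.c i).open_target.mem_nhds hz.1)

private theorem chb_smj (B : Bundle A) {i j : ι} {z : E n} (hz : z ∈ Uo A i j) :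
    ContDiffAt ℝ ∞ (B.wt j) (ph A i j z) :=
  ContDiffOn.contDiffAt (B.smooth j) ((A.c j).open_target.mem_nhds (ph_mem hz))

private theorem chb_XX (B : Bundle A) {i j : ι} {z : E n} (hz : z ∈ Uo A i j) (b : E n) :
    fderiv ℂ (ph A i j) z (XX (B.wt i) z b)
      = XX (B.wt j) (ph A i j z) (fderiv ℂ (ph A i j) z b) := by
  refine chb_S_ext fun v => ?_
  obtain ⟨a', rfl⟩ := (inv_bij hz).2 v
  have h1 := A.symp i j z hz.1 hz.2 (XX (B.wt i) z b) a'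
  have h2 := S_XX (chb_smi B hz) 1 b a'
  have h3 := S_XX (chb_smj B hz) 1 (fderiv ℂ (ph A i j) z b) (fderiv ℂ (ph A i j) z a')
  rw [one_smul, one_mul] at h2 h3
  rw [h3, ← inv_levi B hz, ← h2]
  exact h1

private theorem chb_diff {i j : ι} {z : E n} (hz : z ∈ Uo A i j) :
    HasFDerivAt (𝕜 := ℂ) (ph A i j) (fderiv ℂ (ph A i j) z) z :=
  (((contDiffOn_ph A i j).contDiffAt ((isOpen_Uo A i j).mem_nhds hz)).differentiableAt
      (by simp)).hasFDerivAt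

private theorem chb_chain {Φ : (Fin r → ℂ) → X} {t : Fin r → ℂ} (hc : ContinuousAt Φ t)
    {i j : ι} (hi : Φ t ∈ (A.c i).source) (hj : Φ t ∈ (A.c j).source)
    {T : (Fin r → ℂ) →L[ℂ] E n} (hT : HasFDerivAt (𝕜 := ℂ) (A.c i ∘ Φ) T t) :
    HasFDerivAt (𝕜 := ℂ) (A.c j ∘ Φ) ((fderiv ℂ (ph A i j) (A.c i (Φ t))).comp T) t := by
  have h1 : HasFDerivAt (𝕜 := ℂ) (ph A i j ∘ (A.c i ∘ Φ))
      ((fderiv ℂ (ph A i j) (A.c i (Φ t))).comp T) t :=
    HasFDerivAt.comp t (chb_diff (mem_Uo hi hj)) hT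
  refine h1.congr_of_eventuallyEq ?_
  filter_upwards [hc ((A.c i).open_source.mem_nhds hi)] with s hs
  exact (ph_chart (j := j) hs).symm

theorem leafAt_of_chart (B : Bundle A) (L : ∀ i, Loc (B.wt i) (A.c i).target)
    {Φ : (Fin r → ℂ) → X} {t : Fin r → ℂ} (hc : ContinuousAt Φ t) {i : ι}
    (hi : Φ t ∈ (A.c i).source) {T : (Fin r → ℂ) →L[ℂ] E n}
    (hT : HasFDerivAt (𝕜 := ℂ) (A.c i ∘ Φ) T t)
    (hF : IsFrame (B.wt i) (A.c i (Φ t)) T) : LeafAt B Φ t := by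
  refine ⟨hc, fun j hj => ⟨_, chb_chain hc hi hj hT, ?_⟩⟩
  have hz : A.c i (Φ t) ∈ Uo A i j := mem_Uo hi hj
  have hph : ph A i j (A.c i (Φ t)) = A.c j (Φ t) := ph_chart hi
  rw [← hph]
  refine ⟨fun ζ => ?_, fun b => ?_⟩
  · obtain ⟨b, hb, hb2⟩ := hF.1 ζ
    refine ⟨fderiv ℂ (ph A i j) (A.c i (Φ t)) b, ?_, ?_⟩
    · rw [ContinuousLinearMap.comp_apply, hb, chb_XX B hz]
    · rw [← inv_levi B hz, hb2]
  · obtain ⟨b', rfl⟩ := (inv_bij hz).2 b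
    obtain ⟨ζ, hζ⟩ := hF.2 b'
    refine ⟨ζ, ?_⟩
    rw [ContinuousLinearMap.comp_apply, hζ, chb_XX B hz]

/-- if the derivatives of two maps with the same value agree in one chart, they agree in every
chart -/
theorem deriv_chart {Φ Ψ : (Fin r → ℂ) → X} {t : Fin r → ℂ} (hc : ContinuousAt Φ t)
    (hc' : ContinuousAt Ψ t) (h0 : Φ t = Ψ t) {i j : ι} (hi : Φ t ∈ (A.c i).source)
    (hj : Φ t ∈ (A.c j).source) {T : (Fin r → ℂ) →L[ℂ] E n}
    (hT : HasFDerivAt (𝕜 := ℂ) (A.c i ∘ Φ) T t) (hT' : HasFDerivAt (𝕜 := ℂ) (A.c i ∘ Ψ) T t) :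
    ∃ T' : (Fin r → ℂ) →L[ℂ] E n, HasFDerivAt (𝕜 := ℂ) (A.c j ∘ Φ) T' t ∧
      HasFDerivAt (𝕜 := ℂ) (A.c j ∘ Ψ) T' t := by
  refine ⟨_, chb_chain hc hi hj hT, ?_⟩
  have h := chb_chain hc' (h0 ▸ hi) (h0 ▸ hj) hT'
  rwa [← h0] at h

/-- `LeafAt` is invariant under unitary affine changes of the parameter -/
theorem leafAt_comp (B : Bundle A) {r' : ℕ} {Φ : (Fin r' → ℂ) → X} {t : Fin r → ℂ}
    (u : Fin r' → ℂ) (V : (Fin r → ℂ) ≃ₗ[ℂ] (Fin r' → ℂ))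
    (hV : ∀ ξ, ∑ k, Complex.normSq (V ξ k) = ∑ k, Complex.normSq (ξ k))
    (h : LeafAt B Φ (u + V t)) : LeafAt B (fun s => Φ (u + V s)) t := by
  have hVc : Continuous fun s => u + V s :=
    continuous_const.add (LinearMap.continuous_of_finiteDimensional (V : (Fin r → ℂ) →ₗ[ℂ] (Fin r' → ℂ)))
  refine ⟨ContinuousAt.comp (g := Φ) (f := fun s => u + V s) h.1 hVc.continuousAt,
    fun i hi => ?_⟩
  obtain ⟨T, hT, hF⟩ := h.2 i hi
  have hd : HasFDerivAt (𝕜 := ℂ) (fun s => u + V s)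
      (LinearMap.toContinuousLinearMap (V : (Fin r → ℂ) →ₗ[ℂ] (Fin r' → ℂ))) t := by
    have h1 := (LinearMap.toContinuousLinearMap
      (V : (Fin r → ℂ) →ₗ[ℂ] (Fin r' → ℂ))).hasFDerivAt (x := t)
    exact h1.const_add u
  refine ⟨T.comp (LinearMap.toContinuousLinearMap (V : (Fin r → ℂ) →ₗ[ℂ] (Fin r' → ℂ))),
    HasFDerivAt.comp (g := A.c i ∘ Φ) (f := fun s => u + V s) t hT hd, ?_, ?_⟩
  · intro ζ
    obtain ⟨b, hb, hb2⟩ := hF.1 (V ζ)
    refine ⟨b, hb, ?_⟩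
    rw [hb2, hV]
  · intro b
    obtain ⟨ζ, hζ⟩ := hF.2 b
    refine ⟨V.symm ζ, ?_⟩
    rw [← hζ, ContinuousLinearMap.comp_apply]
    congr 1
    exact V.apply_symm_apply ζ

end Pool.Agent.LFC
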