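import Pool.Agent.LFC.Trl

/-!
Smo (size 3): smoothness of `levi`, `XX`, `T3`, `velL` in all variables jointly.
PROOF. `levi_eq_sum`, `T3_eq_sum` (Trl) and the definition of `XX` express everything through the smooth functions
`y ↦ LM w y p q`, `y ↦ pk k (fun x => LM w x p q) y` (`contDiffOn_LM`/`contDiffOn_pk` in DTW) and polynomials in
the components of the vectors and their conjugates (`Complex.conjCLE.contDiff`); `ContDiffOn.congr`, `ContDiffOn.sum`,
`ContDiffOn.mul`. `smo_vel`: componentwise (`contDiffOn_prod`, `contDiffOn_pi`), `bx` is a finite sum. `smo_velL`: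
`contDiffOn_clm_apply` (the direction space is finite dimensional), `velL_apply`.
-/

open scoped ContDiff ComplexConjugate Topology
open Complex

namespace Pool.Agent.LFC

open Pool.Agent.DTW Pool.Agent.SKF

variable {n r : ℕ} {U : Set (E n)} {w : E n → ℝ} {z : E n}

private theorem Smo_LM (L : Loc w U) (p q : Ix n) : ContDiffOn ℝ ∞ (fun y => LM w y p q) U :=
  contDiffOn_pk L.op (contDiffOn_pb L.op (contDiffOn_cx L.sm) q) p

private theorem Smo_conj {F : Type*} [NormedAddCommGroup F] [NormedSpace ℝ F] {f : F → ℂ} {s : Set F}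
    (hf : ContDiffOn ℝ ∞ f s) : ContDiffOn ℝ ∞ (fun x => conj (f x)) s := by
  have h := (Complex.conjCLE : ℂ ≃L[ℝ] ℂ).contDiff (n := ∞) |>.comp_contDiffOn hf
  exact h

private theorem Smo_ap {F : Type*} [NormedAddCommGroup F] [NormedSpace ℝ F] {f : F → E n} {s : Set F}
    (hf : ContDiffOn ℝ ∞ f s) (k : Ix n) : ContDiffOn ℝ ∞ (fun x => f x k) s :=
  contDiffOn_pi.1 hf k

theorem smo_levi (L : Loc w U) :
    ContDiffOn ℝ ∞ (fun p : E n × E n × E n => levi w p.1 p.2.1 p.2.2) (U ×ˢ Set.univ) := by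
  have h1 : ContDiffOn ℝ ∞ (fun p : E n × E n × E n =>
      ∑ k, ∑ l, p.2.1 k * conj (p.2.2 l) * LM w p.1 k l) (U ×ˢ Set.univ) := by
    refine ContDiffOn.sum fun k _ => ContDiffOn.sum fun l _ => ?_
    refine ContDiffOn.mul (ContDiffOn.mul ?_ ?_) ?_
    · exact Smo_ap (contDiffOn_fst.comp contDiffOn_snd fun _ _ => Set.mem_univ _) k
    · exact Smo_conj (Smo_ap (contDiffOn_snd.comp contDiffOn_snd fun _ _ => Set.mem_univ _) l)
    · exact (Smo_LM L k l).comp contDiffOn_fst fun p hp => hp.1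
  refine h1.congr fun p hp => ?_
  exact levi_eq_sum (L.sm.contDiffAt (L.op.mem_nhds hp.1)) _ _

theorem smo_XX (L : Loc w U) :
    ContDiffOn ℝ ∞ (fun p : E n × E n => XX w p.1 p.2) (U ×ˢ Set.univ) := by
  refine contDiffOn_pi.2 fun k => ?_
  show ContDiffOn ℝ ∞ (fun p : E n × E n => sg k * ∑ j : Ix n, LM w p.1 k.swap j * conj (p.2 j)) _
  refine contDiffOn_const.mul (ContDiffOn.sum fun j _ => ContDiffOn.mul ?_ ?_)
  · exact (Smo_LM L k.swap j).comp contDiffOn_fst fun p hp => hp.1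
  · exact Smo_conj (Smo_ap contDiffOn_snd j)

theorem smo_T3 (L : Loc w U) :
    ContDiffOn ℝ ∞ (fun p : E n × E n × E n × E n => T3 w p.1 p.2.1 p.2.2.1 p.2.2.2)
      (U ×ˢ Set.univ) := by
  have h1 : ContDiffOn ℝ ∞ (fun p : E n × E n × E n × E n =>
      ∑ k, ∑ j, ∑ q, p.2.1 k * p.2.2.1 j * conj (p.2.2.2 q) * pk k (fun y => LM w y j q) p.1)
      (U ×ˢ Set.univ) := by
    refine ContDiffOn.sum fun k _ => ContDiffOn.sum fun j _ => ContDiffOn.sum fun q _ => ?_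
    refine ContDiffOn.mul (ContDiffOn.mul (ContDiffOn.mul ?_ ?_) ?_) ?_
    · exact Smo_ap (contDiff_snd.fst).contDiffOn k
    · exact Smo_ap (contDiff_snd.snd.fst).contDiffOn j
    · exact Smo_conj (Smo_ap (contDiff_snd.snd.snd).contDiffOn q)
    · exact (contDiffOn_pk L.op (Smo_LM L j q) k).comp contDiffOn_fst fun p hp => hp.1
  refine h1.congr fun p hp => ?_
  exact T3_eq_sum L hp.1 _ _ _

private theorem Smo_bx (ξ : Fin r → ℂ) :
    ContDiff ℝ ∞ (fun y : E n × (Fin r → E n) => bx y.2 ξ) := by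
  unfold bx
  refine ContDiff.sum fun i _ => ?_
  have h : ContDiff ℝ ∞ (fun y : E n × (Fin r → E n) => y.2 i) := contDiff_pi.1 contDiff_snd i
  exact h.const_smul (conj (ξ i))

private theorem Smo_Xb (L : Loc w U) (ξ : Fin r → ℂ) :
    ContDiffOn ℝ ∞ (fun y : E n × (Fin r → E n) => XX w y.1 (bx y.2 ξ)) (U ×ˢ Set.univ) := by
  have h := (smo_XX L).comp (s := U ×ˢ (Set.univ : Set (Fin r → E n)))
    (f := fun y : E n × (Fin r → E n) => (y.1, bx y.2 ξ))
    (contDiffOn_fst.prodMk (Smo_bx ξ).contDiffOn) fun y hy => ⟨hy.1, Set.mem_univ _⟩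
  exact h

private theorem Smo_tm (L : Loc w U) (ξ : Fin r → ℂ) (j l : Fin r) :
    ContDiffOn ℝ ∞ (fun y : E n × (Fin r → E n) =>
      T3 w y.1 (XX w y.1 (bx y.2 ξ)) (y.2 j) (y.2 l)) (U ×ˢ Set.univ) := by
  have hs : ∀ j, ContDiffOn ℝ ∞ (fun y : E n × (Fin r → E n) => y.2 j) (U ×ˢ Set.univ) :=
    fun j => (contDiff_pi.1 contDiff_snd j).contDiffOn
  have h := (smo_T3 L).comp (s := U ×ˢ (Set.univ : Set (Fin r → E n)))
    (f := fun y : E n × (Fin r → E n) => (y.1, XX w y.1 (bx y.2 ξ), y.2 j, y.2 l))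
    (contDiffOn_fst.prodMk ((Smo_Xb L ξ).prodMk ((hs j).prodMk (hs l))))
    fun y hy => ⟨hy.1, Set.mem_univ _⟩
  exact h

private theorem Smo_sd (L : Loc w U) (ξ : Fin r → ℂ) (j : Fin r) :
    ContDiffOn ℝ ∞ (fun y : E n × (Fin r → E n) =>
      -∑ l, T3 w y.1 (XX w y.1 (bx y.2 ξ)) (y.2 j) (y.2 l) • y.2 l) (U ×ˢ Set.univ) := by
  have hs : ∀ j, ContDiffOn ℝ ∞ (fun y : E n × (Fin r → E n) => y.2 j) (U ×ˢ Set.univ) :=
    fun j => (contDiff_pi.1 contDiff_snd j).contDiffOn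
  have h : ContDiffOn ℝ ∞ (fun y : E n × (Fin r → E n) =>
      ∑ l, T3 w y.1 (XX w y.1 (bx y.2 ξ)) (y.2 j) (y.2 l) • y.2 l) (U ×ˢ Set.univ) := by
    refine ContDiffOn.sum fun l _ => ?_
    exact (Smo_tm L ξ j l).smul (hs l)
  exact h.neg

theorem smo_vel (L : Loc w U) (ξ : Fin r → ℂ) :
    ContDiffOn ℝ ∞ (fun y : E n × (Fin r → E n) => vel w y ξ) (U ×ˢ Set.univ) := by
  have h2 : ContDiffOn ℝ ∞ (fun y : E n × (Fin r → E n) => fun j =>
      -∑ l, T3 w y.1 (XX w y.1 (bx y.2 ξ)) (y.2 j) (y.2 l) • y.2 l) (U ×ˢ Set.univ) :=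
    contDiffOn_pi.2 fun j => Smo_sd L ξ j
  have h := (Smo_Xb L ξ).prodMk h2
  exact h

theorem smo_velL (L : Loc w U) :
    ContDiffOn ℝ ∞ (fun y : E n × (Fin r → E n) => velL w y) (U ×ˢ Set.univ) := by
  refine contDiffOn_clm_apply.2 fun ξ => ?_
  exact smo_vel L ξ

end Pool.Agent.LFC
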