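import Pool.Agent.LFC.ComB
import Pool.Agent.LFC.Smo

/-!
Com (size 4): the fields of the leaf system commute at the states with `InvP`.
PROOF. `x ↦ velL w x ζ` is differentiable at `y` (`smo_vel`, `U ×ˢ univ` open), so the left side is the derivative at `0`
of `s ↦ vel w (y + s • vel w y ξ) ζ` (`HasFDerivAt.comp_hasDerivAt`, `HasDerivAt.unique`). First component: `G₁` of `comA`;
for the right side `G₂` with the roles of `ξ`, `ζ` exchanged; `S G₁ m = T3 z (X_bξ) m b_ζ = T3 z (X_bζ) m b_ξ = S G₂ m`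
(`T3_symm`), so `G₁ = G₂` (`S_left_inj` in SKF/Res.lean). Component `j`: by `comB` and the product rule
(`b' l = -∑ p, Wξ l p • b p`) the derivative of `-∑ l, W j l • b l` is
`-∑ l, Θ j l • b l + ∑ l, ∑ p, (Wζ j l * Wξ l p) • b p = -∑ l, (D j l + T3 z G (b j) (b l) - ∑ p, Wξ j p * Wζ p l
- ∑ p, Wζ j p * Wξ p l) • b l`, `D j l = d10 (fun x => T3 w x (X_bζ) (b j) (b l)) z (X_bξ)`; symmetric in `ξ`, `ζ`:
`D` by `d10_d10_comm` (`T3` is `d10 (Lf ..)`, `smooth_Lf`), the rest visibly.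
-/

open scoped ContDiff ComplexConjugate Topology
open Complex

namespace Pool.Agent.LFC

open Pool.Agent.DTW Pool.Agent.SKF

variable {n r : ℕ} {U : Set (E n)} {w : E n → ℝ} {y : E n × (Fin r → E n)}

/-- the second component of the derivative -/
private noncomputable def com_V (w : E n → ℝ) (y : E n × (Fin r → E n)) (G : E n) (ξ ζ : Fin r → ℂ) :
    Fin r → E n := fun j => -∑ l,
  (d10 (fun x => T3 w x (XX w y.1 (bx y.2 ζ)) (y.2 j) (y.2 l)) y.1 (XX w y.1 (bx y.2 ξ))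
    + T3 w y.1 G (y.2 j) (y.2 l)
    - ∑ p, T3 w y.1 (XX w y.1 (bx y.2 ξ)) (y.2 j) (y.2 p)
        * T3 w y.1 (XX w y.1 (bx y.2 ζ)) (y.2 p) (y.2 l)
    - ∑ p, T3 w y.1 (XX w y.1 (bx y.2 ζ)) (y.2 j) (y.2 p)
        * T3 w y.1 (XX w y.1 (bx y.2 ξ)) (y.2 p) (y.2 l)) • y.2 l

private theorem com_one (L : LocB w U) (hz : y.1 ∈ U) (hI : InvP w y) (ξ ζ : Fin r → ℂ) :
    ∃ G : E n, fderiv ℝ (fun x => velL w x ζ) y (velL w y ξ) = (G, com_V w y G ξ ζ) ∧
      ∀ m, S G m = T3 w y.1 (XX w y.1 (bx y.2 ξ)) m (bx y.2 ζ) := by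
  obtain ⟨G, hG, hS⟩ := comA L.loc hz hI ξ ζ
  refine ⟨G, ?_, hS⟩
  have hn : U ×ˢ (Set.univ : Set (Fin r → E n)) ∈ 𝓝 y :=
    (L.loc.op.prod isOpen_univ).mem_nhds ⟨hz, Set.mem_univ _⟩
  have hd : HasFDerivAt (fun x => velL w x ζ) (fderiv ℝ (fun x => velL w x ζ) y) y := by
    have h1 : ContDiffAt ℝ ∞ (fun x : E n × (Fin r → E n) => vel w x ζ) y :=
      (smo_vel L.loc ζ).contDiffAt hn
    have h2 : (fun x => velL w x ζ) = fun x : E n × (Fin r → E n) => vel w x ζ := rfl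
    rw [h2]
    exact (h1.differentiableAt (by simp)).hasFDerivAt
  have hc : HasDerivAt (fun s : ℝ => y + s • vel w y ξ) (vel w y ξ) 0 := by
    have h := ((hasDerivAt_id (0 : ℝ)).smul_const (vel w y ξ)).const_add y
    simpa using h
  have h0 : y + (0 : ℝ) • vel w y ξ = y := by rw [zero_smul, add_zero]
  have hd' : HasFDerivAt (fun x => velL w x ζ) (fderiv ℝ (fun x => velL w x ζ) y)
      (y + (0 : ℝ) • vel w y ξ) := by
    rw [h0]
    exact hd
  have h1 : HasDerivAt (fun s : ℝ => velL w (y + s • vel w y ξ) ζ)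
      (fderiv ℝ (fun x => velL w x ζ) y (vel w y ξ)) 0 :=
    HasFDerivAt.comp_hasDerivAt (f := fun s : ℝ => y + s • vel w y ξ)
      (l := fun x : E n × (Fin r → E n) => velL w x ζ) (0 : ℝ) hd' hc
  have h2 : HasDerivAt (fun s : ℝ => velL w (y + s • vel w y ξ) ζ) (G, com_V w y G ξ ζ) 0 := by
    have h3 : (fun s : ℝ => velL w (y + s • vel w y ξ) ζ)
        = fun s : ℝ => (XX w (y + s • vel w y ξ).1 (bx (y + s • vel w y ξ).2 ζ),
          fun j => -∑ l, T3 w (y + s • vel w y ξ).1 (XX w (y + s • vel w y ξ).1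
            (bx (y + s • vel w y ξ).2 ζ)) ((y + s • vel w y ξ).2 j) ((y + s • vel w y ξ).2 l)
              • (y + s • vel w y ξ).2 l) := rfl
    rw [h3]
    refine hG.prodMk ?_
    rw [hasDerivAt_pi]
    intro j
    have hb : ∀ l, HasDerivAt (fun s : ℝ => (y + s • vel w y ξ).2 l) ((vel w y ξ).2 l) 0 := by
      intro l
      have h := hasDerivAt_pi.1 hc.snd l
      exact h
    have h4 : ∀ l, HasDerivAt (fun s : ℝ => T3 w (y + s • vel w y ξ).1
        (XX w (y + s • vel w y ξ).1 (bx (y + s • vel w y ξ).2 ζ)) ((y + s • vel w y ξ).2 j)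
          ((y + s • vel w y ξ).2 l) • (y + s • vel w y ξ).2 l) _ 0 :=
      fun l => (comB L hz hI ξ ζ j l G hG).smul (hb l)
    have h5 := (HasDerivAt.fun_sum fun l (_ : l ∈ Finset.univ) => h4 l).neg
    refine h5.congr_deriv ?_
    unfold com_V
    congr 1
    simp only [h0]
    simp only [vel, smul_neg, Finset.smul_sum, smul_smul]
    rw [Finset.sum_add_distrib, Finset.sum_neg_distrib, Finset.sum_comm, ← sub_eq_neg_add,
      ← Finset.sum_sub_distrib]
    refine Finset.sum_congr rfl fun l _ => ?_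
    rw [← Finset.sum_smul, ← sub_smul]
  exact h1.unique h2

theorem com (L : LocB w U) (hz : y.1 ∈ U) (hI : InvP w y) (ξ ζ : Fin r → ℂ) :
    fderiv ℝ (fun x => velL w x ζ) y (velL w y ξ)
      = fderiv ℝ (fun x => velL w x ξ) y (velL w y ζ) := by
  obtain ⟨G₁, h1, hS1⟩ := com_one L hz hI ξ ζ
  obtain ⟨G₂, h2, hS2⟩ := com_one L hz hI ζ ξ
  have hG : G₁ = G₂ := S_left_inj fun m => by
    rw [hS1, hS2, T3_symm L.loc hz]
  subst hG
  rw [h1, h2]
  refine Prod.ext rfl ?_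
  funext j
  unfold com_V
  simp only
  congr 1
  refine Finset.sum_congr rfl fun l _ => ?_
  congr 1
  have hD : d10 (fun x => T3 w x (XX w y.1 (bx y.2 ζ)) (y.2 j) (y.2 l)) y.1
      (XX w y.1 (bx y.2 ξ))
      = d10 (fun x => T3 w x (XX w y.1 (bx y.2 ξ)) (y.2 j) (y.2 l)) y.1
      (XX w y.1 (bx y.2 ζ)) :=
    d10_d10_comm ((smooth_Lf L.loc (y.2 j) (y.2 l)).contDiffAt (L.loc.op.mem_nhds hz)) _ _
  rw [hD]
  ring

end Pool.Agent.LFC
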