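import Pool.Agent.LFC.Trl

/-!
Drv (size 4): product rules along curves `σ ↦ (z σ, a σ, l σ, ...)`, `σ` real, one-sided derivatives within a set `D`.
PROOF. `z` is continuous at `s` within `D` and `z s ∈ U`, `U` open, so `z σ ∈ U` eventually in `𝓝[D] s`; there
`levi_eq_sum`, `T3_eq_sum` hold (`HasDerivWithinAt.congr_of_eventuallyEq`). For a smooth function `G` on `U`:
`HasDerivWithinAt (fun σ => G (z σ)) (fderiv ℝ G (z s) z') D s` (`HasFDerivAt.comp_hasDerivWithinAt`), `fd_eq`.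
Then the product rule for `a σ p * conj (l σ q) * LM w (z σ) p q` and sums; regroup with `levi_eq_sum`,
`T3_eq_sum`; the terms with the derivative of `LM` give `fderiv ℝ (Lf w (a s) (l s)) (z s) z'` (`fd_Lf`).
`drv_XX`: `XX w (z σ) (b σ) k = sg k * levi w (z σ) (e k.swap) (b σ)` (`XX_apply`); use `drv_levi` with `a = e k.swap`
constant; `G k = sg k * (...)(e k.swap)`; `S G m = ∑ k, sg k * G k * m k.swap` (`S_eq`) and linearity in `m`.
-/

open scoped ContDiff ComplexConjugate Topology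
open Complex

namespace Pool.Agent.LFC

open Pool.Agent.DTW Pool.Agent.SKF

variable {n r : ℕ} {U : Set (E n)} {w : E n → ℝ}

private theorem Drv_conj {D : Set ℝ} {s : ℝ} {f : ℝ → ℂ} {f' : ℂ}
    (h : HasDerivWithinAt f f' D s) : HasDerivWithinAt (fun σ => conj (f σ)) (conj f') D s := by
  have h1 : HasFDerivAt (Complex.conjCLE.toContinuousLinearMap : ℂ →L[ℝ] ℂ)
      (Complex.conjCLE.toContinuousLinearMap : ℂ →L[ℝ] ℂ) (f s) :=
    ContinuousLinearMap.hasFDerivAt _
  have h2 := h1.comp_hasDerivWithinAt s h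
  exact h2

private theorem Drv_gen {κ : Type*} [Fintype κ] {D : Set ℝ} {s : ℝ} {z : ℝ → E n} {z' : E n}
    (c : κ → ℝ → ℂ) (c' : κ → ℂ) (G : κ → E n → ℂ)
    (hG : ∀ i, DifferentiableAt ℝ (G i) (z s)) (hc : ∀ i, HasDerivWithinAt (c i) (c' i) D s)
    (hz : HasDerivWithinAt z z' D s) :
    HasDerivWithinAt (fun σ => ∑ i, c i σ * G i (z σ))
      (∑ i, c' i * G i (z s) + fderiv ℝ (fun y => ∑ i, c i s * G i y) (z s) z') D s := by
  have h1 : ∀ i, HasDerivWithinAt (fun σ => G i (z σ)) (fderiv ℝ (G i) (z s) z') D s := fun i =>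
    (hG i).hasFDerivAt.comp_hasDerivWithinAt s hz
  have h2 : ∀ i ∈ (Finset.univ : Finset κ), HasDerivWithinAt (fun σ => c i σ * G i (z σ))
      (c' i * G i (z s) + c i s * fderiv ℝ (G i) (z s) z') D s := fun i _ => (hc i).mul (h1 i)
  have h3 := HasDerivWithinAt.fun_sum h2
  have h4 : HasFDerivAt (fun y => ∑ i, c i s * G i y)
      (∑ i, c i s • fderiv ℝ (G i) (z s)) (z s) :=
    HasFDerivAt.fun_sum fun i _ => (hG i).hasFDerivAt.const_mul (c i s)
  have h5 : fderiv ℝ (fun y => ∑ i, c i s * G i y) (z s) z'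
      = ∑ i, c i s * fderiv ℝ (G i) (z s) z' := by
    rw [h4.fderiv, ContinuousLinearMap.sum_apply]
    rfl
  rw [h5, ← Finset.sum_add_distrib]
  exact h3

private theorem Drv_at (L : Loc w U) {x : E n} (hx : x ∈ U) : ContDiffAt ℝ ∞ w x :=
  L.sm.contDiffAt (L.op.mem_nhds hx)

private theorem Drv_sm (L : Loc w U) (p q : Ix n) : ContDiffOn ℝ ∞ (fun y => LM w y p q) U :=
  contDiffOn_pk L.op (contDiffOn_pb L.op (contDiffOn_cx L.sm) q) p

theorem drv_levi (L : Loc w U) {D : Set ℝ} {s : ℝ} {z a l : ℝ → E n} {z' a' l' : E n}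
    (hz : z s ∈ U) (h1 : HasDerivWithinAt z z' D s) (h2 : HasDerivWithinAt a a' D s)
    (h3 : HasDerivWithinAt l l' D s) :
    HasDerivWithinAt (fun σ => levi w (z σ) (a σ) (l σ))
      (T3 w (z s) z' (a s) (l s) + conj (T3 w (z s) z' (l s) (a s)) + levi w (z s) a' (l s)
        + levi w (z s) (a s) l') D s := by
  have hcont : ∀ᶠ σ in 𝓝[D] s, z σ ∈ U :=
    h1.continuousWithinAt.preimage_mem_nhdsWithin (L.op.mem_nhds hz)
  have hg := Drv_gen (n := n) (κ := Ix n × Ix n) (fun i σ => a σ i.1 * conj (l σ i.2))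
    (fun i => a' i.1 * conj (l s i.2) + a s i.1 * conj (l' i.2))
    (fun i y => LM w y i.1 i.2)
    (fun i => diffAt_of L.op (Drv_sm L i.1 i.2) hz)
    (fun i => (hasDerivWithinAt_pi.1 h2 i.1).mul (Drv_conj (hasDerivWithinAt_pi.1 h3 i.2))) h1
  have hv : ∑ i : Ix n × Ix n, (a' i.1 * conj (l s i.2) + a s i.1 * conj (l' i.2))
        * LM w (z s) i.1 i.2
      + fderiv ℝ (fun y => ∑ i : Ix n × Ix n, a s i.1 * conj (l s i.2) * LM w y i.1 i.2) (z s) z'
      = T3 w (z s) z' (a s) (l s) + conj (T3 w (z s) z' (l s) (a s)) + levi w (z s) a' (l s)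
        + levi w (z s) (a s) l' := by
    have e1 : (fun y => ∑ i : Ix n × Ix n, a s i.1 * conj (l s i.2) * LM w y i.1 i.2)
        =ᶠ[𝓝 (z s)] Lf w (a s) (l s) := by
      filter_upwards [L.op.mem_nhds hz] with y hy
      rw [Fintype.sum_prod_type]
      exact (levi_eq_sum (Drv_at L hy) _ _).symm
    rw [e1.fderiv_eq, fd_Lf L hz, levi_eq_sum (Drv_at L hz) a', levi_eq_sum (Drv_at L hz) (a s)]
    simp only [add_mul, Finset.sum_add_distrib, Fintype.sum_prod_type]
    ring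
  rw [← hv]
  refine hg.congr_of_eventuallyEq ?_ ?_
  · filter_upwards [hcont] with σ hσ
    rw [levi_eq_sum (Drv_at L hσ), Fintype.sum_prod_type]
  · rw [levi_eq_sum (Drv_at L hz), Fintype.sum_prod_type]

theorem drv_XX (L : Loc w U) {D : Set ℝ} {s : ℝ} {z b : ℝ → E n} {z' b' : E n}
    (hz : z s ∈ U) (h1 : HasDerivWithinAt z z' D s) (h2 : HasDerivWithinAt b b' D s) :
    ∃ G : E n, HasDerivWithinAt (fun σ => XX w (z σ) (b σ)) G D s ∧
      ∀ m, S G m = T3 w (z s) z' m (b s) + conj (T3 w (z s) z' (b s) m) + levi w (z s) m b' := by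
  have hcont : ∀ᶠ σ in 𝓝[D] s, z σ ∈ U :=
    h1.continuousWithinAt.preimage_mem_nhdsWithin (L.op.mem_nhds hz)
  refine ⟨fun k => sg k * (T3 w (z s) z' (e k.swap) (b s)
    + conj (T3 w (z s) z' (b s) (e k.swap)) + levi w (z s) (e k.swap) b'), ?_, ?_⟩
  · refine hasDerivWithinAt_pi.2 fun k => ?_
    have h3 := (drv_levi L hz h1 (hasDerivWithinAt_const s D (e k.swap : E n)) h2).const_mul (sg k)
    have h0 : levi w (z s) (0 : E n) (b s) = 0 := by
      have := levi_smul_left L hz 0 (0 : E n) (b s)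
      rwa [zero_smul, zero_mul] at this
    rw [h0, add_zero] at h3
    refine h3.congr_of_eventuallyEq ?_ ?_
    · filter_upwards [hcont] with σ hσ
      exact XX_apply (Drv_at L hσ) _ _
    · exact XX_apply (Drv_at L hz) _ _
  · intro m
    have hm := vec_eq_sum m
    have t1 : T3 w (z s) z' m (b s) = ∑ k, m k * T3 w (z s) z' (e k) (b s) := by
      conv_lhs => rw [hm]
      exact T3_sum2 L hz _ _ _ _ _
    have t2 : conj (T3 w (z s) z' (b s) m) = ∑ k, m k * conj (T3 w (z s) z' (b s) (e k)) := by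
      conv_lhs => rw [hm]
      rw [T3_sum3 L hz, map_sum]
      exact Finset.sum_congr rfl fun k _ => by rw [map_mul, Complex.conj_conj]
    have t3 : levi w (z s) m b' = ∑ k, m k * levi w (z s) (e k) b' := by
      conv_lhs => rw [hm]
      exact levi_sum1 _ _ _ _
    rw [t1, t2, t3, S_eq, ← Finset.sum_add_distrib, ← Finset.sum_add_distrib,
      ← sum_swap (fun k => m k * T3 w (z s) z' (e k) (b s)
        + m k * conj (T3 w (z s) z' (b s) (e k)) + m k * levi w (z s) (e k) b')]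
    refine Finset.sum_congr rfl fun k _ => ?_
    linear_combination (T3 w (z s) z' (e k.swap) (b s)
      + conj (T3 w (z s) z' (b s) (e k.swap)) + levi w (z s) (e k.swap) b') * m k.swap * sg_sq k

theorem drv_T3 (L : Loc w U) {D : Set ℝ} {s : ℝ} {z v a l : ℝ → E n} {z' v' a' l' : E n}
    (hz : z s ∈ U) (h1 : HasDerivWithinAt z z' D s) (h2 : HasDerivWithinAt v v' D s)
    (h3 : HasDerivWithinAt a a' D s) (h4 : HasDerivWithinAt l l' D s) :
    HasDerivWithinAt (fun σ => T3 w (z σ) (v σ) (a σ) (l σ))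
      (d10 (fun y => T3 w y (v s) (a s) (l s)) (z s) z'
        + d01 (fun y => T3 w y (v s) (a s) (l s)) (z s) z'
        + T3 w (z s) v' (a s) (l s) + T3 w (z s) (v s) a' (l s) + T3 w (z s) (v s) (a s) l') D s := by
  have hcont : ∀ᶠ σ in 𝓝[D] s, z σ ∈ U :=
    h1.continuousWithinAt.preimage_mem_nhdsWithin (L.op.mem_nhds hz)
  have hg := Drv_gen (n := n) (κ := Ix n × Ix n × Ix n)
    (fun i σ => v σ i.1 * a σ i.2.1 * conj (l σ i.2.2))
    (fun i => (v' i.1 * a s i.2.1 + v s i.1 * a' i.2.1) * conj (l s i.2.2)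
      + v s i.1 * a s i.2.1 * conj (l' i.2.2))
    (fun i y => pk i.1 (fun y => LM w y i.2.1 i.2.2) y)
    (fun i => diffAt_of L.op (contDiffOn_pk L.op (Drv_sm L i.2.1 i.2.2) i.1) hz)
    (fun i => ((hasDerivWithinAt_pi.1 h2 i.1).mul (hasDerivWithinAt_pi.1 h3 i.2.1)).mul
      (Drv_conj (hasDerivWithinAt_pi.1 h4 i.2.2))) h1
  have hv : ∑ i : Ix n × Ix n × Ix n, ((v' i.1 * a s i.2.1 + v s i.1 * a' i.2.1)
        * conj (l s i.2.2) + v s i.1 * a s i.2.1 * conj (l' i.2.2))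
        * pk i.1 (fun y => LM w y i.2.1 i.2.2) (z s)
      + fderiv ℝ (fun y => ∑ i : Ix n × Ix n × Ix n, v s i.1 * a s i.2.1 * conj (l s i.2.2)
        * pk i.1 (fun y => LM w y i.2.1 i.2.2) y) (z s) z'
      = d10 (fun y => T3 w y (v s) (a s) (l s)) (z s) z'
        + d01 (fun y => T3 w y (v s) (a s) (l s)) (z s) z'
        + T3 w (z s) v' (a s) (l s) + T3 w (z s) (v s) a' (l s)
        + T3 w (z s) (v s) (a s) l' := by
    have e1 : (fun y => ∑ i : Ix n × Ix n × Ix n, v s i.1 * a s i.2.1 * conj (l s i.2.2)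
        * pk i.1 (fun y => LM w y i.2.1 i.2.2) y)
        =ᶠ[𝓝 (z s)] (fun y => T3 w y (v s) (a s) (l s)) := by
      filter_upwards [L.op.mem_nhds hz] with y hy
      simp only [Fintype.sum_prod_type]
      exact (T3_eq_sum L hy _ _ _).symm
    rw [e1.fderiv_eq, fd_eq, T3_eq_sum L hz v', T3_eq_sum L hz (v s) a',
      T3_eq_sum L hz (v s) (a s) l']
    simp only [add_mul, Finset.sum_add_distrib, Fintype.sum_prod_type]
    ring
  rw [← hv]
  refine hg.congr_of_eventuallyEq ?_ ?_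
  · filter_upwards [hcont] with σ hσ
    simp only [Fintype.sum_prod_type]
    exact T3_eq_sum L hσ _ _ _
  · simp only [Fintype.sum_prod_type]
    exact T3_eq_sum L hz _ _ _

end Pool.Agent.LFC
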