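import Pool.Agent.LFC.Exp
import Pool.Agent.LFC.Drv

/-!
ComA (size 3): the velocity `XX w z (b_ζ)` along the direction `vel w y ξ`.
PROOF. `(y + s • vel w y ξ).1 = z + s • v`, `v = XX w z (bx b ξ)`; `bx (b + s • b') ζ = bx b ζ + s • bx b' ζ`, where
`b' j = -∑ l, W j l • b l`, `W j l = T3 w z v (b j) (b l)`. `drv_XX` (`D = univ`, `hasDerivWithinAt_univ`) gives `G` with
`S G m = T3 z v m (b_ζ) + conj (T3 z v (b_ζ) m) + levi m (bx b' ζ)`. The last two terms cancel: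
`levi m (bx b' ζ) = -∑ j, ∑ l, ζ j * conj (W j l) * levi m (b l)` (`levi_sum2`), and by `T3_exp`
`T3 z v (b_ζ) m = ∑ l, conj (levi m (b l)) * T3 z v (b_ζ) (b l)`, `T3 z v (b_ζ) (b l) = ∑ j, conj (ζ j) * W j l`
(`T3_sum2`).
-/

open scoped ContDiff ComplexConjugate Topology
open Complex

namespace Pool.Agent.LFC

open Pool.Agent.DTW Pool.Agent.SKF

variable {n r : ℕ} {U : Set (E n)} {w : E n → ℝ} {y : E n × (Fin r → E n)}

theorem comA (L : Loc w U) (hz : y.1 ∈ U) (hI : InvP w y) (ξ ζ : Fin r → ℂ) :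
    ∃ G : E n, HasDerivAt (fun s : ℝ => XX w (y + s • vel w y ξ).1
        (bx (y + s • vel w y ξ).2 ζ)) G 0 ∧
      ∀ m, S G m = T3 w y.1 (XX w y.1 (bx y.2 ξ)) m (bx y.2 ζ) := by
  obtain ⟨z, hzd⟩ : ∃ z, z = y.1 := ⟨_, rfl⟩
  obtain ⟨b, hbd⟩ : ∃ b, b = y.2 := ⟨_, rfl⟩
  obtain ⟨v, hv⟩ : ∃ v, v = XX w z (bx b ξ) := ⟨_, rfl⟩
  obtain ⟨b', hb'⟩ : ∃ b' : Fin r → E n, b' = (vel w y ξ).2 := ⟨_, rfl⟩
  have hz' : z ∈ U := by rw [hzd]; exact hz
  have hb'j : ∀ j, b' j = (-1 : ℂ) • ∑ l, T3 w z v (b j) (b l) • b l := by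
    intro j
    rw [hb', neg_one_smul, hv, hzd, hbd]
    rfl
  have hz0 : y + (0 : ℝ) • vel w y ξ = y := by rw [zero_smul, add_zero]
  have c1 : HasDerivAt (fun s : ℝ => (y + s • vel w y ξ).1) v 0 := by
    have h1 : HasDerivAt (fun s : ℝ => y.1 + s • (vel w y ξ).1) ((1 : ℝ) • (vel w y ξ).1) 0 :=
      ((hasDerivAt_id (0 : ℝ)).smul_const _).const_add _
    rw [one_smul] at h1
    rw [hv, hzd, hbd]
    exact h1
  have c2 : ∀ j, HasDerivAt (fun s : ℝ => (y + s • vel w y ξ).2 j) (b' j) 0 := by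
    intro j
    have h1 : HasDerivAt (fun s : ℝ => y.2 j + s • (vel w y ξ).2 j)
        ((1 : ℝ) • (vel w y ξ).2 j) 0 :=
      ((hasDerivAt_id (0 : ℝ)).smul_const _).const_add _
    rw [one_smul] at h1
    rw [hb']
    exact h1
  have c3 : HasDerivAt (fun s : ℝ => bx (y + s • vel w y ξ).2 ζ) (bx b' ζ) 0 := by
    unfold bx
    exact HasDerivAt.fun_sum fun j _ => (c2 j).const_smul (conj (ζ j))
  have hzU : (fun s : ℝ => (y + s • vel w y ξ).1) 0 ∈ U := by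
    show (y + (0 : ℝ) • vel w y ξ).1 ∈ U
    rw [hz0]; exact hz
  obtain ⟨G, hG, hS⟩ := drv_XX L (D := Set.univ) (s := 0)
    (z := fun s : ℝ => (y + s • vel w y ξ).1)
    (b := fun s : ℝ => bx (y + s • vel w y ξ).2 ζ)
    hzU c1.hasDerivWithinAt c3.hasDerivWithinAt
  rw [hasDerivWithinAt_univ] at hG
  refine ⟨G, hG, fun m => ?_⟩
  have h1 := hS m
  simp only [hz0] at h1
  rw [h1, ← hzd, ← hbd, ← hv, add_assoc]
  have e1 : levi w z m (bx b' ζ)
      = -∑ i, ∑ l, ζ i * (conj (T3 w z v (b i) (b l)) * levi w z m (b l)) := by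
    unfold bx
    rw [levi_sum2 L hz']
    rw [← Finset.sum_neg_distrib]
    refine Finset.sum_congr rfl fun i _ => ?_
    rw [hb'j i, levi_smul_right L hz', levi_sum2 L hz', Complex.conj_conj, map_neg, map_one,
      Finset.mul_sum, Finset.mul_sum, ← Finset.sum_neg_distrib]
    refine Finset.sum_congr rfl fun l _ => ?_
    ring
  have e2 : conj (T3 w z v (bx b ζ) m)
      = ∑ i, ∑ l, ζ i * (conj (T3 w z v (b i) (b l)) * levi w z m (b l)) := by
    have h2 := T3_exp L hz hI (bx y.2 ξ) (bx y.2 ζ) m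
    rw [← hzd, ← hbd, ← hv] at h2
    have h3 : ∀ k, T3 w z v (bx b ζ) (b k) = ∑ i, conj (ζ i) * T3 w z v (b i) (b k) := by
      intro k
      unfold bx
      rw [T3_sum2 L hz']
    rw [h2, map_sum, Finset.sum_comm]
    refine Finset.sum_congr rfl fun k _ => ?_
    rw [map_mul, Complex.conj_conj, h3, map_sum, Finset.mul_sum]
    refine Finset.sum_congr rfl fun i _ => ?_
    rw [map_mul, Complex.conj_conj]
    ring
  rw [e1, e2, add_neg_cancel, add_zero]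

end Pool.Agent.LFC
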