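import Pool.Agent.LFC.Trl

/-!
Mxd (size 3): the mixed derivative identity (consequence of `B = 0`): with `β` solving
`F(β, m̄) = - w_(l X_c m̄)`, `∂̄_(X_c) ∂_(X_q) F(a, l̄) = - w_(X_q a β̄)`.
-/

open scoped ContDiff ComplexConjugate Topology
open Complex

namespace Pool.Agent.LFC

open Pool.Agent.DTW Pool.Agent.SKF

variable {n r : ℕ} {U : Set (E n)} {w : E n → ℝ} {z : E n}

theorem mxd (L : LocB w U) (hz : z ∈ U) (q c a l β : E n)
    (hβ : ∀ m, levi w z β m = -T3 w z (XX w z c) l m) :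
    d01 (fun y => T3 w y (XX w z q) a l) z (XX w z c) = -T3 w z (XX w z q) a β := by
  have hLf : ContDiffAt ℝ ∞ (Lf w a l) z :=
    (smooth_Lf L.loc a l).contDiffAt (L.loc.op.mem_nhds hz)
  have hw : ContDiffAt ℝ ∞ w z := L.loc.sm.contDiffAt (L.loc.op.mem_nhds hz)
  have e1 : d01 (fun y => T3 w y (XX w z q) a l) z (XX w z c)
      = d10 (fun y => d10 (uu2 w l (XX w z c)) y a) z (XX w z q) := by
    have h1 : d01 (fun y => T3 w y (XX w z q) a l) z (XX w z c)
        = d10 (fun y => d01 (Lf w a l) y (XX w z c)) z (XX w z q) :=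
      (d10_d01_comm hLf (XX w z q) (XX w z c)).symm
    rw [h1]
    refine d10_congr ?_
    filter_upwards [L.loc.op.mem_nhds hz] with y hy
    rw [d10_uu2 L.loc hy]
    rfl
  have e2 : d10 (Bf w q l (XX w z c)) z a = 0 := by
    have h : Bf w q l (XX w z c) =ᶠ[𝓝 z] fun _ => (0 : ℂ) := by
      filter_upwards [L.loc.op.mem_nhds hz] with y hy
      exact L.bf y hy _ _ _
    rw [d10_congr h, d10_const]
  have e3 : d10 (Bf w q l (XX w z c)) z a
      = br (fun y => d10 (ub w q) y a) (uu2 w l (XX w z c)) z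
        + br (ub w q) (fun y => d10 (uu2 w l (XX w z c)) y a) z :=
    br_d10 L.loc.op (smooth_ub L.loc q) (smooth_uu2 L.loc l (XX w z c)) hz a
  have e4 : br (fun y => d10 (ub w q) y a) (uu2 w l (XX w z c)) z
      = -br (uu2 w l (XX w z c)) (Lf w a q) z := br_anti _ _ _
  have hd : ∀ m, d10 (uu2 w l (XX w z c)) z m
      = (-1 : ℂ) * d10 (ub w β) z m + 0 * d10 (ub w β) z m := by
    intro m
    rw [d10_uu2 L.loc hz]
    have h1 : third w z m l (XX w z c) = conj (T3 w z (XX w z c) l m) :=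
      d01_Lf L.loc hz (XX w z c) m l
    have h2 : T3 w z (XX w z c) l m = -levi w z β m := by
      rw [hβ m, neg_neg]
    have h3 : d10 (ub w β) z m = levi w z m β := rfl
    rw [h1, h2, map_neg, levi_conj L.loc hz, h3]
    ring
  have e5 : br (uu2 w l (XX w z c)) (Lf w a q) z = -T3 w z (XX w z q) a β := by
    rw [br_left (-1) 0 hd (Lf w a q), ← d10_XX hw]
    have h4 : d10 (Lf w a q) z (XX w z β) = T3 w z (XX w z q) a β :=
      T3_symm L.loc hz β a q
    rw [h4]
    ring
  rw [e1, d10_XX hw]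
  have e6 : br (ub w q) (fun y => d10 (uu2 w l (XX w z c)) y a) z
      = br (uu2 w l (XX w z c)) (Lf w a q) z := by
    rw [e3, e4] at e2
    linear_combination e2
  rw [e6, e5]

end Pool.Agent.LFC
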