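import Pool.Agent.LFC.ComA
import Pool.Agent.LFC.Mxd

/-!
ComB (size 4): the coefficients `W j l (ζ) = T3 w z (XX w z (b_ζ)) (b j) (b l)` along the direction `vel w y ξ`.
Put `v = XX w z (b_ξ)`, `u = XX w z (b_ζ)`, `Wξ j l = T3 w z v (b j) (b l)`, `Wζ j l = T3 w z u (b j) (b l)`.
PROOF. `drv_T3` (`D = univ`) with `z' = v`, `v' = G`, `a' = b' j = -∑ p, Wξ j p • b p`, `l' = b' l`: the derivative is
`d10 (..) z v + d01 (..) z v + T3 z G (b j) (b l) - ∑ p, Wξ j p * Wζ p l - ∑ p, conj (Wξ l p) * Wζ j p`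
(`T3_sum2`, `T3_sum3`). The second and the last term cancel: `mxd` with `q = b_ζ`, `c = b_ξ`, `a = b j`, `l = b l`,
`β = -∑ p, Wξ l p • b p`; hypothesis `hβ`: `levi β m = -∑ p, Wξ l p * levi (b p) m` and
`T3 z v (b l) m = ∑ p, conj (levi m (b p)) * Wξ l p` (`T3_exp`), `conj (levi m (b p)) = levi (b p) m` (`levi_conj`).
So `d01 (..) z v = - T3 z u (b j) β = ∑ p, conj (Wξ l p) * T3 z u (b j) (b p)` (`T3_sum3`).
-/

open scoped ContDiff ComplexConjugate Topology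
open Complex

namespace Pool.Agent.LFC

open Pool.Agent.DTW Pool.Agent.SKF

variable {n r : ℕ} {U : Set (E n)} {w : E n → ℝ} {y : E n × (Fin r → E n)}

theorem comB (L : LocB w U) (hz : y.1 ∈ U) (hI : InvP w y) (ξ ζ : Fin r → ℂ) (j l : Fin r)
    (G : E n) (hG : HasDerivAt (fun s : ℝ => XX w (y + s • vel w y ξ).1
        (bx (y + s • vel w y ξ).2 ζ)) G 0) :
    HasDerivAt (fun s : ℝ => T3 w (y + s • vel w y ξ).1
        (XX w (y + s • vel w y ξ).1 (bx (y + s • vel w y ξ).2 ζ))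
        ((y + s • vel w y ξ).2 j) ((y + s • vel w y ξ).2 l))
      (d10 (fun x => T3 w x (XX w y.1 (bx y.2 ζ)) (y.2 j) (y.2 l)) y.1 (XX w y.1 (bx y.2 ξ))
        + T3 w y.1 G (y.2 j) (y.2 l)
        - ∑ p, T3 w y.1 (XX w y.1 (bx y.2 ξ)) (y.2 j) (y.2 p)
            * T3 w y.1 (XX w y.1 (bx y.2 ζ)) (y.2 p) (y.2 l)) 0 := by
  have L0 := L.loc
  set z := y.1 with hzd
  set b := y.2 with hbd
  set v := XX w z (bx b ξ) with hv
  set u := XX w z (bx b ζ) with hu
  obtain ⟨b', hb'⟩ : ∃ b' : Fin r → E n, b' = (vel w y ξ).2 := ⟨_, rfl⟩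
  have hb'j : ∀ j, b' j = -∑ p, T3 w z v (b j) (b p) • b p := by
    intro j
    rw [hb']
    rfl
  -- the curves
  have hz0 : y + (0 : ℝ) • vel w y ξ = y := by rw [zero_smul, add_zero]
  have c1 : HasDerivAt (fun s : ℝ => (y + s • vel w y ξ).1) v 0 := by
    have h1 : HasDerivAt (fun s : ℝ => y.1 + s • (vel w y ξ).1) ((1 : ℝ) • (vel w y ξ).1) 0 :=
      ((hasDerivAt_id (0 : ℝ)).smul_const _).const_add _
    rw [one_smul] at h1
    exact h1
  have c2 : ∀ j, HasDerivAt (fun s : ℝ => (y + s • vel w y ξ).2 j) (b' j) 0 := by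
    intro j
    have h1 : HasDerivAt (fun s : ℝ => y.2 j + s • (vel w y ξ).2 j)
        ((1 : ℝ) • (vel w y ξ).2 j) 0 :=
      ((hasDerivAt_id (0 : ℝ)).smul_const _).const_add _
    rw [one_smul] at h1
    rw [hb']
    exact h1
  have hzU : (fun s : ℝ => (y + s • vel w y ξ).1) 0 ∈ U := by
    show (y + (0 : ℝ) • vel w y ξ).1 ∈ U
    rw [hz0]; exact hz
  have key := drv_T3 L0 (D := Set.univ) (s := 0) (z := fun s : ℝ => (y + s • vel w y ξ).1)
    (v := fun s : ℝ => XX w (y + s • vel w y ξ).1 (bx (y + s • vel w y ξ).2 ζ))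
    (a := fun s : ℝ => (y + s • vel w y ξ).2 j) (l := fun s : ℝ => (y + s • vel w y ξ).2 l)
    hzU c1.hasDerivWithinAt hG.hasDerivWithinAt (c2 j).hasDerivWithinAt (c2 l).hasDerivWithinAt
  rw [hasDerivWithinAt_univ] at key
  refine key.congr_deriv ?_
  simp only [hz0]
  rw [← hzd, ← hbd, ← hu]
  -- the mixed derivative
  have e1 : T3 w z u (b' j) (b l) = -∑ p, T3 w z v (b j) (b p) * T3 w z u (b p) (b l) := by
    have h1 : b' j = (-1 : ℂ) • ∑ p, T3 w z v (b j) (b p) • b p := by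
      rw [hb'j, neg_one_smul]
    rw [h1, T3_smul2 L0 hz, T3_sum2 L0 hz]
    ring
  have e2 : T3 w z u (b j) (b' l)
      = -∑ p, conj (T3 w z v (b l) (b p)) * T3 w z u (b j) (b p) := by
    have h1 : b' l = (-1 : ℂ) • ∑ p, T3 w z v (b l) (b p) • b p := by
      rw [hb'j, neg_one_smul]
    rw [h1, T3_smul3 L0 hz, T3_sum3 L0 hz, map_neg, map_one]
    ring
  have e3 : d01 (fun x => T3 w x u (b j) (b l)) z v
      = ∑ p, conj (T3 w z v (b l) (b p)) * T3 w z u (b j) (b p) := by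
    have h0 : ∀ m, levi w z (b' l) m = -T3 w z (XX w z (bx b ξ)) (b l) m := by
      intro m
      have h1 : b' l = (-1 : ℂ) • ∑ p, T3 w z v (b l) (b p) • b p := by
        rw [hb'j, neg_one_smul]
      have h2 : levi w z (b' l) m = (-1 : ℂ) * levi w z (∑ p, T3 w z v (b l) (b p) • b p) m := by
        rw [h1]
        exact d10_smul_vec _ _ _ _
      rw [h2, levi_sum1, T3_exp L0 hz hI (bx b ξ) (b l) m, neg_one_mul, ← hv]
      congr 1
      apply Finset.sum_congr rfl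
      intro p _
      rw [← levi_conj L0 hz m (b p)]
      ring
    have h3 := mxd L hz (bx b ζ) (bx b ξ) (b j) (b l) (b' l) h0
    rw [← hu, ← hv] at h3
    rw [h3, e2, neg_neg]
  rw [e1, e2, e3]
  ring

end Pool.Agent.LFC
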