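import Pool.Agent.LFC.Uql
import Pool.Agent.LFC.Chb

/-!
Unq (size 4): uniqueness of leaf maps with given 1-jet on convex open sets.
PROOF. Let `t₁ ∈ Ω`, `p s = t₀ + s • (t₁ - t₀)`, `s ∈ Icc 0 1` (in `Ω` by convexity). Let `Z` be the set of `s` with `Φ (p s) = Ψ (p s)` and, for all
charts `j` with `Φ (p s) ∈ (A.c j).source`, `fderiv ℂ (A.c j ∘ Φ) (p s) = fderiv ℂ (A.c j ∘ Ψ) (p s)`. `0 ∈ Z` (`deriv_chart`, `HasFDerivAt.fderiv`). `Z ∩ Icc 0 1` is closed: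
`Φ`, `Ψ` are continuous on `Ω`, `X` is T2; if `s` is a limit point and `Φ (p s) ∈ (A.c j).source` then near `p s` both `A.c j ∘ Φ`, `A.c j ∘ Ψ` are smooth
(`leafC_of`, `leafC_smooth`; `fderiv` is determined by its values on the basis), so the derivatives are continuous at `p s` and agree. If `s ∈ Z`, `s < 1`: chart `j` at `Φ (p s)`,
`uql` with `t = p s`, `ξ = t₁ - t₀`, `N₁ = {t ∈ Ω | Φ t ∈ (A.c j).source}`, `N₂` the same for `Ψ` (`leafC_of`): for `s'` near `s` the values and the derivatives in the chart `j`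
agree (`(A.c j).injOn`), hence in all charts (`deriv_chart`). So `Icc 0 1 ⊆ Z` (`IsClosed.Icc_subset_of_forall_exists_gt`), and `Φ t₁ = Ψ t₁`.
-/

open scoped ContDiff ComplexConjugate Topology
open Complex

namespace Pool.Agent.LFC

open Pool.Agent.DTW Pool.Agent.SKF

variable {n r : ℕ} {X : Type*} [TopologicalSpace X] [T2Space X] {ι : Type*} {A : Atlas n X ι}

omit [TopologicalSpace X] [T2Space X] in
private theorem unq_ne {Y : Type*} [TopologicalSpace Y] [T2Space Y] {g h : ℝ → Y} {s : ℝ}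
    (hg : ContinuousAt g s) (hh : ContinuousAt h s) (hne : g s ≠ h s) :
    ∀ᶠ u in 𝓝 s, g u ≠ h u := by
  have h1 : ContinuousAt (fun u => (g u, h u)) s := hg.prodMk hh
  have h3 : (g s, h s) ∈ (Set.diagonal Y)ᶜ := hne
  exact h1.eventually (isClosed_diagonal.isOpen_compl.mem_nhds h3)

private theorem unq_jet (B : Bundle A) {Ω : Set (Fin r → ℂ)}
    (hΩ : IsOpen Ω) {Φ Ψ : (Fin r → ℂ) → X} (hΦ : ∀ t ∈ Ω, LeafAt B Φ t)
    (hΨ : ∀ t ∈ Ω, LeafAt B Ψ t) {p : ℝ → Fin r → ℂ} (hp : Continuous p) {s : ℝ}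
    (hs : p s ∈ Ω) (hf : ∃ᶠ u in 𝓝 s, Φ (p u) = Ψ (p u) ∧ ∀ j, Φ (p u) ∈ (A.c j).source →
      fderiv ℂ (A.c j ∘ Φ) (p u) = fderiv ℂ (A.c j ∘ Ψ) (p u)) :
    Φ (p s) = Ψ (p s) ∧ ∀ j, Φ (p s) ∈ (A.c j).source →
      fderiv ℂ (A.c j ∘ Φ) (p s) = fderiv ℂ (A.c j ∘ Ψ) (p s) := by
  have cΦ : ContinuousAt (fun u => Φ (p u)) s :=
    ContinuousAt.comp (f := p) (hΦ _ hs).1 hp.continuousAt
  have cΨ : ContinuousAt (fun u => Ψ (p u)) s :=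
    ContinuousAt.comp (f := p) (hΨ _ hs).1 hp.continuousAt
  have e0 : Φ (p s) = Ψ (p s) := by
    by_contra hne
    have h1 : ∀ᶠ u in 𝓝 s, Φ (p u) ≠ Ψ (p u) := unq_ne cΦ cΨ hne
    exact hf (h1.mono fun u hu h => hu h.1)
  refine ⟨e0, fun j hj => ?_⟩
  have hj' : Ψ (p s) ∈ (A.c j).source := by rw [← e0]; exact hj
  have h₁ := leafC_of B hΩ hΦ j
  have h₂ := leafC_of B hΩ hΨ j
  have m₁ : p s ∈ {t | t ∈ Ω ∧ Φ t ∈ (A.c j).source} := ⟨hs, hj⟩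
  have m₂ : p s ∈ {t | t ∈ Ω ∧ Ψ t ∈ (A.c j).source} := ⟨hs, hj'⟩
  refine ContinuousLinearMap.ext fun ζ => ?_
  have d₁ : ContinuousAt (fun u => fderiv ℂ (A.c j ∘ Φ) (p u) ζ) s :=
    ContinuousAt.comp (f := p) (g := fun t => fderiv ℂ (A.c j ∘ Φ) t ζ)
      (((leafC_smooth h₁).2 ζ).continuousOn.continuousAt (h₁.op.mem_nhds m₁)) hp.continuousAt
  have d₂ : ContinuousAt (fun u => fderiv ℂ (A.c j ∘ Ψ) (p u) ζ) s :=
    ContinuousAt.comp (f := p) (g := fun t => fderiv ℂ (A.c j ∘ Ψ) t ζ)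
      (((leafC_smooth h₂).2 ζ).continuousOn.continuousAt (h₂.op.mem_nhds m₂)) hp.continuousAt
  by_contra hne
  have h1 : ∀ᶠ u in 𝓝 s, fderiv ℂ (A.c j ∘ Φ) (p u) ζ ≠ fderiv ℂ (A.c j ∘ Ψ) (p u) ζ :=
    unq_ne d₁ d₂ hne
  have h2 : ∀ᶠ u in 𝓝 s, Φ (p u) ∈ (A.c j).source := cΦ ((A.c j).open_source.mem_nhds hj)
  exact hf ((h1.and h2).mono fun u hu h => hu.1 (by rw [h.2 j hu.2]))

theorem unq (B : Bundle A) (L : ∀ i, Loc (B.wt i) (A.c i).target) {Ω : Set (Fin r → ℂ)}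
    (hΩ : IsOpen Ω) (hc : Convex ℝ Ω) {Φ Ψ : (Fin r → ℂ) → X} (hΦ : ∀ t ∈ Ω, LeafAt B Φ t)
    (hΨ : ∀ t ∈ Ω, LeafAt B Ψ t) {t₀ : Fin r → ℂ} (ht₀ : t₀ ∈ Ω) (h0 : Φ t₀ = Ψ t₀) {i : ι}
    (hi : Φ t₀ ∈ (A.c i).source) {T : (Fin r → ℂ) →L[ℂ] E n}
    (hT : HasFDerivAt (𝕜 := ℂ) (A.c i ∘ Φ) T t₀)
    (hT' : HasFDerivAt (𝕜 := ℂ) (A.c i ∘ Ψ) T t₀) : ∀ t ∈ Ω, Φ t = Ψ t := by
  intro t₁ ht₁
  set p : ℝ → Fin r → ℂ := fun s => t₀ + s • (t₁ - t₀) with hp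
  have hpc : Continuous p := by
    rw [hp]
    fun_prop
  have hpΩ : ∀ s ∈ Set.Icc (0 : ℝ) 1, p s ∈ Ω := fun s hs => hc.add_smul_sub_mem ht₀ ht₁ hs
  set Z : Set ℝ := {s | Φ (p s) = Ψ (p s) ∧ ∀ j, Φ (p s) ∈ (A.c j).source →
      fderiv ℂ (A.c j ∘ Φ) (p s) = fderiv ℂ (A.c j ∘ Ψ) (p s)} with hZ
  have hp0 : p 0 = t₀ := by simp [hp]
  have hp1 : p 1 = t₁ := by simp [hp]
  have hcl : IsClosed (Z ∩ Set.Icc 0 1) := by
    refine isClosed_of_closure_subset fun s hs => ?_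
    have h1 : s ∈ Set.Icc (0 : ℝ) 1 :=
      isClosed_Icc.closure_subset_iff.2 Set.inter_subset_right hs
    refine ⟨unq_jet B hΩ hΦ hΨ hpc (hpΩ s h1) ?_, h1⟩
    exact (mem_closure_iff_frequently.1 hs).mono fun u hu => hu.1
  have h00 : (0 : ℝ) ∈ Z := by
    refine ⟨by rw [hp0]; exact h0, fun j hj => ?_⟩
    rw [hp0] at hj ⊢
    obtain ⟨T', h1, h2⟩ := deriv_chart (hΦ _ ht₀).1 (hΨ _ ht₀).1 h0 hi hj hT hT'
    rw [h1.fderiv, h2.fderiv]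
  have hsub : Set.Icc (0 : ℝ) 1 ⊆ Z := by
    refine hcl.Icc_subset_of_forall_exists_gt h00 fun s hs y hy => ?_
    have hsI : s ∈ Set.Icc (0 : ℝ) 1 := ⟨hs.2.1, hs.2.2.le⟩
    obtain ⟨j, hj⟩ := A.cover (Φ (p s))
    have e0 : Φ (p s) = Ψ (p s) := hs.1.1
    have hj' : Ψ (p s) ∈ (A.c j).source := by rw [← e0]; exact hj
    have h₁ := leafC_of B hΩ hΦ j
    have h₂ := leafC_of B hΩ hΨ j
    obtain ⟨ε, hε, hu⟩ := uql (L j) h₁ h₂ (t := p s) ⟨hpΩ s hsI, hj⟩ ⟨hpΩ s hsI, hj'⟩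
      (by simp only [Function.comp_apply]; rw [e0]) (hs.1.2 j hj) (t₁ - t₀)
    have hy' : s < y := hy
    have hδ : 0 < min (ε / 2) (y - s) := lt_min (by linarith) (by linarith)
    set δ := min (ε / 2) (y - s) with hδd
    have hδε : |δ| < ε := by
      rw [abs_of_pos hδ]
      have := min_le_left (ε / 2) (y - s)
      linarith
    have hpd : p s + δ • (t₁ - t₀) = p (s + δ) := by
      simp only [hp]
      rw [add_smul, add_assoc]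
    obtain ⟨n₁, n₂, v, d⟩ := hu δ hδε
    rw [hpd] at n₁ n₂ v d
    have hv : Φ (p (s + δ)) = Ψ (p (s + δ)) := (A.c j).injOn n₁.2 n₂.2 v
    refine ⟨s + δ, ⟨hv, fun k hk => ?_⟩, by linarith, ?_⟩
    · have f₁ := (leafC_frame h₁ n₁).1
      have f₂ := (leafC_frame h₂ n₂).1
      rw [← d] at f₂
      obtain ⟨T', g1, g2⟩ := deriv_chart (hΦ _ n₁.1).1 (hΨ _ n₂.1).1 hv n₁.2 hk f₁ f₂
      rw [g1.fderiv, g2.fderiv]
    · have := min_le_right (ε / 2) (y - s)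
      linarith
  have h1 := (hsub (⟨zero_le_one, le_rfl⟩ : (1 : ℝ) ∈ Set.Icc (0 : ℝ) 1)).1
  rw [hp1] at h1
  exact h1

end Pool.Agent.LFC
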