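import Pool.Agent.LFC.Lex
import Pool.Agent.LFC.Glb
import Pool.Agent.LFC.Unq

/-!
Crl (size 5): curves with velocity `X_(b(s))`, `b` continuous, stay in a leaf: local statement.
Let `Φ` be a global leaf map, `Φ 0 = γ s₀`, chart `i` at `γ s₀`, `z0 = A.c i (γ s₀)`, `w = B.wt i`.
PROOF. The frame of `Φ` at `0` gives a state `y = (z0, b⁰)` with `T ζ = XX w z0 (bx b⁰ ζ)` (`exists_inv`). `lex` at `y`: `Y` on `ball 0 δ`, `Y 0 = y`. As in `lps`, `t ↦ (A.c i).symm (Y t).1` is a leaf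
map with the same value and derivative at `0`, so `Φ t = (A.c i).symm (Y t).1` for `‖t‖ < δ` (`unq`). Solve `τ' = N(s, τ)`, `τ s₀ = 0`, where
`N(s,t) k = conj (levi w (Y t).1 (b s) ((Y t).2 k))`: continuous in `s`, of class `C¹` in `t` (`Y` is `C¹`: `fderiv ℝ Y t = velL w (Y t)` is continuous), so Lipschitz in `t` near
`(s₀, 0)`: Picard-Lindelöf on `Icc (s₀ - ε) (s₀ + ε)` (`IsPicardLindelof`). `η s = (Y (τ s)).1` satisfies `η' = (velL w (Y τ) τ').1 = XX w η (bx (Y τ).2 τ') = XX w η (b s)` (`XX_exp`: `XX w z c = XX w z (bx b ζ)`,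
`ζ k = conj (levi c (b k))`, `XX_bx`). `z s = A.c i (γ s)` satisfies the same equation `z' = XX w z (b s)`, `z s₀ = z0 = η s₀`; the right side is Lipschitz in `z` near `z0` uniformly for `s` near `s₀`
(`smo_XX`; `b` bounded): `z = η` near `s₀` (`ODE_solution_unique_of_mem_Icc`, or Gronwall). So `γ s = Φ (τ s)` near `s₀`.
-/

open scoped ContDiff ComplexConjugate Topology
open Complex

namespace Pool.Agent.LFC

open Pool.Agent.DTW Pool.Agent.SKF

variable {n r : ℕ} {X : Type*} [TopologicalSpace X] [T2Space X] [CompactSpace X] {ι : Type*}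
  {A : Atlas n X ι}

/-- Near the time `s₀` the curve `γ` has in every chart at `γ s₀` the velocity `X_(b(s))` with `b`
continuous. -/
def TanAt (B : Bundle A) (γ : ℝ → X) (s₀ : ℝ) : Prop :=
  ContinuousAt γ s₀ ∧ ∀ i, γ s₀ ∈ (A.c i).source → ∃ ε > 0, ∃ b : ℝ → E n,
    ContinuousOn b (Set.Ioo (s₀ - ε) (s₀ + ε)) ∧ ∀ s ∈ Set.Ioo (s₀ - ε) (s₀ + ε),
      γ s ∈ (A.c i).source ∧
        HasDerivAt (fun σ => A.c i (γ σ)) (XX (B.wt i) (A.c i (γ s)) (b s)) s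

omit [CompactSpace X] in
/-- the local system: the map `Y` represents `Φ` near `0` -/
private theorem Crl_rep (B : Bundle A) (L : ∀ i, LocB (B.wt i) (A.c i).target) {i : ι}
    {Φ : (Fin r → ℂ) → X} (hΦ : ∀ t, LeafAt B Φ t) (hi : Φ 0 ∈ (A.c i).source) :
    ∃ δ > 0, ∃ Y : (Fin r → ℂ) → E n × (Fin r → E n), (Y 0).1 = A.c i (Φ 0) ∧
      (∀ t ∈ Metric.ball (0 : Fin r → ℂ) δ, (Y t).1 ∈ (A.c i).target ∧ InvP (B.wt i) (Y t) ∧
          HasFDerivAt Y (velL (B.wt i) (Y t)) t) ∧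
      ∀ t ∈ Metric.ball (0 : Fin r → ℂ) δ, Φ t = (A.c i).symm (Y t).1 := by
  obtain ⟨T, hT, hF⟩ := (hΦ 0).2 i hi
  have hz : A.c i (Φ 0) ∈ (A.c i).target := (A.c i).map_source hi
  obtain ⟨b, hI, hb⟩ := exists_inv (L i).loc hz hF
  obtain ⟨ρ, hρ, δ, hδ, hlex⟩ := lex (L i) (y0 := (A.c i (Φ 0), b)) hz
  obtain ⟨Y, hY0, hY⟩ := hlex (A.c i (Φ 0), b) (by rw [dist_self]; exact hρ) hI
  refine ⟨δ, hδ, Y, by rw [hY0], hY, ?_⟩
  have hder : ∀ t ∈ Metric.ball (0 : Fin r → ℂ) δ, ContinuousAt (fun t => (A.c i).symm (Y t).1) t ∧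
      ∃ T' : (Fin r → ℂ) →L[ℂ] E n, (∀ ζ, T' ζ = XX (B.wt i) (Y t).1 (bx (Y t).2 ζ)) ∧
        IsFrame (B.wt i) (Y t).1 T' ∧
        HasFDerivAt (𝕜 := ℂ) (A.c i ∘ fun t => (A.c i).symm (Y t).1) T' t := by
    intro t ht
    obtain ⟨h1, h2, h3⟩ := hY t ht
    have hYc : ContinuousAt Y t := h3.continuousAt
    have hc : ContinuousAt (fun t => (A.c i).symm (Y t).1) t :=
      ContinuousAt.comp (f := fun t => (Y t).1) (g := (A.c i).symm)
        ((A.c i).continuousAt_symm h1) (continuous_fst.continuousAt.comp hYc)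
    refine ⟨hc, ?_⟩
    obtain ⟨T', hT', hF'⟩ := frame_of_inv (L i).loc h1 h2
    refine ⟨T', hT', hF', ?_⟩
    have h4 : HasFDerivAt (𝕜 := ℂ) (fun t => (Y t).1) T' t := by
      refine hasFDerivAt_of_restrictScalars ℝ h3.fst ?_
      ext1 ξ
      rw [ContinuousLinearMap.coe_restrictScalars', hT' ξ]
      rfl
    refine h4.congr_of_eventuallyEq ?_
    filter_upwards [Metric.isOpen_ball.mem_nhds ht] with t' ht'
    exact (A.c i).right_inv (hY t' ht').1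
  have h00 : (0 : Fin r → ℂ) ∈ Metric.ball (0 : Fin r → ℂ) δ := Metric.mem_ball_self hδ
  have hval0 : Φ 0 = (A.c i).symm (Y 0).1 := by
    rw [hY0]
    exact ((A.c i).left_inv hi).symm
  refine unq B (fun j => (L j).loc) Metric.isOpen_ball (convex_ball _ _) (fun t _ => hΦ t) ?_ h00
    hval0 hi hT ?_
  · intro t ht
    obtain ⟨hc, T', -, hF', hd⟩ := hder t ht
    have h1 := (hY t ht).1
    refine leafAt_of_chart B (fun j => (L j).loc) hc ((A.c i).map_target h1) hd ?_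
    show IsFrame (B.wt i) (A.c i ((A.c i).symm (Y t).1)) T'
    rw [(A.c i).right_inv h1]
    exact hF'
  · obtain ⟨-, T', hT', -, hd⟩ := hder 0 h00
    have : T = T' := by
      ext1 ζ
      rw [hb ζ, hT' ζ, hY0]
    rw [this]
    exact hd

private theorem Crl_vel {w : E n → ℝ} {U : Set (E n)} (L : Loc w U)
    {y : E n × (Fin r → E n)} (hz : y.1 ∈ U) (hI : InvP w y) (c : E n) :
    XX w y.1 (bx y.2 fun k => conj (levi w y.1 c (y.2 k))) = XX w y.1 c := by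
  rw [XX_bx, XX_exp L hz hI c]

theorem crl (B : Bundle A) (L : ∀ i, LocB (B.wt i) (A.c i).target) {γ : ℝ → X} {s₀ : ℝ}
    (hγ : TanAt B γ s₀) {Φ : (Fin r → ℂ) → X} (hΦ : ∀ t, LeafAt B Φ t) (h0 : Φ 0 = γ s₀) :
    ∃ ε > 0, ∀ s ∈ Set.Ioo (s₀ - ε) (s₀ + ε), ∃ t, γ s = Φ t := by
  set i := ix A (γ s₀) with hi_def
  have hi : γ s₀ ∈ (A.c i).source := mem_ix A _
  set w := B.wt i with hw
  obtain ⟨ε₁, hε₁, b, hb, hγ'⟩ := hγ.2 i hi
  obtain ⟨δ, hδ, Y, hY0, hY, hYΦ⟩ := Crl_rep B L hΦ (i := i) (by rw [h0]; exact hi)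
  have hLoc : Loc w (A.c i).target := (L i).loc
  have h00 : (0 : Fin r → ℂ) ∈ Metric.ball (0 : Fin r → ℂ) δ := Metric.mem_ball_self hδ
  have hY0' : (Y 0).1 = A.c i (γ s₀) := by rw [hY0, h0]
  have hz0 : A.c i (γ s₀) ∈ (A.c i).target := (A.c i).map_source hi
  -- `Y` is `C¹` near `0`
  have hYC : ContDiffAt ℝ 1 Y 0 := by
    rw [contDiffAt_one_iff]
    refine ⟨fun t => velL w (Y t), Metric.ball 0 δ, Metric.isOpen_ball.mem_nhds h00, ?_,
      fun t ht => (hY t ht).2.2⟩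
    refine (smo_velL hLoc).continuousOn.comp
      (fun t ht => (hY t ht).2.2.continuousAt.continuousWithinAt) ?_
    intro t ht
    exact ⟨(hY t ht).1, Set.mem_univ _⟩
  -- the time dependent field
  set M : E n × (Fin r → ℂ) → (Fin r → ℂ) := fun q k =>
    conj (levi w (Y q.2).1 q.1 ((Y q.2).2 k)) with hM
  have hMC : ContDiffAt ℝ 1 M (b s₀, 0) := by
    rw [contDiffAt_pi]
    intro k
    have hin : ContDiffAt ℝ 1 (fun q : E n × (Fin r → ℂ) => ((Y q.2).1, q.1, (Y q.2).2 k))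
        (b s₀, 0) := by
      have hYq : ContDiffAt ℝ 1 (fun q : E n × (Fin r → ℂ) => Y q.2) (b s₀, 0) :=
        ContDiffAt.comp (g := Y) (f := Prod.snd) (b s₀, (0 : Fin r → ℂ)) hYC contDiffAt_snd
      have h1 : ContDiffAt ℝ 1 (fun q : E n × (Fin r → ℂ) => (Y q.2).1) (b s₀, 0) := hYq.fst
      have h2 : ContDiffAt ℝ 1 (fun q : E n × (Fin r → ℂ) => (Y q.2).2 k) (b s₀, 0) :=
        (contDiffAt_pi.1 hYq.snd) k
      exact h1.prodMk (contDiffAt_fst.prodMk h2)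
    have hlev : ContDiffAt ℝ 1 (fun p : E n × E n × E n => levi w p.1 p.2.1 p.2.2)
        ((Y 0).1, b s₀, (Y 0).2 k) := by
      refine ((smo_levi hLoc).contDiffAt ?_).of_le (by exact_mod_cast le_top)
      refine (hLoc.op.prod isOpen_univ).mem_nhds ⟨?_, Set.mem_univ _⟩
      show (Y 0).1 ∈ _
      rw [hY0']
      exact hz0
    have h3 := ContDiffAt.comp (g := fun p : E n × E n × E n => levi w p.1 p.2.1 p.2.2)
      (b s₀, (0 : Fin r → ℂ)) hlev hin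
    exact Complex.conjCLE.contDiff.contDiffAt.comp (b s₀, (0 : Fin r → ℂ)) h3
  obtain ⟨K, N, hN, hK⟩ := hMC.exists_lipschitzOnWith
  obtain ⟨η, hη, hηN⟩ := Metric.mem_nhds_iff.1 hN
  have hbc : ContinuousAt b s₀ := hb.continuousAt (Ioo_mem_nhds (by linarith) (by linarith))
  obtain ⟨ε₂, hε₂, hbε⟩ := Metric.continuousAt_iff.1 hbc η hη
  obtain ⟨a, ha, haη, haδ⟩ : ∃ a : ℝ, 0 < a ∧ a < η ∧ a < δ :=
    ⟨min η δ / 2, by positivity, by
      have := min_le_left η δ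
      linarith, by
      have := min_le_right η δ
      linarith⟩
  have hmemN : ∀ s, dist s s₀ < ε₂ → ∀ t ∈ Metric.closedBall (0 : Fin r → ℂ) a,
      (b s, t) ∈ N := by
    intro s hs t ht
    refine hηN ?_
    rw [Metric.mem_ball, Prod.dist_eq]
    exact max_lt (hbε hs) (lt_of_le_of_lt (Metric.mem_closedBall.1 ht) haη)
  obtain ⟨Lc, hLc0, hLc⟩ : ∃ Lc : ℝ, 0 ≤ Lc ∧ ∀ q ∈ Metric.ball (b s₀, (0 : Fin r → ℂ)) η,
      ‖M q‖ ≤ Lc := by
    refine ⟨‖M (b s₀, 0)‖ + K * η, by positivity, fun q hq => ?_⟩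
    have h1 := hK.dist_le_mul q (hηN hq) (b s₀, 0) (hηN (Metric.mem_ball_self hη))
    have h2 : ‖M q‖ ≤ ‖M (b s₀, 0)‖ + dist (M q) (M (b s₀, 0)) := by
      rw [dist_eq_norm]
      calc ‖M q‖ = ‖M (b s₀, 0) + (M q - M (b s₀, 0))‖ := by
            congr 1
            abel
        _ ≤ _ := norm_add_le _ _
    have h3 : (K : ℝ) * dist q (b s₀, 0) ≤ K * η :=
      mul_le_mul_of_nonneg_left (Metric.mem_ball.1 hq).le K.2
    linarith
  obtain ⟨ε, hε, hε1, hε2, hεL⟩ : ∃ ε : ℝ, 0 < ε ∧ ε < ε₁ ∧ ε < ε₂ ∧ Lc * ε ≤ a := by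
    refine ⟨min (min (ε₁ / 2) (ε₂ / 2)) (a / (Lc + 1)), by positivity, ?_, ?_, ?_⟩
    · refine lt_of_le_of_lt ((min_le_left _ _).trans (min_le_left _ _)) (by linarith)
    · refine lt_of_le_of_lt ((min_le_left _ _).trans (min_le_right _ _)) (by linarith)
    · calc Lc * min (min (ε₁ / 2) (ε₂ / 2)) (a / (Lc + 1)) ≤ (Lc + 1) * (a / (Lc + 1)) := by
            refine mul_le_mul (by linarith) (min_le_right _ _) (by positivity) (by positivity)
        _ = a := mul_div_cancel₀ a (by positivity)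
  have hIcc : ∀ s ∈ Set.Icc (s₀ - ε) (s₀ + ε), dist s s₀ < ε₂ ∧ s ∈ Set.Ioo (s₀ - ε₁) (s₀ + ε₁) := by
    intro s hs
    refine ⟨?_, ⟨by linarith [hs.1], by linarith [hs.2]⟩⟩
    rw [Real.dist_eq, abs_lt]
    exact ⟨by linarith [hs.1], by linarith [hs.2]⟩
  have hPL : IsPicardLindelof (fun s t => M (b s, t)) (tmin := s₀ - ε) (tmax := s₀ + ε)
      ⟨s₀, by constructor <;> linarith⟩ (0 : Fin r → ℂ) ⟨a, ha.le⟩ 0 ⟨Lc, hLc0⟩ K := by
    refine ⟨?_, ?_, ?_, ?_⟩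
    · intro s hs
      refine LipschitzOnWith.of_dist_le_mul fun t ht t' ht' => ?_
      have h1 := hK.dist_le_mul _ (hmemN s (hIcc s hs).1 t ht) _ (hmemN s (hIcc s hs).1 t' ht')
      rwa [Prod.dist_eq, dist_self, max_eq_right dist_nonneg] at h1
    · intro t ht
      refine hK.continuousOn.comp (f := fun s => (b s, t)) ?_ ?_
      · exact (hb.mono fun s hs => (hIcc s hs).2).prodMk continuousOn_const
      · exact fun s hs => hmemN s (hIcc s hs).1 t ht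
    · intro s hs t ht
      refine hLc _ ?_
      rw [Metric.mem_ball, Prod.dist_eq]
      exact max_lt (hbε (hIcc s hs).1) (lt_of_le_of_lt (Metric.mem_closedBall.1 ht) haη)
    · have h1 : max (s₀ + ε - s₀) (s₀ - (s₀ - ε)) = ε := by
        rw [add_sub_cancel_left, sub_sub_cancel, max_self]
      show Lc * max (s₀ + ε - s₀) (s₀ - (s₀ - ε)) ≤ a - 0
      rw [h1]
      linarith
  obtain ⟨τ, hτ0, hτ⟩ := hPL.exists_eq_forall_mem_Icc_hasDerivWithinAt₀
  have hτ0' : τ s₀ = 0 := hτ0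
  have hτd : ∀ s ∈ Set.Ioo (s₀ - ε) (s₀ + ε), HasDerivAt τ (M (b s, τ s)) s := fun s hs =>
    (hτ s ⟨hs.1.le, hs.2.le⟩).hasDerivAt (Icc_mem_nhds hs.1 hs.2)
  have hIoo : Set.Ioo (s₀ - ε) (s₀ + ε) ∈ 𝓝 s₀ := Ioo_mem_nhds (by linarith) (by linarith)
  have hτc : ContinuousAt τ s₀ := (hτd s₀ ⟨by linarith, by linarith⟩).continuousAt
  have hτball : ∀ᶠ s in 𝓝 s₀, τ s ∈ Metric.ball (0 : Fin r → ℂ) δ := by
    refine hτc.eventually_mem ?_
    rw [hτ0']
    exact Metric.isOpen_ball.mem_nhds h00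
  -- the field of the second equation
  have hXC : ContDiffAt ℝ 1 (fun p : E n × E n => XX w p.1 p.2) (A.c i (γ s₀), b s₀) := by
    refine ((smo_XX hLoc).contDiffAt ?_).of_le (by exact_mod_cast le_top)
    exact (hLoc.op.prod isOpen_univ).mem_nhds ⟨hz0, Set.mem_univ _⟩
  obtain ⟨K₂, N₂, hN₂, hK₂⟩ := hXC.exists_lipschitzOnWith
  obtain ⟨η₂, hη₂, hηN₂⟩ := Metric.mem_nhds_iff.1 hN₂
  have hbη : ∀ᶠ s in 𝓝 s₀, dist (b s) (b s₀) < η₂ := hbc.eventually (Metric.ball_mem_nhds _ hη₂)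
  have hcγ : ContinuousAt (fun s => A.c i (γ s)) s₀ :=
    ContinuousAt.comp (f := γ) (g := A.c i) ((A.c i).continuousAt hi) hγ.1
  have hcY : ContinuousAt (fun s => (Y (τ s)).1) s₀ := by
    have h1 : ContinuousAt Y (τ s₀) := by
      rw [hτ0']
      exact (hY 0 h00).2.2.continuousAt
    exact continuous_fst.continuousAt.comp (ContinuousAt.comp (f := τ) (g := Y) h1 hτc)
  have hev : (fun s => A.c i (γ s)) =ᶠ[𝓝 s₀] fun s => (Y (τ s)).1 := by
    refine ODE_solution_unique_of_eventually (v := fun s z => XX w z (b s))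
      (s := fun _ => Metric.ball (A.c i (γ s₀)) η₂) (K := K₂) ?_ ?_ ?_ ?_
    · filter_upwards [hbη] with s hs
      refine LipschitzOnWith.of_dist_le_mul fun z hz z' hz' => ?_
      have hm : ∀ z ∈ Metric.ball (A.c i (γ s₀)) η₂, (z, b s) ∈ N₂ := by
        intro z hz
        refine hηN₂ ?_
        rw [Metric.mem_ball, Prod.dist_eq]
        exact max_lt (Metric.mem_ball.1 hz) hs
      have h1 := hK₂.dist_le_mul _ (hm z hz) _ (hm z' hz')
      rwa [Prod.dist_eq, dist_self, max_eq_left dist_nonneg] at h1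
    · filter_upwards [hIoo, hcγ.eventually_mem (Metric.ball_mem_nhds _ hη₂)] with s hs hs'
      exact ⟨(hγ' s (hIcc s ⟨hs.1.le, hs.2.le⟩).2).2, hs'⟩
    · have hb2 : ∀ᶠ s in 𝓝 s₀, (Y (τ s)).1 ∈ Metric.ball (A.c i (γ s₀)) η₂ := by
        refine hcY.eventually_mem ?_
        rw [hτ0', hY0']
        exact Metric.ball_mem_nhds _ hη₂
      filter_upwards [hIoo, hτball, hb2] with s hs hs' hs''
      refine ⟨?_, hs''⟩
      obtain ⟨h1, h2, h3⟩ := hY (τ s) hs'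
      have h4 := h3.comp_hasDerivAt s (hτd s hs)
      have h5 : HasDerivAt (fun s => (Y (τ s)).1)
          ((velL w (Y (τ s)) (M (b s, τ s))).1) s :=
        (ContinuousLinearMap.fst ℝ (E n) (Fin r → E n)).hasFDerivAt.comp_hasDerivAt s h4
      have h6 : (velL w (Y (τ s)) (M (b s, τ s))).1 = XX w (Y (τ s)).1 (b s) :=
        Crl_vel hLoc h1 h2 (b s)
      rw [h6] at h5
      exact h5
    · show A.c i (γ s₀) = (Y (τ s₀)).1
      rw [hτ0', hY0']
  have hfin : ∀ᶠ s in 𝓝 s₀, ∃ t, γ s = Φ t := by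
    filter_upwards [hev, hτball, hIoo] with s h1 h2 h3
    refine ⟨τ s, ?_⟩
    rw [hYΦ (τ s) h2]
    have h4 : A.c i (γ s) = (Y (τ s)).1 := h1
    rw [← h4, (A.c i).left_inv (hγ' s (hIcc s ⟨h3.1.le, h3.2.le⟩).2).1]
  obtain ⟨e, he, hball⟩ := Metric.eventually_nhds_iff.1 hfin
  refine ⟨e, he, fun s hs => hball ?_⟩
  rw [Real.dist_eq, abs_lt]
  exact ⟨by linarith [hs.1], by linarith [hs.2]⟩

end Pool.Agent.LFC
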