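import Pool.Agent.LFC.Unq

/-!
Dck (size 3): two global leaf maps that meet differ by a unitary affine map.
-/

open scoped ContDiff ComplexConjugate Topology
open Complex

namespace Pool.Agent.LFC

open Pool.Agent.DTW Pool.Agent.SKF

variable {n r r' : ℕ} {X : Type*} [TopologicalSpace X] [T2Space X] {ι : Type*} {A : Atlas n X ι}

private theorem Dck_range {w : E n → ℝ} {z : E n} {T : (Fin r → ℂ) →L[ℂ] E n}
    {T' : (Fin r' → ℂ) →L[ℂ] E n} (hT : IsFrame w z T) (hT' : IsFrame w z T') :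
    LinearMap.range (T : (Fin r → ℂ) →ₗ[ℂ] E n)
      = LinearMap.range (T' : (Fin r' → ℂ) →ₗ[ℂ] E n) := by
  ext v
  constructor
  · rintro ⟨ζ, rfl⟩
    obtain ⟨b, hb, -⟩ := hT.1 ζ
    obtain ⟨ζ', hζ'⟩ := hT'.2 b
    exact ⟨ζ', by
      show T' ζ' = T ζ
      rw [hζ', hb]⟩
  · rintro ⟨ζ, rfl⟩
    obtain ⟨b, hb, -⟩ := hT'.1 ζ
    obtain ⟨ζ', hζ'⟩ := hT.2 b
    exact ⟨ζ', by
      show T ζ' = T' ζ
      rw [hζ', hb]⟩

private theorem Dck_V {U : Set (E n)} {w : E n → ℝ} (L : Loc w U) {z : E n} (hz : z ∈ U)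
    {T : (Fin r → ℂ) →L[ℂ] E n} {T' : (Fin r' → ℂ) →L[ℂ] E n} (hT : IsFrame w z T)
    (hT' : IsFrame w z T') :
    ∃ V : (Fin r → ℂ) ≃ₗ[ℂ] (Fin r' → ℂ),
      (∀ ξ, ∑ k, Complex.normSq (V ξ k) = ∑ k, Complex.normSq (ξ k)) ∧
      ∀ ξ, T' (V ξ) = T ξ := by
  have i1 : Function.Injective (T : (Fin r → ℂ) →ₗ[ℂ] E n) := frame_inj L hz hT
  have i2 : Function.Injective (T' : (Fin r' → ℂ) →ₗ[ℂ] E n) := frame_inj L hz hT'
  let V : (Fin r → ℂ) ≃ₗ[ℂ] (Fin r' → ℂ) :=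
    (LinearEquiv.ofInjective (T : (Fin r → ℂ) →ₗ[ℂ] E n) i1).trans
      ((LinearEquiv.ofEq _ _ (Dck_range hT hT')).trans
        (LinearEquiv.ofInjective (T' : (Fin r' → ℂ) →ₗ[ℂ] E n) i2).symm)
  have hV : ∀ ξ, T' (V ξ) = T ξ := by
    intro ξ
    have h1 := (LinearEquiv.ofInjective (T' : (Fin r' → ℂ) →ₗ[ℂ] E n) i2).apply_symm_apply
      (LinearEquiv.ofEq _ _ (Dck_range hT hT')
        (LinearEquiv.ofInjective (T : (Fin r → ℂ) →ₗ[ℂ] E n) i1 ξ))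
    have h2 := congrArg Subtype.val h1
    exact h2
  refine ⟨V, fun ξ => ?_, hV⟩
  obtain ⟨b, hb, hbb⟩ := hT.1 ξ
  have h1 : T' (V ξ) = XX w z b := by rw [hV ξ, hb]
  have h2 := frame_levi L hz hT' h1
  rw [hbb] at h2
  exact (Complex.ofReal_injective h2).symm

theorem dck (B : Bundle A) (L : ∀ i, Loc (B.wt i) (A.c i).target) {Φ : (Fin r → ℂ) → X}
    {Ψ : (Fin r' → ℂ) → X} (hΦ : ∀ t, LeafAt B Φ t) (hΨ : ∀ t, LeafAt B Ψ t)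
    {s : Fin r → ℂ} {t : Fin r' → ℂ} (h : Φ s = Ψ t) :
    ∃ V : (Fin r → ℂ) ≃ₗ[ℂ] (Fin r' → ℂ),
      (∀ ξ, ∑ k, Complex.normSq (V ξ k) = ∑ k, Complex.normSq (ξ k)) ∧
      ∀ ξ, Φ (s + ξ) = Ψ (t + V ξ) := by
  obtain ⟨i, hi⟩ := A.cover (Φ s)
  have hi' : Ψ t ∈ (A.c i).source := h ▸ hi
  obtain ⟨T, hT, fT⟩ := (hΦ s).2 i hi
  obtain ⟨T', hT', fT'⟩ := (hΨ t).2 i hi'
  rw [← h] at fT'
  obtain ⟨V, hV, hVT⟩ := Dck_V (L i) ((A.c i).map_source hi) fT fT'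
  refine ⟨V, hV, fun ξ => ?_⟩
  have l1 : ∀ u ∈ (Set.univ : Set (Fin r → ℂ)), LeafAt B (fun ξ => Φ (s + ξ)) u := by
    intro u _
    exact leafAt_comp B (Φ := Φ) (t := u) s (LinearEquiv.refl ℂ (Fin r → ℂ))
      (fun _ => rfl) (hΦ _)
  have l2 : ∀ u ∈ (Set.univ : Set (Fin r → ℂ)), LeafAt B (fun ξ => Ψ (t + V ξ)) u := by
    intro u _
    exact leafAt_comp B (Φ := Ψ) (t := u) t V hV (hΨ _)
  have e0 : (fun ξ => Φ (s + ξ)) 0 = (fun ξ => Ψ (t + V ξ)) 0 := by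
    simp only [add_zero, map_zero, h]
  have d1 : HasFDerivAt (𝕜 := ℂ) (A.c i ∘ fun ξ => Φ (s + ξ)) T 0 := by
    have hs : HasFDerivAt (𝕜 := ℂ) (fun ξ : Fin r → ℂ => s + ξ)
        (ContinuousLinearMap.id ℂ (Fin r → ℂ)) 0 := (hasFDerivAt_id 0).const_add s
    have hT0 : HasFDerivAt (𝕜 := ℂ) (A.c i ∘ Φ) T ((fun ξ : Fin r → ℂ => s + ξ) 0) := by
      simp only [add_zero]
      exact hT
    have := hT0.comp (0 : Fin r → ℂ) hs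
    rwa [ContinuousLinearMap.comp_id] at this
  have d2 : HasFDerivAt (𝕜 := ℂ) (A.c i ∘ fun ξ => Ψ (t + V ξ)) T 0 := by
    have hs : HasFDerivAt (𝕜 := ℂ) (fun ξ : Fin r → ℂ => t + V ξ)
        (LinearMap.toContinuousLinearMap (V : (Fin r → ℂ) →ₗ[ℂ] (Fin r' → ℂ))) 0 :=
      (LinearMap.toContinuousLinearMap
        (V : (Fin r → ℂ) →ₗ[ℂ] (Fin r' → ℂ))).hasFDerivAt.const_add t
    have hT0 : HasFDerivAt (𝕜 := ℂ) (A.c i ∘ Ψ) T' ((fun ξ : Fin r → ℂ => t + V ξ) 0) := by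
      simp only [map_zero, add_zero]
      exact hT'
    have h3 := hT0.comp (0 : Fin r → ℂ) hs
    have h4 : T'.comp (LinearMap.toContinuousLinearMap
        (V : (Fin r → ℂ) →ₗ[ℂ] (Fin r' → ℂ))) = T := by
      ext1 ζ
      exact hVT ζ
    rw [h4] at h3
    exact h3
  have hi0 : (fun ξ => Φ (s + ξ)) (0 : Fin r → ℂ) ∈ (A.c i).source := by
    simp only [add_zero]
    exact hi
  exact unq B L isOpen_univ convex_univ l1 l2 (Set.mem_univ 0) e0 hi0 d1 d2 ξ (Set.mem_univ ξ)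

end Pool.Agent.LFC
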