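import Pool.Agent.SKF.Res

/-!
LFC: the leaves of the null foliation of a semipositive parabolic line bundle on a compact holomorphic
symplectic manifold are complete: quotients of `ℂ^r`. Definitions.
-/

open scoped ContDiff ComplexConjugate Topology
open Complex

namespace Pool.Agent.LFC

open Pool.Agent.DTW Pool.Agent.SKF

variable {n r : ℕ}

/-- local data with vanishing cubic form -/
structure LocB (w : E n → ℝ) (U : Set (E n)) : Prop where
  loc : Loc w U
  bf : ∀ z ∈ U, ∀ b c d : E n, Bf w b c d z = 0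

/-- The third derivative `w_(v a l̄)` at `z`: linear in `v`, `a`, conjugate linear in `l`. -/
noncomputable def T3 (w : E n → ℝ) (z v a l : E n) : ℂ := d10 (Lf w a l) z v

/-- `b_ξ = ∑ conj (ξ i) • b i`, so that `XX w z (bx b ξ) = ∑ ξ i • XX w z (b i)` -/
noncomputable def bx (b : Fin r → E n) (ξ : Fin r → ℂ) : E n := ∑ i, conj (ξ i) • b i

/-- The velocity of the leaf system at the state `y = (z, b)` in the direction `ξ`. -/
noncomputable def vel (w : E n → ℝ) (y : E n × (Fin r → E n)) (ξ : Fin r → ℂ) :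
    E n × (Fin r → E n) :=
  (XX w y.1 (bx y.2 ξ), fun j => -∑ l, T3 w y.1 (XX w y.1 (bx y.2 ξ)) (y.2 j) (y.2 l) • y.2 l)

theorem bx_add (b : Fin r → E n) (ξ ζ : Fin r → ℂ) : bx b (ξ + ζ) = bx b ξ + bx b ζ := by
  unfold bx
  rw [← Finset.sum_add_distrib]
  refine Finset.sum_congr rfl fun i _ => ?_
  rw [Pi.add_apply, map_add, add_smul]

theorem bx_smul (b : Fin r → E n) (c : ℂ) (ξ : Fin r → ℂ) : bx b (c • ξ) = conj c • bx b ξ := by
  unfold bx
  rw [Finset.smul_sum]
  refine Finset.sum_congr rfl fun i _ => ?_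
  rw [Pi.smul_apply, smul_eq_mul, map_mul, mul_smul]

theorem XX_smul (w : E n → ℝ) (z : E n) (c : ℂ) (b : E n) :
    XX w z (c • b) = conj c • XX w z b := by
  funext k
  simp only [XX, Pi.smul_apply, smul_eq_mul, map_mul, Finset.mul_sum]
  exact Finset.sum_congr rfl fun j _ => by ring

theorem XX_bx_add (w : E n → ℝ) (z : E n) (b : Fin r → E n) (ξ ζ : Fin r → ℂ) :
    XX w z (bx b (ξ + ζ)) = XX w z (bx b ξ) + XX w z (bx b ζ) := by
  rw [bx_add, XX_add]

theorem XX_bx_smul (w : E n → ℝ) (z : E n) (b : Fin r → E n) (c : ℂ) (ξ : Fin r → ℂ) :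
    XX w z (bx b (c • ξ)) = c • XX w z (bx b ξ) := by
  rw [bx_smul, XX_smul, Complex.conj_conj]

theorem T3_add1 (w : E n → ℝ) (z v v' a l : E n) :
    T3 w z (v + v') a l = T3 w z v a l + T3 w z v' a l := d10_add_vec _ _ _ _

theorem T3_smul1 (w : E n → ℝ) (z : E n) (c : ℂ) (v a l : E n) :
    T3 w z (c • v) a l = c * T3 w z v a l := d10_smul_vec _ _ _ _

/-- `vel` as a real linear map of the direction -/
noncomputable def velL (w : E n → ℝ) (y : E n × (Fin r → E n)) :
    (Fin r → ℂ) →L[ℝ] (E n × (Fin r → E n)) :=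
  LinearMap.toContinuousLinearMap
    { toFun := vel w y
      map_add' := by
        intro ξ ζ
        unfold vel
        rw [XX_bx_add]
        refine Prod.ext rfl ?_
        funext j
        simp only [Prod.snd_add, Pi.add_apply, T3_add1, add_smul, Finset.sum_add_distrib, neg_add]
      map_smul' := by
        intro c ξ
        have h : (c • ξ : Fin r → ℂ) = (c : ℂ) • ξ := by
          funext i
          simp
        unfold vel
        rw [h, XX_bx_smul]
        refine Prod.ext ?_ ?_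
        · simp
        · funext j
          simp only [T3_smul1, RingHom.id_apply, Prod.smul_mk, Pi.smul_apply, mul_smul,
            ← Finset.smul_sum, smul_neg]
          simp }

theorem velL_apply (w : E n → ℝ) (y : E n × (Fin r → E n)) (ξ : Fin r → ℂ) :
    velL w y ξ = vel w y ξ := rfl

/-- The states `(z, b)` with `b` orthonormal for the Levi form at `z`, which has rank `r`. -/
structure InvP (w : E n → ℝ) (y : E n × (Fin r → E n)) : Prop where
  on : ∀ j k, levi w y.1 (y.2 j) (y.2 k) = if j = k then 1 else 0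
  rk : ∀ a c : E n, levi w y.1 a c = ∑ k, levi w y.1 a (y.2 k) * levi w y.1 (y.2 k) c

/-- `T` maps the standard hermitian space `ℂ^r` isometrically onto the space of the vectors
`X_b` with the metric `|X_b|² = F(b, b̄)`, `F` the Levi form at `z`. -/
def IsFrame (w : E n → ℝ) (z : E n) (T : (Fin r → ℂ) →L[ℂ] E n) : Prop :=
  (∀ ζ, ∃ b, T ζ = XX w z b ∧ levi w z b b = ((∑ k, Complex.normSq (ζ k) : ℝ) : ℂ)) ∧
    ∀ b, ∃ ζ, T ζ = XX w z b

variable {X : Type*} [TopologicalSpace X] {ι : Type*} {A : Atlas n X ι}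

/-- `Φ` is at `t` a holomorphic isometric parametrisation of a leaf. -/
def LeafAt (B : Bundle A) (Φ : (Fin r → ℂ) → X) (t : Fin r → ℂ) : Prop :=
  ContinuousAt Φ t ∧ ∀ i, Φ t ∈ (A.c i).source → ∃ T : (Fin r → ℂ) →L[ℂ] E n,
    HasFDerivAt (𝕜 := ℂ) (A.c i ∘ Φ) T t ∧ IsFrame (B.wt i) (A.c i (Φ t)) T

/-- a leaf map on the convex open set `Ω ∋ 0` with given value and derivative at `0` -/
structure Good (B : Bundle A) (i₀ : ι) (x₀ : X) (T₀ : (Fin r → ℂ) →L[ℂ] E n)
    (Ω : Set (Fin r → ℂ)) (Φ : (Fin r → ℂ) → X) : Prop where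
  op : IsOpen Ω
  cv : Convex ℝ Ω
  z0 : (0 : Fin r → ℂ) ∈ Ω
  lf : ∀ t ∈ Ω, LeafAt B Φ t
  v0 : Φ 0 = x₀
  d0 : HasFDerivAt (𝕜 := ℂ) (A.c i₀ ∘ Φ) T₀ 0

/-- the domain of the maximal leaf map -/
def Dom (B : Bundle A) (i₀ : ι) (x₀ : X) (T₀ : (Fin r → ℂ) →L[ℂ] E n) : Set (Fin r → ℂ) :=
  {t | ∃ (Ω : Set (Fin r → ℂ)) (Φ : (Fin r → ℂ) → X), Good B i₀ x₀ T₀ Ω Φ ∧ t ∈ Ω}

end Pool.Agent.LFC
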