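import Pool.Agent.LFC.Trl
import Pool.Agent.SKF.Csd
import Pool.Agent.SKF.Bnd

/-!
Est (size 3): the Christoffel symbols of the leaves are bounded.
PROOF. `T3 (X_b) m d = T3 (X_d) m b` (`T3_symm`) `= T3 m (X_d) b` (`T3_swap`) `= d10 (Lf w v b) z m` with the constant
vector `v = XX w z d`, which is in the kernel at `z` (`levi_XX_left`). SKF/Csd.lean proves (private `csd_real'`, copy its
proof, or make private copies of `csd_taylor`, `csd_real`, `csd_real'`):
`‖fderiv ℝ (fun y => levi w y v b) z u‖ ≤ √K ‖v‖ ‖u‖ √F(b,b̄)` for real directions `u`, with `K` from `bnd_K`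
(SKF/Bnd.lean) on the compact `Q`. Now `d10 f z m = (fderiv f z m - I fderiv f z (I m)) / 2`, so
`‖T3 (X_b) m d‖ ≤ √K ‖X_d‖ ‖m‖ √F(b,b̄)`. Put `C = √K`.
-/

open scoped ContDiff ComplexConjugate Topology
open Complex

namespace Pool.Agent.LFC

open Pool.Agent.DTW Pool.Agent.SKF

variable {n r : ℕ} {U : Set (E n)} {w : E n → ℝ}

variable {z : E n}

/-- Taylor estimate of order two -/
private theorem est_taylor (f f1 : ℝ → ℝ) (f2 M : ℝ) (hf : ∀ᶠ t in 𝓝 (0 : ℝ), HasDerivAt f (f1 t) t)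
    (h0 : f 0 = 0) (h1 : f1 0 = 0) (h2 : HasDerivAt f1 f2 0) (hM : |f2| ≤ M) {η : ℝ}
    (hη : 0 < η) : ∀ᶠ t in 𝓝 (0 : ℝ), |f t| ≤ (M + η) * t ^ 2 := by
  have hlo := h2.isLittleO
  have h3 : ∀ᶠ t in 𝓝 (0 : ℝ), |f1 t| ≤ (M + η) * |t| := by
    have h4 := hlo.bound hη
    filter_upwards [h4] with t ht
    rw [h1, sub_zero, sub_zero, smul_eq_mul, Real.norm_eq_abs, Real.norm_eq_abs] at ht
    have h5 : |f1 t| ≤ |f1 t - t * f2| + |t * f2| := by
      have := abs_add_le (f1 t - t * f2) (t * f2)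
      simpa using this
    have h6 : |t * f2| ≤ |t| * M := by
      rw [abs_mul]
      exact mul_le_mul_of_nonneg_left hM (abs_nonneg t)
    nlinarith
  obtain ⟨δ, hδ, hball⟩ := Metric.eventually_nhds_iff_ball.1 (hf.and h3)
  rw [Metric.eventually_nhds_iff_ball]
  refine ⟨δ, hδ, fun t ht => ?_⟩
  have htδ : |t| < δ := by simpa [Real.norm_eq_abs] using ht
  have hsub : ∀ s ∈ Metric.closedBall (0 : ℝ) |t|, s ∈ Metric.ball (0 : ℝ) δ := by
    intro s hs
    rw [Metric.mem_closedBall] at hs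
    rw [Metric.mem_ball]
    exact lt_of_le_of_lt hs htδ
  have hmv := (convex_closedBall (0 : ℝ) |t|).norm_image_sub_le_of_norm_hasDerivWithin_le
    (f := f) (f' := f1) (C := (M + η) * |t|) (x := 0) (y := t)
    (fun s hs => (hball s (hsub s hs)).1.hasDerivWithinAt)
    (fun s hs => by
      have h7 := (hball s (hsub s hs)).2
      rw [Metric.mem_closedBall, Real.dist_eq, sub_zero] at hs
      rw [Real.norm_eq_abs]
      have hMη : 0 ≤ M + η := by
        have := abs_nonneg f2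
        linarith
      exact h7.trans (mul_le_mul_of_nonneg_left hs hMη))
    (by simp) (by simp [Real.norm_eq_abs])
  rw [h0, sub_zero, sub_zero, Real.norm_eq_abs, Real.norm_eq_abs] at hmv
  have h8 : (M + η) * |t| * |t| = (M + η) * t ^ 2 := by
    rw [mul_assoc, ← pow_two, sq_abs]
  rw [h8] at hmv
  exact hmv

private theorem est_smooth (L : Loc w U) (a b : E n) :
    ContDiffOn ℝ ∞ (fun y => levi w y a b) U :=
  contDiffOn_d10 L.op (contDiffOn_d01 L.op (contDiffOn_cx L.sm) b) a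

private theorem est_line (z u : E n) (t : ℝ) :
    HasDerivAt (fun s : ℝ => z + s • u) u t := by
  have h := ((hasDerivAt_id t).smul_const u).const_add z
  simpa using h

private theorem est_real (L : Loc w U) (hz : z ∈ U) (K : ℝ)
    (h2 : ∀ u a : E n, |fderiv ℝ (fun y => fderiv ℝ (fun x => (levi w x a a).re) y u) z u|
      ≤ K * ‖u‖ ^ 2 * ‖a‖ ^ 2)
    (v : E n) (hv : ∀ c, levi w z v c = 0) (d u : E n) :
    ‖fderiv ℝ (fun y => levi w y v d) z u‖ ^ 2 ≤ K * ‖u‖ ^ 2 * ‖v‖ ^ 2 * (levi w z d d).re := by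
  set G : E n → ℂ := fun y => levi w y v d with hG
  set H : E n → ℝ := fun y => (levi w y v v).re with hH
  set Hd : E n → ℝ := fun y => (levi w y d d).re with hHd
  have sG : ContDiffOn ℝ ∞ G U := est_smooth L v d
  have sH : ContDiffOn ℝ ∞ H U := Complex.reCLM.contDiff.comp_contDiffOn (est_smooth L v v)
  have sHd : ContDiffOn ℝ ∞ Hd U := Complex.reCLM.contDiff.comp_contDiffOn (est_smooth L d d)
  have hU := L.op.mem_nhds hz
  have c0 : (fun s : ℝ => z + s • u) 0 = z := by simp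
  have hcU : ∀ᶠ t in 𝓝 (0 : ℝ), z + t • u ∈ U := by
    have hc : ContinuousAt (fun s : ℝ => z + s • u) 0 := (est_line z u 0).continuousAt
    apply hc.eventually
    rw [c0]
    exact L.op.eventually_mem hz
  -- derivative of `G`
  have dG : HasDerivAt (fun t : ℝ => G (z + t • u)) (fderiv ℝ G z u) 0 := by
    have h1 : HasFDerivAt G (fderiv ℝ G z) ((fun s : ℝ => z + s • u) 0) := by
      rw [c0]
      exact ((sG.contDiffAt hU).differentiableAt (by simp)).hasFDerivAt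
    exact h1.comp_hasDerivAt (0 : ℝ) (est_line z u 0)
  have lG := dG.tendsto_slope_zero
  have G0 : G z = 0 := hv d
  have lG2 : Filter.Tendsto (fun t : ℝ => ‖t⁻¹ • G (z + t • u)‖ ^ 2) (𝓝[≠] 0)
      (𝓝 (‖fderiv ℝ G z u‖ ^ 2)) := by
    have h3 : (fun t : ℝ => t⁻¹ • (G (z + (0 + t) • u) - G (z + (0 : ℝ) • u))) =
        fun t : ℝ => t⁻¹ • G (z + t • u) := by
      funext t
      rw [zero_add, zero_smul, add_zero, G0, sub_zero]
    rw [h3] at lG
    exact (lG.norm).pow 2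
  -- the function `H`
  have dH : ∀ᶠ t in 𝓝 (0 : ℝ),
      HasDerivAt (fun t : ℝ => H (z + t • u)) (fderiv ℝ H (z + t • u) u) t := by
    filter_upwards [hcU] with t ht
    have h1 : HasFDerivAt H (fderiv ℝ H (z + t • u)) (z + t • u) :=
      ((sH.contDiffAt (L.op.mem_nhds ht)).differentiableAt (by simp)).hasFDerivAt
    exact h1.comp_hasDerivAt t (est_line z u t)
  have H0 : H z = 0 := by simp [hH, hv v]
  have hmin : IsLocalMin H z := by
    filter_upwards [hU] with y hy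
    rw [H0]
    exact (levi_self L hy v).2
  have H1 : fderiv ℝ H z u = 0 := by rw [hmin.fderiv_eq_zero]; simp
  have sH1 : ContDiffOn ℝ ∞ (fun y => fderiv ℝ H y u) U := by
    have h : ContDiffOn ℝ ∞ (fderiv ℝ H) U := sH.fderiv_of_isOpen L.op (by simp)
    exact h.clm_apply contDiffOn_const
  have dH1 : HasDerivAt (fun t : ℝ => fderiv ℝ H (z + t • u) u)
      (fderiv ℝ (fun y => fderiv ℝ H y u) z u) 0 := by
    have h1 : HasFDerivAt (fun y => fderiv ℝ H y u) (fderiv ℝ (fun y => fderiv ℝ H y u) z)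
        ((fun s : ℝ => z + s • u) 0) := by
      rw [c0]
      exact ((sH1.contDiffAt hU).differentiableAt (by simp)).hasFDerivAt
    exact h1.comp_hasDerivAt (0 : ℝ) (est_line z u 0)
  have lHd : Filter.Tendsto (fun t : ℝ => Hd (z + t • u)) (𝓝[≠] 0) (𝓝 (Hd z)) := by
    have h1 : ContinuousAt Hd ((fun s : ℝ => z + s • u) 0) := by
      rw [c0]
      exact (sHd.contDiffAt hU).continuousAt
    have h3 := (ContinuousAt.comp (g := Hd) (f := fun s : ℝ => z + s • u) h1
      (est_line z u 0).continuousAt).tendsto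
    have h4 : (Hd ∘ fun s : ℝ => z + s • u) 0 = Hd z := by simp
    rw [h4] at h3
    exact h3.mono_left nhdsWithin_le_nhds
  have Hd0 : 0 ≤ Hd z := (levi_self L hz d).2
  -- the estimate
  set M : ℝ := K * ‖u‖ ^ 2 * ‖v‖ ^ 2 with hM
  have key : ∀ η : ℝ, 0 < η → ‖fderiv ℝ G z u‖ ^ 2 ≤ (M + η) * Hd z := by
    intro η hη
    have ht := est_taylor (fun t : ℝ => H (z + t • u)) (fun t : ℝ => fderiv ℝ H (z + t • u) u)
      _ M dH (by simp [H0]) (by simpa using H1) dH1 (h2 u v) hη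
    refine le_of_tendsto_of_tendsto lG2 (lHd.const_mul (M + η)) ?_
    filter_upwards [ht.filter_mono nhdsWithin_le_nhds, hcU.filter_mono nhdsWithin_le_nhds,
      self_mem_nhdsWithin] with t h3 h4 h5
    have h5' : t ≠ 0 := h5
    have h6 := levi_cs L h4 v d
    rw [Complex.normSq_eq_norm_sq] at h6
    have h7 : H (z + t • u) ≤ (M + η) * t ^ 2 := (le_abs_self _).trans h3
    have h8 : 0 ≤ Hd (z + t • u) := (levi_self L h4 d).2
    have h9 : ‖G (z + t • u)‖ ^ 2 ≤ (M + η) * t ^ 2 * Hd (z + t • u) :=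
      h6.trans (mul_le_mul_of_nonneg_right h7 h8)
    rw [norm_smul, mul_pow, norm_inv, Real.norm_eq_abs, inv_pow, sq_abs]
    have h10 : 0 < t ^ 2 := by positivity
    rw [inv_mul_le_iff₀ h10]
    linarith
  refine le_of_forall_pos_le_add fun ε hε => ?_
  have h11 := key (ε / (Hd z + 1)) (by positivity)
  have h12 : ε / (Hd z + 1) * Hd z ≤ ε := by
    rw [div_mul_eq_mul_div, div_le_iff₀ (by positivity)]
    nlinarith
  calc ‖fderiv ℝ G z u‖ ^ 2 ≤ (M + ε / (Hd z + 1)) * Hd z := h11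
    _ = M * Hd z + ε / (Hd z + 1) * Hd z := by ring
    _ ≤ M * Hd z + ε := by linarith

private theorem est_real' (L : Loc w U) (hz : z ∈ U) (K : ℝ) (hK : 0 ≤ K)
    (h2 : ∀ u a : E n, |fderiv ℝ (fun y => fderiv ℝ (fun x => (levi w x a a).re) y u) z u|
      ≤ K * ‖u‖ ^ 2 * ‖a‖ ^ 2)
    (v : E n) (hv : ∀ c, levi w z v c = 0) (d u : E n) :
    ‖fderiv ℝ (fun y => levi w y v d) z u‖ ≤ √K * ‖v‖ * ‖u‖ * √(levi w z d d).re := by
  have h1 := est_real L hz K h2 v hv d u
  have h0 : 0 ≤ (levi w z d d).re := (levi_self L hz d).2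
  have h3 := Real.le_sqrt_of_sq_le h1
  refine h3.trans (le_of_eq ?_)
  rw [Real.sqrt_mul (by positivity), Real.sqrt_mul (by positivity), Real.sqrt_mul hK,
    Real.sqrt_sq (norm_nonneg _), Real.sqrt_sq (norm_nonneg _)]
  ring

theorem est (L : Loc w U) {Q : Set (E n)} (hQ : IsCompact Q) (hQU : Q ⊆ U) :
    ∃ C : ℝ, 0 ≤ C ∧ ∀ z ∈ Q, ∀ b m d : E n,
      ‖T3 w z (XX w z b) m d‖ ≤ C * ‖m‖ * ‖XX w z d‖ * √(levi w z b b).re := by
  obtain ⟨K, hK, hK2⟩ := bnd_K L hQ hQU
  refine ⟨√K, Real.sqrt_nonneg K, fun z hz b m d => ?_⟩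
  have hzU := hQU hz
  have hv : ∀ c, levi w z (XX w z d) c = 0 := fun c => levi_XX_left L hzU d c
  have h1 := est_real' L hzU K hK (hK2 z hz) (XX w z d) hv b m
  have h3 := est_real' L hzU K hK (hK2 z hz) (XX w z d) hv b (I • m)
  have h4 : ‖I • m‖ = ‖m‖ := by rw [norm_smul, Complex.norm_I, one_mul]
  rw [h4] at h3
  rw [T3_symm L hzU, T3_swap L hzU]
  unfold T3 d10 Lf
  rw [norm_div]
  have h5 : ‖(2 : ℂ)‖ = 2 := by simp
  rw [h5, div_le_iff₀ (by norm_num)]
  refine (norm_sub_le _ _).trans ?_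
  rw [norm_mul, Complex.norm_I, one_mul]
  linarith

end Pool.Agent.LFC
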