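import Pool.Agent.LFC.Trl

/-!
Exp (size 2): expansions at a state `y = (z, b)` with `InvP w y`.
`ker_part`: `levi (m - ∑ k, levi m (b k) • b k) c = levi m c - ∑ k, levi m (b k) * levi (b k) c = 0` (`rk`).
`T3_exp`: `m = d + ∑ k, levi m (b k) • b k` with `d` in the kernel: `T3_add3`, `T3_sum3`, `T3_ker`.
`XX_exp`: `XX w z d = 0` (`XX_ker`), `XX_add`, `XX_smul`, `XX` of a sum.
`bx_levi`: `levi (bx b ξ) (bx b ζ) = ∑ j, conj (ξ j) * ζ j` (`levi_sum1`, `levi_sum2`, `on`).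
-/

open scoped ContDiff ComplexConjugate Topology
open Complex

namespace Pool.Agent.LFC

open Pool.Agent.DTW Pool.Agent.SKF

variable {n r : ℕ} {U : Set (E n)} {w : E n → ℝ} {y : E n × (Fin r → E n)}

theorem ker_part (L : Loc w U) (hz : y.1 ∈ U) (hI : InvP w y) (m c : E n) :
    levi w y.1 (m - ∑ k, levi w y.1 m (y.2 k) • y.2 k) c = 0 := by
  have h1 : levi w y.1 (m - ∑ k, levi w y.1 m (y.2 k) • y.2 k) c
      = levi w y.1 m c - ∑ k, levi w y.1 m (y.2 k) * levi w y.1 (y.2 k) c := by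
    rw [sub_eq_add_neg, ← neg_one_smul ℂ (∑ k, levi w y.1 m (y.2 k) • y.2 k),
      levi_add_left L hz, levi_smul_left L hz, levi_sum1]
    ring
  rw [h1, ← hI.rk m c, sub_self]

theorem T3_exp (L : Loc w U) (hz : y.1 ∈ U) (hI : InvP w y) (c a m : E n) :
    T3 w y.1 (XX w y.1 c) a m
      = ∑ k, conj (levi w y.1 m (y.2 k)) * T3 w y.1 (XX w y.1 c) a (y.2 k) := by
  have hk : ∀ c, levi w y.1 (m - ∑ k, levi w y.1 m (y.2 k) • y.2 k) c = 0 :=
    fun c => ker_part L hz hI m c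
  have hm : (m - ∑ k, levi w y.1 m (y.2 k) • y.2 k) + ∑ k, levi w y.1 m (y.2 k) • y.2 k = m :=
    sub_add_cancel _ _
  calc T3 w y.1 (XX w y.1 c) a m
      = T3 w y.1 (XX w y.1 c) a
        ((m - ∑ k, levi w y.1 m (y.2 k) • y.2 k) + ∑ k, levi w y.1 m (y.2 k) • y.2 k) := by
        rw [hm]
    _ = ∑ k, conj (levi w y.1 m (y.2 k)) * T3 w y.1 (XX w y.1 c) a (y.2 k) := by
        rw [T3_add3 L hz, T3_ker L hz hk, zero_add, T3_sum3 L hz]

theorem XX_exp (L : Loc w U) (hz : y.1 ∈ U) (hI : InvP w y) (c : E n) :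
    XX w y.1 c = ∑ k, conj (levi w y.1 c (y.2 k)) • XX w y.1 (y.2 k) := by
  have hk : ∀ d, levi w y.1 (c - ∑ k, levi w y.1 c (y.2 k) • y.2 k) d = 0 :=
    fun d => ker_part L hz hI c d
  have hb : bx y.2 (fun k => conj (levi w y.1 c (y.2 k))) = ∑ k, levi w y.1 c (y.2 k) • y.2 k := by
    unfold bx
    exact Finset.sum_congr rfl fun k _ => by rw [Complex.conj_conj]
  have hm : (c - ∑ k, levi w y.1 c (y.2 k) • y.2 k) + ∑ k, levi w y.1 c (y.2 k) • y.2 k = c :=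
    sub_add_cancel _ _
  calc XX w y.1 c
      = XX w y.1
        ((c - ∑ k, levi w y.1 c (y.2 k) • y.2 k) + ∑ k, levi w y.1 c (y.2 k) • y.2 k) := by
        rw [hm]
    _ = ∑ k, conj (levi w y.1 c (y.2 k)) • XX w y.1 (y.2 k) := by
        rw [XX_add, XX_ker L hz hk, zero_add, ← hb, XX_bx]

theorem bx_levi (L : Loc w U) (hz : y.1 ∈ U) (hI : InvP w y) (ξ ζ : Fin r → ℂ) :
    levi w y.1 (bx y.2 ξ) (bx y.2 ζ) = ∑ j, conj (ξ j) * ζ j := by
  unfold bx
  rw [levi_sum1]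
  refine Finset.sum_congr rfl fun i _ => ?_
  rw [levi_sum2 L hz]
  simp only [hI.on, Complex.conj_conj]
  rw [Finset.sum_eq_single i]
  · simp
  · intro j _ hj
    rw [if_neg (Ne.symm hj), mul_zero]
  · intro h
    exact absurd (Finset.mem_univ _) h

end Pool.Agent.LFC
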