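import Pool.Agent.LFC.Trl

/-!
Lin (size 3): small representatives. If `κ F(b,b̄) ≤ |X_b|²` for all `b`, every `X_b` is `X_b'` with `κ |b'|² ≤ F(b,b̄)`.
PROOF. `F k l = LM w z k l` is hermitian psd. Spectral theorem (`Matrix.IsHermitian.spectral_theorem`, `eigenvectorBasis`; or the private
`spc_basis` in SKF/Spc.lean): vectors `f i` orthonormal for `∑ k, a k * conj (b k)`, with `∑ k, F k l * (f i) k = λ i * (f i) l`-type
equation, i.e. `levi w z (f i) b = λ i * ∑ k, (f i) k * conj (b k)`, `λ i ≥ 0`. `XX w z b k = sg k * levi w z (e k.swap) b`, so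
`∑ k, |XX w z b k|² = ∑ k, |levi w z (e k) b|² = ∑ i, λ i² |β i|²` and `levi b b = ∑ i, λ i |β i|²` for `b = ∑ β i • f i`. The sup norm satisfies
`‖XX w z b‖² ≤ ∑ k, |XX w z b k|²`. With `b = f i`: `κ λ i ≤ λ i²`, so `λ i = 0` or `κ ≤ λ i`. For `b = ∑ β i • f i` put
`b' = ∑ (i with λ i ≠ 0), β i • f i`: `levi m b' = levi m b` for all `m` (`XX_eq_iff`), `‖b'‖² ≤ ∑ k, |b' k|² = ∑ (λ i ≠ 0) |β i|² ≤ (1/κ) ∑ λ i |β i|²`.
-/

open scoped ContDiff ComplexConjugate Topology
open Complex

namespace Pool.Agent.LFC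

open Pool.Agent.DTW Pool.Agent.SKF

variable {n : ℕ} {U : Set (E n)} {w : E n → ℝ} {z : E n}

open scoped ComplexOrder in
/-- spectral theorem -/
private theorem Lin_basis {F : Ix n → Ix n → ℂ} (hF : Psd F) :
    ∃ (lam : Ix n → ℝ) (f : Ix n → E n), (∀ i, 0 ≤ lam i) ∧
      (∀ i j, ∑ k, f i k * conj (f j k) = if i = j then 1 else 0) ∧
      (∀ i k, ∑ l, conj (f i l) * F k l = lam i * conj (f i k)) ∧
      ∀ b : E n, ∃ β : Ix n → ℂ, b = ∑ i, β i • f i := by
  classical
  have hP := hF.matrix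
  have hH := hP.isHermitian
  set A : Matrix (Ix n) (Ix n) ℂ := Matrix.of F with hA
  have hlam : ∀ i, 0 ≤ hH.eigenvalues i := fun i => hP.eigenvalues_nonneg i
  let v : Ix n → Ix n → ℂ := fun i k => hH.eigenvectorBasis i k
  have hev : ∀ i k, ∑ l, F k l * v i l = hH.eigenvalues i * v i k := by
    intro i k
    have h := congrFun (hH.mulVec_eigenvectorBasis i) k
    simpa [Matrix.mulVec, dotProduct, hA, v] using h
  have horth : ∀ i j, ∑ k, conj (v i k) * v j k = if i = j then 1 else 0 := by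
    intro i j
    have h := (orthonormal_iff_ite.1 hH.eigenvectorBasis.orthonormal) i j
    rw [← h, PiLp.inner_apply]
    refine Finset.sum_congr rfl fun k _ => ?_
    simp [v, RCLike.inner_apply, mul_comm]
  refine ⟨hH.eigenvalues, fun i k => conj (v i k), hlam, ?_, ?_, ?_⟩
  · intro i j
    rw [← horth i j]
    refine Finset.sum_congr rfl fun k _ => ?_
    rw [Complex.conj_conj]
  · intro i k
    simp only [Complex.conj_conj]
    rw [← hev]
    exact Finset.sum_congr rfl fun l _ => mul_comm _ _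
  · intro b
    let w : EuclideanSpace ℂ (Ix n) := WithLp.toLp 2 fun k => conj (b k)
    refine ⟨fun i => conj (hH.eigenvectorBasis.repr w i), ?_⟩
    have h := hH.eigenvectorBasis.sum_repr w
    funext k
    have h2 : (∑ i, hH.eigenvectorBasis.repr w i • hH.eigenvectorBasis i) k = w k := by rw [h]
    have h3 : ∑ i, hH.eigenvectorBasis.repr w i * v i k = conj (b k) := by
      have hw : w k = conj (b k) := rfl
      rw [← hw, ← h2]
      simp [v]
    have h4 := congrArg conj h3
    rw [Complex.conj_conj] at h4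
    rw [← h4, map_sum, Finset.sum_apply]
    refine Finset.sum_congr rfl fun i _ => ?_
    simp

/-- Parseval -/
private theorem Lin_pars {f : Ix n → E n}
    (hf : ∀ i j, ∑ k, f i k * conj (f j k) = if i = j then 1 else 0) (β : Ix n → ℂ) :
    ∑ k, ‖(∑ i, β i • f i) k‖ ^ 2 = ∑ i, ‖β i‖ ^ 2 := by
  classical
  have h1 : (((∑ k, ‖(∑ i, β i • f i) k‖ ^ 2 : ℝ)) : ℂ) = ((∑ i, ‖β i‖ ^ 2 : ℝ) : ℂ) := by
    push_cast
    have h2 : ∀ k, ((‖(∑ i, β i • f i) k‖ : ℂ)) ^ 2 =
        ∑ i, ∑ j, β i * conj (β j) * (f i k * conj (f j k)) := by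
      intro k
      rw [← Complex.mul_conj', Finset.sum_apply, map_sum, Finset.sum_mul_sum]
      refine Finset.sum_congr rfl fun i _ => Finset.sum_congr rfl fun j _ => ?_
      simp only [Pi.smul_apply, smul_eq_mul, map_mul]
      ring
    simp only [h2]
    rw [Finset.sum_comm]
    refine Finset.sum_congr rfl fun i _ => ?_
    rw [Finset.sum_comm]
    simp only [← Finset.mul_sum, hf]
    rw [Finset.sum_eq_single i]
    · rw [if_pos rfl, mul_one, Complex.mul_conj']
    · intro j _ hj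
      rw [if_neg (Ne.symm hj), mul_zero]
    · intro h
      exact absurd (Finset.mem_univ i) h
  exact_mod_cast h1

private theorem Lin_norm (b : E n) : ‖b‖ ^ 2 ≤ ∑ k, ‖b k‖ ^ 2 := by
  have hS : 0 ≤ ∑ k, ‖b k‖ ^ 2 := Finset.sum_nonneg fun _ _ => by positivity
  have h1 : ‖b‖ ≤ √(∑ k, ‖b k‖ ^ 2) := by
    refine (pi_norm_le_iff_of_nonneg (Real.sqrt_nonneg _)).2 fun k => ?_
    refine Real.le_sqrt_of_sq_le ?_
    exact Finset.single_le_sum (f := fun k => ‖b k‖ ^ 2) (fun _ _ => by positivity)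
      (Finset.mem_univ k)
  calc ‖b‖ ^ 2 ≤ √(∑ k, ‖b k‖ ^ 2) ^ 2 := by gcongr
    _ = ∑ k, ‖b k‖ ^ 2 := Real.sq_sqrt hS

theorem lin (L : Loc w U) (hz : z ∈ U) {κ : ℝ} (hκ : 0 < κ)
    (h : ∀ b : E n, κ * (levi w z b b).re ≤ ‖XX w z b‖ ^ 2) (b : E n) :
    ∃ b' : E n, XX w z b' = XX w z b ∧ κ * ‖b'‖ ^ 2 ≤ (levi w z b b).re := by
  classical
  have hw : ContDiffAt ℝ ∞ w z := L.sm.contDiffAt (L.op.mem_nhds hz)
  obtain ⟨lam, f, hlam, hf, hev, hex⟩ := Lin_basis (L.psd z hz)
  have hlev : ∀ (m : E n) (i : Ix n), levi w z m (f i) = lam i * ∑ k, m k * conj (f i k) := by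
    intro m i
    rw [levi_eq_sum hw, Finset.mul_sum]
    refine Finset.sum_congr rfl fun k _ => ?_
    have h1 : ∑ l, m k * conj (f i l) * LM w z k l = m k * ∑ l, conj (f i l) * LM w z k l := by
      rw [Finset.mul_sum]
      exact Finset.sum_congr rfl fun l _ => by ring
    rw [h1, hev]
    ring
  have hff : ∀ i j, levi w z (f i) (f j) = if i = j then (lam i : ℂ) else 0 := by
    intro i j
    rw [hlev, hf]
    by_cases hij : i = j
    · subst hij
      simp
    · simp [hij]
  have hfn : ∀ i k, ‖f i k‖ ≤ 1 := by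
    intro i k
    have h1 : ((∑ k, ‖f i k‖ ^ 2 : ℝ) : ℂ) = 1 := by
      have h2 := hf i i
      rw [if_pos rfl] at h2
      rw [← h2]
      push_cast
      refine Finset.sum_congr rfl fun k _ => ?_
      rw [Complex.mul_conj']
    have h3 : ∑ k, ‖f i k‖ ^ 2 = 1 := by exact_mod_cast h1
    have h4 : ‖f i k‖ ^ 2 ≤ 1 := by
      rw [← h3]
      exact Finset.single_le_sum (f := fun k => ‖f i k‖ ^ 2) (fun _ _ => by positivity)
        (Finset.mem_univ k)
    nlinarith [norm_nonneg (f i k)]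
  have hXn : ∀ i, ‖XX w z (f i)‖ ≤ lam i := by
    intro i
    refine (pi_norm_le_iff_of_nonneg (hlam i)).2 fun k => ?_
    have h1 : ∑ l, (e k.swap : E n) l * conj (f i l) = conj (f i k.swap) := by
      rw [Finset.sum_eq_single k.swap]
      · simp [e]
      · intro j _ hj
        simp [e, Pi.single_eq_of_ne hj]
      · intro h
        exact absurd (Finset.mem_univ _) h
    have h2 : ‖sg k‖ = 1 := by cases k <;> simp [sg]
    rw [XX_apply hw, norm_mul, h2, one_mul, hlev, h1, norm_mul, Complex.norm_real,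
      Real.norm_of_nonneg (hlam i), RCLike.norm_conj]
    exact mul_le_of_le_one_right (hlam i) (hfn i _)
  have hdich : ∀ i, lam i = 0 ∨ κ ≤ lam i := by
    intro i
    rcases eq_or_lt_of_le (hlam i) with h0 | h0
    · exact Or.inl h0.symm
    · right
      have h1 := h (f i)
      rw [hff, if_pos rfl, Complex.ofReal_re] at h1
      have h2 : ‖XX w z (f i)‖ ^ 2 ≤ lam i ^ 2 := by
        have := hXn i
        gcongr
      have h3 : κ * lam i ≤ lam i * lam i := by nlinarith
      exact le_of_mul_le_mul_right h3 h0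
  obtain ⟨β, hβ⟩ := hex b
  have hbb : (levi w z b b).re = ∑ i, lam i * ‖β i‖ ^ 2 := by
    have h1 : levi w z b b = ∑ i, ((lam i * ‖β i‖ ^ 2 : ℝ) : ℂ) := by
      conv_lhs => rw [hβ]
      rw [levi_sum2 L hz]
      refine Finset.sum_congr rfl fun i _ => ?_
      rw [levi_sum1]
      simp only [hff]
      rw [Finset.sum_eq_single i]
      · rw [if_pos rfl]
        push_cast
        rw [← Complex.mul_conj']
        ring
      · intro j _ hj
        rw [if_neg hj, mul_zero]
      · intro h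
        exact absurd (Finset.mem_univ i) h
    rw [h1, ← Complex.ofReal_sum, Complex.ofReal_re]
  refine ⟨∑ i, (if lam i = 0 then 0 else β i) • f i, ?_, ?_⟩
  · rw [XX_eq_iff L hz]
    intro m
    conv_rhs => rw [hβ]
    rw [levi_sum2 L hz, levi_sum2 L hz]
    refine Finset.sum_congr rfl fun i _ => ?_
    by_cases h0 : lam i = 0
    · rw [hlev, h0]
      simp
    · rw [if_neg h0]
  · rw [hbb]
    have h1 := Lin_norm (∑ i, (if lam i = 0 then 0 else β i) • f i)
    rw [Lin_pars hf] at h1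
    calc κ * ‖∑ i, (if lam i = 0 then 0 else β i) • f i‖ ^ 2
        ≤ κ * ∑ i, ‖if lam i = 0 then 0 else β i‖ ^ 2 := by gcongr
      _ = ∑ i, κ * ‖if lam i = 0 then 0 else β i‖ ^ 2 := Finset.mul_sum _ _ _
      _ ≤ ∑ i, lam i * ‖β i‖ ^ 2 := by
          refine Finset.sum_le_sum fun i _ => ?_
          by_cases h0 : lam i = 0
          · simp [h0]
          · rw [if_neg h0]
            have h2 := (hdich i).resolve_left h0
            gcongr

end Pool.Agent.LFC
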