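import Pool.Agent.LFC.Low
import Pool.Agent.LFC.Lin
import Pool.Agent.LFC.Smo

/-!
Lim (size 4): a leaf path that stays in a compact subset of a chart has a limit state.
PROOF. `c` from `low`, `κ = c² / (r + 1)`. For `s ∈ Ico s₁ s₂` and any `b` there is `ζ` with `T s ζ = XX w (z s) b` (`IsFrame.2`), and `(levi b b).re = ∑ k |ζ k|²
≤ r ‖ζ‖²` (`frame_levi`), `c² ‖ζ‖² ≤ ‖XX w (z s) b‖²`; so `κ (levi b b).re ≤ ‖XX b‖²`. For each `k` let `b k` be given by `lin` with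
`XX w (z s) (b k) = T s (Pi.single k 1)`, `κ ‖b k‖² ≤ (levi ..).re = 1` (`frame_levi`). `(z s, b)` satisfies `InvP` (`inv_of_frame`) and lies in the compact set
`Q ×ˢ closedBall 0 (1/√κ)`. Take `s_j → s₂`, `s_j ∈ Ioo s₁ s₂`, and a convergent subsequence with limit `y`; `y.1 ∈ Q`. `InvP` passes to the limit: `levi` is
continuous on `U × E n × E n` (`smo_levi`). The last statement: `s_j > s'` and `dist < ρ` for large `j`.
-/

open scoped ContDiff ComplexConjugate Topology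
open Complex

namespace Pool.Agent.LFC

open Pool.Agent.DTW Pool.Agent.SKF

variable {n r : ℕ} {U : Set (E n)} {w : E n → ℝ}

private theorem Lim_frame_sum (T : (Fin r → ℂ) →L[ℂ] E n) (ζ : Fin r → ℂ) :
    T ζ = ∑ k, ζ k • T (Pi.single k 1) := by
  classical
  have h1 : ζ = ∑ k, ζ k • (Pi.single k (1 : ℂ) : Fin r → ℂ) := by
    funext j
    rw [Finset.sum_apply, Finset.sum_eq_single j]
    · simp
    · intro k _ hk
      simp [hk.symm]
    · intro h
      exact absurd (Finset.mem_univ _) h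
  conv_lhs => rw [h1]
  rw [map_sum]
  refine Finset.sum_congr rfl fun k _ => ?_
  rw [map_smul]

/-- bounded orthonormal states of a frame that is bounded from below -/
private theorem Lim_state (L : Loc w U) {z : E n} (hz : z ∈ U) {T : (Fin r → ℂ) →L[ℂ] E n}
    (hT : IsFrame w z T) {c : ℝ} (hc : 0 < c) (hlow : ∀ ζ, c * ‖ζ‖ ≤ ‖T ζ‖) :
    ∃ b : Fin r → E n, (∀ k, ‖b k‖ ≤ √((c ^ 2 / (r + 1))⁻¹)) ∧ InvP w (z, b) ∧
      ∀ ζ, T ζ = XX w z (bx b ζ) := by
  classical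
  set κ : ℝ := c ^ 2 / (r + 1) with hκd
  have hr : (0 : ℝ) < r + 1 := by positivity
  have hκ : 0 < κ := by positivity
  have hmain : ∀ b : E n, κ * (levi w z b b).re ≤ ‖XX w z b‖ ^ 2 := by
    intro b
    obtain ⟨ζ, hζ⟩ := hT.2 b
    rw [frame_levi L hz hT hζ, Complex.ofReal_re]
    have h1 : ∑ k, Complex.normSq (ζ k) ≤ (r + 1) * ‖ζ‖ ^ 2 := by
      have h2 : ∀ k ∈ (Finset.univ : Finset (Fin r)), Complex.normSq (ζ k) ≤ ‖ζ‖ ^ 2 := by
        intro k _
        rw [Complex.normSq_eq_norm_sq]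
        exact pow_le_pow_left₀ (norm_nonneg _) (norm_le_pi_norm ζ k) 2
      refine (Finset.sum_le_card_nsmul _ _ _ h2).trans ?_
      rw [Finset.card_univ, Fintype.card_fin, nsmul_eq_mul]
      nlinarith [sq_nonneg ‖ζ‖]
    have h3 : (c * ‖ζ‖) ^ 2 ≤ ‖XX w z b‖ ^ 2 := by
      rw [← hζ]
      exact pow_le_pow_left₀ (by positivity) (hlow ζ) 2
    calc κ * ∑ k, Complex.normSq (ζ k) ≤ κ * ((r + 1) * ‖ζ‖ ^ 2) :=
          mul_le_mul_of_nonneg_left h1 hκ.le
      _ = (c * ‖ζ‖) ^ 2 := by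
          rw [hκd]
          field_simp
      _ ≤ ‖XX w z b‖ ^ 2 := h3
  have hk : ∀ k : Fin r, ∃ b' : E n, XX w z b' = T (Pi.single k 1) ∧ ‖b'‖ ≤ √(κ⁻¹) := by
    intro k
    obtain ⟨b0, hb0, -⟩ := hT.1 (Pi.single k 1)
    obtain ⟨b', hb', hn⟩ := lin L hz hκ hmain b0
    refine ⟨b', by rw [hb', hb0], ?_⟩
    have h1 : (levi w z b0 b0).re = 1 := by
      rw [frame_levi L hz hT hb0, Complex.ofReal_re, Finset.sum_eq_single k]
      · simp
      · intro j _ hj
        simp [hj]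
      · intro h
        exact absurd (Finset.mem_univ _) h
    rw [h1] at hn
    refine Real.le_sqrt_of_sq_le ?_
    rw [← one_div, le_div_iff₀ hκ, mul_comm]
    exact hn
  choose b hb hbn using hk
  refine ⟨b, hbn, inv_of_frame L hz hT b fun k => (hb k).symm, fun ζ => ?_⟩
  rw [Lim_frame_sum T ζ, XX_bx]
  refine Finset.sum_congr rfl fun k _ => ?_
  rw [hb]

/-- the states are closed -/
private theorem Lim_closed (L : Loc w U) {y : E n × (Fin r → E n)} (hy : y.1 ∈ U)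
    {x : ℕ → E n × (Fin r → E n)} (hx : Filter.Tendsto x Filter.atTop (𝓝 y))
    (hI : ∀ j, InvP w (x j)) : InvP w y := by
  have hc : ∀ (f g : E n × (Fin r → E n) → E n), Continuous f → Continuous g →
      Filter.Tendsto (fun j => levi w (x j).1 (f (x j)) (g (x j))) Filter.atTop
        (𝓝 (levi w y.1 (f y) (g y))) := by
    intro f g hf hg
    have h1 : ContinuousAt (fun p : E n × E n × E n => levi w p.1 p.2.1 p.2.2)
        (y.1, f y, g y) := by
      refine (smo_levi L).continuousOn.continuousAt ?_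
      exact prod_mem_nhds (L.op.mem_nhds hy) Filter.univ_mem
    have h2 : Filter.Tendsto (fun j => ((x j).1, f (x j), g (x j))) Filter.atTop
        (𝓝 (y.1, f y, g y)) := by
      have h3 : Continuous fun v : E n × (Fin r → E n) => (v.1, f v, g v) := by fun_prop
      exact (h3.tendsto y).comp hx
    have h4 := Filter.Tendsto.comp (ContinuousAt.tendsto h1) h2
    exact h4
  refine ⟨fun j k => ?_, fun a c => ?_⟩
  · have h1 := hc (fun v => v.2 j) (fun v => v.2 k) (by fun_prop) (by fun_prop)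
    have h2 : Filter.Tendsto (fun i => levi w (x i).1 ((x i).2 j) ((x i).2 k)) Filter.atTop
        (𝓝 (if j = k then 1 else 0)) := by
      have h3 : (fun i => levi w (x i).1 ((x i).2 j) ((x i).2 k))
          = fun _ => (if j = k then (1 : ℂ) else 0) := by
        funext i
        exact (hI i).on j k
      rw [h3]
      exact tendsto_const_nhds
    exact tendsto_nhds_unique h1 h2
  · have h1 := hc (fun _ => a) (fun _ => c) continuous_const continuous_const
    have h2 : Filter.Tendsto (fun i => levi w (x i).1 a c) Filter.atTop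
        (𝓝 (∑ k, levi w y.1 a (y.2 k) * levi w y.1 (y.2 k) c)) := by
      have h3 : (fun i => levi w (x i).1 a c)
          = fun i => ∑ k, levi w (x i).1 a ((x i).2 k) * levi w (x i).1 ((x i).2 k) c := by
        funext i
        exact (hI i).rk a c
      rw [h3]
      refine tendsto_finsetSum _ fun k _ => ?_
      exact (hc (fun _ => a) (fun v => v.2 k) continuous_const (by fun_prop)).mul
        (hc (fun v => v.2 k) (fun _ => c) (by fun_prop) continuous_const)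
    exact tendsto_nhds_unique h1 h2

theorem lim (L : Loc w U) {Q : Set (E n)} (hQ : IsCompact Q) (hQU : Q ⊆ U) {s₁ s₂ : ℝ}
    (h12 : s₁ < s₂) {z : ℝ → E n} {T : ℝ → (Fin r → ℂ) →L[ℂ] E n}
    (hzQ : ∀ s ∈ Set.Ico s₁ s₂, z s ∈ Q)
    (hF : ∀ s ∈ Set.Ico s₁ s₂, IsFrame w (z s) (T s)) (ξ : Fin r → ℂ)
    (hode : ∀ s ∈ Set.Ico s₁ s₂, ∀ ζ, ∃ G : E n, HasDerivAt (fun σ => T σ ζ) G s ∧
      ∀ b, XX w (z s) b = T s ζ → ∀ m, S G m = T3 w (z s) (T s ξ) m b) :
    ∃ y : E n × (Fin r → E n), y.1 ∈ Q ∧ InvP w y ∧ ∀ ρ > 0, ∀ s' < s₂,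
      ∃ s ∈ Set.Ioo s' s₂, s₁ ≤ s ∧ ∃ b : Fin r → E n, dist (z s, b) y < ρ ∧ InvP w (z s, b) ∧
        ∀ ζ, T s ζ = XX w (z s) (bx b ζ) := by
  classical
  obtain ⟨c, hc, hlow⟩ := low L hQ hQU hzQ hF ξ hode
  set M : ℝ := √((c ^ 2 / (r + 1))⁻¹) with hM
  have hst : ∀ s ∈ Set.Ico s₁ s₂, ∃ b : Fin r → E n, (∀ k, ‖b k‖ ≤ M) ∧ InvP w (z s, b) ∧
      ∀ ζ, T s ζ = XX w (z s) (bx b ζ) := fun s hs =>
    Lim_state L (hQU (hzQ s hs)) (hF s hs) hc (hlow s hs)
  choose! b hbM hbI hbT using hst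
  set σ : ℕ → ℝ := fun j => s₂ - (s₂ - s₁) / (j + 1) with hσ
  have hpos : ∀ j : ℕ, (0 : ℝ) < (j : ℝ) + 1 := fun j => by positivity
  have hσm : ∀ j, σ j ∈ Set.Ico s₁ s₂ := by
    intro j
    have h1 : 0 < (s₂ - s₁) / ((j : ℝ) + 1) := div_pos (by linarith) (hpos j)
    have h2 : (s₂ - s₁) / ((j : ℝ) + 1) ≤ s₂ - s₁ := by
      rw [div_le_iff₀ (hpos j)]
      nlinarith [(Nat.cast_nonneg j : (0 : ℝ) ≤ (j : ℝ))]
    exact ⟨by simp only [hσ]; linarith, by simp only [hσ]; linarith⟩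
  have hσt : Filter.Tendsto σ Filter.atTop (𝓝 s₂) := by
    have h1 : Filter.Tendsto (fun j : ℕ => (s₂ - s₁) * (1 / ((j : ℝ) + 1))) Filter.atTop
        (𝓝 ((s₂ - s₁) * 0)) := tendsto_one_div_add_atTop_nhds_zero_nat.const_mul _
    have h2 := h1.const_sub s₂
    rw [mul_zero, sub_zero] at h2
    refine h2.congr fun j => ?_
    simp only [hσ]
    ring
  have hcomp : IsCompact (Q ×ˢ Metric.closedBall (0 : Fin r → E n) M) :=
    hQ.prod (isCompact_closedBall _ _)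
  have hM0 : 0 ≤ M := Real.sqrt_nonneg _
  have hmem : ∀ j, ((z (σ j), b (σ j)) : E n × (Fin r → E n))
      ∈ Q ×ˢ Metric.closedBall (0 : Fin r → E n) M := by
    intro j
    refine ⟨hzQ _ (hσm j), ?_⟩
    rw [mem_closedBall_zero_iff, pi_norm_le_iff_of_nonneg hM0]
    exact fun k => hbM _ (hσm j) k
  obtain ⟨y, hy, φ, hφ, hlim⟩ := hcomp.tendsto_subseq hmem
  refine ⟨y, hy.1, ?_, ?_⟩
  · exact Lim_closed L (hQU hy.1) hlim fun j => hbI _ (hσm (φ j))
  · intro ρ hρ s' hs'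
    have h1 : ∀ᶠ j in Filter.atTop, s' < σ (φ j) :=
      (hσt.comp hφ.tendsto_atTop).eventually (lt_mem_nhds hs')
    have h2 : ∀ᶠ j in Filter.atTop, dist ((z (σ (φ j)), b (σ (φ j))) : E n × (Fin r → E n)) y < ρ :=
      hlim.eventually (Metric.ball_mem_nhds y hρ)
    obtain ⟨j, hj1, hj2⟩ := (h1.and h2).exists
    have hm := hσm (φ j)
    exact ⟨σ (φ j), ⟨hj1, hm.2⟩, hm.1, b (σ (φ j)), hj2, hbI _ hm, hbT _ hm⟩

end Pool.Agent.LFC
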