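import Pool.Agent.LFC.Fra

/-!
Ini (size 3): at every point there is an orthonormal frame of the rank `r` of the Levi form.
PROOF. `F = LM w z` is psd (`L.psd`). Take a complement `M` of `kerL w z` in `E n` with a basis `m 0, ..., m (r-1)`;
the Levi form is positive definite on `M` (`levi_self`, `Psd.ker`: `levi a a = 0` implies `a ∈ kerL`). Gram-Schmidt,
or: the Gram matrix `P i j = levi w z (m i) (m j)` is positive definite, or use the spectral theorem for the hermitian
matrix `F` (see the private `spc_basis` in SKF/Spc.lean: `μ i ≥ 0` and a basis `f i` of `E n` with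
`hf F (f i) (f j) = if i = j then μ i ^ 2 else 0`): take the `f i` with `μ i ≠ 0` divided by `μ i`, numbered by
`Fin r`. `on` holds; `rk`: both sides agree for `a`, `c` in the basis `f` (linear in `a`, conjugate linear in `c`;
`f i` with `μ i = 0` is in the kernel). An alternative that avoids the numbering: choose a maximal `r` such that there is
`b : Fin r → E n` with `on` (`r ≤ 2 n` because `b` is linearly independent); if `rk` fails for some `a`, `c`, then
`d = a - ∑ k, levi a (b k) • b k` is not in the kernel, so `levi d d > 0` (Psd), `levi d (b k) = 0`, and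
`d / √(levi d d)` extends `b` (`Fin.snoc`): contradiction. This is probably the shortest way.
-/

open scoped ContDiff ComplexConjugate Topology
open Complex

namespace Pool.Agent.LFC

open Pool.Agent.DTW Pool.Agent.SKF

variable {n : ℕ} {U : Set (E n)} {w : E n → ℝ} {z : E n}

/-- `levi` in the first variable as a linear map -/
private noncomputable def Ini_lin (L : Loc w U) (hz : z ∈ U) (b : E n) : E n →ₗ[ℂ] ℂ where
  toFun a := levi w z a b
  map_add' a a' := levi_add_left L hz a a' b
  map_smul' c a := by
    simp only [RingHom.id_apply, smul_eq_mul]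
    exact levi_smul_left L hz c a b

private theorem Ini_sum (L : Loc w U) (hz : z ∈ U) {r : ℕ} (g : Fin r → ℂ) (b : Fin r → E n)
    (c : E n) : levi w z (∑ k, g k • b k) c = ∑ k, g k * levi w z (b k) c := by
  have h := map_sum (Ini_lin L hz c) (fun k => g k • b k) Finset.univ
  have h2 : ∀ k, Ini_lin L hz c (g k • b k) = g k * levi w z (b k) c := fun k =>
    levi_smul_left L hz (g k) (b k) c
  calc levi w z (∑ k, g k • b k) c = Ini_lin L hz c (∑ k, g k • b k) := rfl
    _ = ∑ k, Ini_lin L hz c (g k • b k) := h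
    _ = _ := Finset.sum_congr rfl fun k _ => h2 k

private def Ini_on (w : E n → ℝ) (z : E n) {r : ℕ} (b : Fin r → E n) : Prop :=
  ∀ j k, levi w z (b j) (b k) = if j = k then 1 else 0

private theorem Ini_li (L : Loc w U) (hz : z ∈ U) {r : ℕ} {b : Fin r → E n}
    (hb : Ini_on w z b) : LinearIndependent ℂ b := by
  rw [Fintype.linearIndependent_iff]
  intro g hg i
  have h := Ini_sum L hz g b (b i)
  rw [hg] at h
  have h0 : levi w z 0 (b i) = 0 := (Ini_lin L hz (b i)).map_zero
  rw [h0] at h
  simp only [hb _ i, mul_ite, mul_one, mul_zero, Finset.sum_ite_eq', Finset.mem_univ, if_true] at h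
  exact h.symm

private theorem Ini_card (L : Loc w U) (hz : z ∈ U) {r : ℕ} {b : Fin r → E n}
    (hb : Ini_on w z b) : r ≤ Module.finrank ℂ (E n) := by
  have h := (Ini_li L hz hb).fintype_card_le_finrank
  simpa using h

private theorem Ini_step (L : Loc w U) (hz : z ∈ U) {r : ℕ} {b : Fin r → E n}
    (hb : Ini_on w z b) (h : ¬ InvP w (z, b)) : ∃ b' : Fin (r + 1) → E n, Ini_on w z b' := by
  have h1 : ¬ ∀ a c : E n, levi w z a c = ∑ k, levi w z a (b k) * levi w z (b k) c :=
    fun h2 => h ⟨hb, h2⟩
  push Not at h1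
  obtain ⟨a, c, hac⟩ := h1
  set d : E n := a + (-1 : ℂ) • ∑ k, levi w z a (b k) • b k with hd
  have hdl : ∀ e, levi w z d e = levi w z a e - ∑ k, levi w z a (b k) * levi w z (b k) e := by
    intro e
    rw [hd, levi_add_left L hz, levi_smul_left L hz, Ini_sum L hz]
    ring
  have hdb : ∀ j, levi w z d (b j) = 0 := by
    intro j
    rw [hdl]
    simp only [hb _ j, mul_ite, mul_one, mul_zero, Finset.sum_ite_eq', Finset.mem_univ, if_true,
      sub_self]
  have hdc : levi w z d c ≠ 0 := by
    rw [hdl]
    exact sub_ne_zero.mpr hac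
  have hne : (levi w z d d).re ≠ 0 := fun h0 => hdc (ker_of_self L hz h0 c)
  have hpos : 0 < (levi w z d d).re := lt_of_le_of_ne (levi_self L hz d).2 (Ne.symm hne)
  set t : ℝ := (Real.sqrt (levi w z d d).re)⁻¹ with ht
  have ht2 : t * t * (levi w z d d).re = 1 := by
    have h2 : Real.sqrt (levi w z d d).re * Real.sqrt (levi w z d d).re = (levi w z d d).re :=
      Real.mul_self_sqrt hpos.le
    have h3 : Real.sqrt (levi w z d d).re ≠ 0 := (Real.sqrt_pos.mpr hpos).ne'
    rw [ht]
    field_simp
    nlinarith [h2]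
  have hdd : levi w z ((t : ℂ) • d) ((t : ℂ) • d) = 1 := by
    rw [levi_smul_left L hz, levi_smul_right L hz, Complex.conj_ofReal, (levi_self L hz d).1]
    rw [← mul_assoc]
    exact_mod_cast ht2
  have hdb' : ∀ j, levi w z ((t : ℂ) • d) (b j) = 0 := by
    intro j
    rw [levi_smul_left L hz, hdb j, mul_zero]
  have hbd' : ∀ j, levi w z (b j) ((t : ℂ) • d) = 0 := by
    intro j
    rw [← levi_conj L hz, hdb' j, map_zero]
  refine ⟨Fin.snoc (α := fun _ => E n) b ((t : ℂ) • d), ?_⟩
  intro j k
  refine Fin.lastCases ?_ (fun j => ?_) j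
  · refine Fin.lastCases ?_ (fun k => ?_) k
    · rw [Fin.snoc_last, if_pos rfl]
      exact hdd
    · rw [Fin.snoc_last, Fin.snoc_castSucc, if_neg (Fin.castSucc_lt_last k).ne']
      exact hdb' k
  · refine Fin.lastCases ?_ (fun k => ?_) k
    · rw [Fin.snoc_last, Fin.snoc_castSucc, if_neg (Fin.castSucc_lt_last j).ne]
      exact hbd' j
    · rw [Fin.snoc_castSucc, Fin.snoc_castSucc, hb j k]
      simp only [Fin.castSucc_inj]

theorem ini (L : Loc w U) (hz : z ∈ U) : ∃ (r : ℕ) (b : Fin r → E n), InvP w (z, b) := by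
  by_contra hcon
  push Not at hcon
  have hall : ∀ r : ℕ, ∃ b : Fin r → E n, Ini_on w z b := by
    intro r
    induction r with
    | zero => exact ⟨fun i => i.elim0, fun j => j.elim0⟩
    | succ r ih =>
      obtain ⟨b, hb⟩ := ih
      exact Ini_step L hz hb (hcon r b)
  obtain ⟨b, hb⟩ := hall (Module.finrank ℂ (E n) + 1)
  have := Ini_card L hz hb
  omega

end Pool.Agent.LFC
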