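import Pool.Agent.LFC.Lcc

/-!
Inj (size 2): a leaf map is locally injective.
PROOF. Chart `i` at `Φ t`, `φ = A.c i ∘ Φ` is `ContDiffOn ℂ ∞` near `t` (`leafC_of` with `Ω = univ`, `leafC_smooth`), so it has the strict derivative `T = fderiv ℂ φ t`, injective
(`frame_inj`), hence antilipschitz (finite dimension): `HasStrictFDerivAt.approximates_deriv_on_nhds` / `ApproximatesLinearOn` + `AntilipschitzWith` gives `InjOn φ (ball t δ)`; if
`Φ u = Φ u'` then `φ u = φ u'`.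
-/

open scoped ContDiff ComplexConjugate Topology
open Complex

namespace Pool.Agent.LFC

open Pool.Agent.DTW Pool.Agent.SKF

variable {n r : ℕ} {X : Type*} [TopologicalSpace X] {ι : Type*} {A : Atlas n X ι}

theorem inj (B : Bundle A) (L : ∀ i, Loc (B.wt i) (A.c i).target) {Φ : (Fin r → ℂ) → X}
    (hΦ : ∀ t, LeafAt B Φ t) (t : Fin r → ℂ) : ∃ δ > 0, Set.InjOn Φ (Metric.ball t δ) := by
  obtain ⟨i, hi⟩ := A.cover (Φ t)
  have hC := leafC_of B isOpen_univ (fun t _ => hΦ t) i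
  set N : Set (Fin r → ℂ) := {t | t ∈ Set.univ ∧ Φ t ∈ (A.c i).source} with hN
  have htN : t ∈ N := ⟨Set.mem_univ _, hi⟩
  have hz : (A.c i ∘ Φ) t ∈ (A.c i).target := hC.mem t htN
  have hs : HasStrictFDerivAt (𝕜 := ℂ) (A.c i ∘ Φ) (fderiv ℂ (A.c i ∘ Φ) t) t :=
    ((leafC_smooth hC).1.contDiffAt (hC.op.mem_nhds htN)).hasStrictFDerivAt (by simp)
  have hinj : Function.Injective (fderiv ℂ (A.c i ∘ Φ) t) :=
    frame_inj (L i) hz (leafC_frame hC htN).2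
  obtain ⟨K, hK0, hK⟩ := LinearMap.exists_antilipschitzWith
    ((fderiv ℂ (A.c i ∘ Φ) t : (Fin r → ℂ) →L[ℂ] E n) : (Fin r → ℂ) →ₗ[ℂ] E n)
    (LinearMap.ker_eq_bot.2 hinj)
  have hK0' : (0 : ℝ) < K := hK0
  have hc : (0 : NNReal) < K⁻¹ / 2 := by positivity
  obtain ⟨s, hs1, hs2⟩ := hs.approximates_deriv_on_nhds (c := K⁻¹ / 2) (Or.inr hc)
  have hN2 : s ∩ N ∈ 𝓝 t := Filter.inter_mem hs1 (hC.op.mem_nhds htN)
  obtain ⟨δ, hδ, hball⟩ := Metric.mem_nhds_iff.1 hN2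
  refine ⟨δ, hδ, fun x hx y hy hxy => ?_⟩
  have h1 := hs2 x (hball hx).1 y (hball hy).1
  have h2 : (A.c i ∘ Φ) x = (A.c i ∘ Φ) y := by
    show A.c i (Φ x) = A.c i (Φ y)
    rw [hxy]
  rw [h2, sub_self, zero_sub, norm_neg] at h1
  have h3 := hK.le_mul_dist x y
  rw [dist_eq_norm, dist_eq_norm] at h3
  have h4 : ‖x - y‖ ≤ K * (((K⁻¹ / 2 : NNReal) : ℝ) * ‖x - y‖) := by
    refine h3.trans ?_
    refine mul_le_mul_of_nonneg_left ?_ K.2
    rw [← map_sub]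
    exact h1
  have h5 : ((K⁻¹ / 2 : NNReal) : ℝ) = (K : ℝ)⁻¹ / 2 := by simp
  rw [h5] at h4
  have h6 : (K : ℝ) * ((K : ℝ)⁻¹ / 2 * ‖x - y‖) = ‖x - y‖ / 2 := by
    field_simp
  rw [h6] at h4
  have h7 : ‖x - y‖ = 0 := le_antisymm (by linarith [norm_nonneg (x - y)]) (norm_nonneg _)
  exact sub_eq_zero.1 (norm_eq_zero.1 h7)

end Pool.Agent.LFC
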