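import Pool.Agent.LFC.Fra
import Pool.Agent.SKF.Sol

/-!
Prp: the vectors `X_b` are the vectors that are orthogonal for `S` to the kernel; leaf maps in terms of `S`, `levi`, `kerL`.
-/

open scoped ContDiff ComplexConjugate Topology
open Complex

namespace Pool.Agent.LFC

open Pool.Agent.DTW Pool.Agent.SKF

variable {n r : ℕ} {U : Set (E n)} {w : E n → ℝ} {z : E n}

private theorem Prp_Ssum (a c : E n) : S a c = ∑ l, c l * S a (e l) := by
  have h1 : ∀ l : Ix n, c l * S a (e l) = c l * (-sg l * a l.swap) := fun l => by rw [S_single]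
  simp only [h1]
  rw [S_eq, ← sum_swap (fun l : Ix n => c l * (-sg l * a l.swap))]
  refine Finset.sum_congr rfl fun k _ => ?_
  rw [sg_swap, Sum.swap_swap]
  ring

theorem perp_XX (L : Loc w U) (hz : z ∈ U) {a : E n} (ha : ∀ c ∈ kerL w z, S a c = 0) :
    ∃ b, XX w z b = a := by
  have hw : ContDiffAt ℝ ∞ w z := L.sm.contDiffAt (L.op.mem_nhds hz)
  have hh : ∀ b c : E n, hf (LM w z) b c = levi w z b c := fun b c => (levi_eq_sum hw b c).symm
  obtain ⟨β, hβ⟩ := sol (LM w z) (fun l => conj (S a (e l))) (by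
    intro c hc
    have h1 : c ∈ kerL w z := by
      intro b
      rw [← levi_conj L hz b c, ← hh, hc b, map_zero]
    have h2 : ∑ l, conj (c l) * conj (S a (e l)) = conj (S a c) := by
      rw [Prp_Ssum a c, map_sum]
      exact Finset.sum_congr rfl fun l _ => by rw [map_mul]
    rw [h2, ha c h1, map_zero])
  refine ⟨β, S_left_inj fun m => ?_⟩
  have h3 : levi w z β m = conj (S a m) := by
    rw [← hh, hβ m, Prp_Ssum a m, map_sum]
    exact Finset.sum_congr rfl fun l _ => by rw [map_mul]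
  rw [S_X L hz, ← levi_conj L hz β m, h3, Complex.conj_conj]

variable {X : Type*} [TopologicalSpace X] {ι : Type*} {A : Atlas n X ι}

/-- `Φ : ℂ^r → X` is a leaf map: `r` is the rank of the curvature `η` at its points, it is
holomorphic, in every chart its derivative `T` at `t` is injective with range the `σ`-orthogonal
of the kernel of `η`, and isometric: if `b` is a vector with `σ(T ζ, ·) = η(·, b̄)` then
`η(b, b̄) = |ζ|²`. -/
def IsLeafMap (B : Bundle A) (Φ : (Fin r → ℂ) → X) : Prop :=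
  Continuous Φ ∧ ∀ t i, Φ t ∈ (A.c i).source →
    r + Module.finrank ℂ (kerL (B.wt i) (A.c i (Φ t))) = 2 * n ∧
    ∃ T : (Fin r → ℂ) →L[ℂ] E n, HasFDerivAt (𝕜 := ℂ) (A.c i ∘ Φ) T t ∧
      Function.Injective T ∧
      (∀ a : E n, (∃ ζ, T ζ = a) ↔ ∀ c ∈ kerL (B.wt i) (A.c i (Φ t)), S a c = 0) ∧
      ∀ (ζ : Fin r → ℂ) (b : E n),
        (∀ m, S (T ζ) m = levi (B.wt i) (A.c i (Φ t)) m b) →
        levi (B.wt i) (A.c i (Φ t)) b b = ((∑ k, Complex.normSq (ζ k) : ℝ) : ℂ)

theorem isLeafMap_iff (B : Bundle A) (L : ∀ i, Loc (B.wt i) (A.c i).target)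
    (Φ : (Fin r → ℂ) → X) : IsLeafMap B Φ ↔ ∀ t, LeafAt B Φ t := by
  constructor
  · rintro ⟨hc, h⟩ t
    refine ⟨hc.continuousAt, fun i hi => ?_⟩
    have hz := (A.c i).map_source hi
    obtain ⟨-, T, hT, -, hr, hiso⟩ := h t i hi
    refine ⟨T, hT, fun ζ => ?_, fun b => ?_⟩
    · obtain ⟨b, hb⟩ := perp_XX (L i) hz ((hr (T ζ)).1 ⟨ζ, rfl⟩)
      exact ⟨b, hb.symm, hiso ζ b fun m => by rw [← hb, S_X (L i) hz]⟩
    · refine (hr _).2 fun c hc' => ?_
      rw [S_X (L i) hz]
      exact hc' b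
  · intro h
    refine ⟨continuous_iff_continuousAt.2 fun t => (h t).1, fun t i hi => ?_⟩
    have hz := (A.c i).map_source hi
    obtain ⟨T, hT, hF⟩ := (h t).2 i hi
    refine ⟨(frame_rank (L i) hz hF).1, T, hT, frame_inj (L i) hz hF,
      fun a => (frame_perp (L i) hz hF a).symm, fun ζ b hb => ?_⟩
    have h1 : T ζ = XX (B.wt i) (A.c i (Φ t)) b :=
      S_left_inj fun m => by rw [hb m, S_X (L i) hz]
    exact frame_levi (L i) hz hF h1

end Pool.Agent.LFC
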