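import Pool.Agent.LFC.Lex
import Pool.Agent.LFC.Unq
import Pool.Agent.LFC.Crl

/-!
Rep (size 4): a leaf map is near every point given by a solution of the leaf system; its rays are leaf curves.
`rep`. PROOF. Chart `i` at `Φ t₀`, `w = B.wt i`, `z0 = A.c i (Φ t₀)`; the frame `T` of `Φ` at `t₀` (`LeafAt`) gives a state `y = (z0, b)` with `T ζ = XX w z0 (bx b ζ)` (`exists_inv`). `lex` at
`y0 = y`: `Y` on `ball 0 δ`, `Y 0 = y`. `ψ u = (A.c i).symm (Y u).1` is a leaf map on `ball 0 δ` (as in `lps`: continuous, `A.c i ∘ ψ = fun u => (Y u).1` near `u`, derivative `ξ ↦ XX w (Y u).1 (bx (Y u).2 ξ)`,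
complex linear, `frame_of_inv`, `leafAt_of_chart`) with derivative `T` at `0`. `u ↦ Φ (t₀ + u)` is a leaf map (`leafAt_comp`) with the same value and derivative at `0`: `unq` on `ball 0 δ`.
`cvr`. PROOF. `TanAt`: continuity from `LeafAt`. Given the chart `i`, `rep` at `t₀ = s₀ • ξ`, `ε` with `ε ‖ξ‖ < δ` (`ε = δ / (‖ξ‖ + 1)`), `b s = bx (Y ((s - s₀) • ξ)).2 ξ`; for `|s - s₀| < ε`: `Φ (s • ξ) = (A.c i).symm (Y ((s - s₀) • ξ)).1`
is in the source, `A.c i (Φ (s • ξ)) = (Y ((s - s₀) • ξ)).1` near `s`, derivative `(velL w (Y _) ξ).1 = XX w (Y _).1 (bx (Y _).2 ξ)`; `b` is continuous.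
-/

open scoped ContDiff ComplexConjugate Topology
open Complex

namespace Pool.Agent.LFC

open Pool.Agent.DTW Pool.Agent.SKF

variable {n r : ℕ} {X : Type*} [TopologicalSpace X] [T2Space X] {ι : Type*} {A : Atlas n X ι}

theorem rep (B : Bundle A) (L : ∀ i, LocB (B.wt i) (A.c i).target) {Φ : (Fin r → ℂ) → X}
    (hΦ : ∀ t, LeafAt B Φ t) (t₀ : Fin r → ℂ) {i : ι} (hi : Φ t₀ ∈ (A.c i).source) :
    ∃ δ > 0, ∃ Y : (Fin r → ℂ) → E n × (Fin r → E n),
      ∀ u ∈ Metric.ball (0 : Fin r → ℂ) δ, (Y u).1 ∈ (A.c i).target ∧ InvP (B.wt i) (Y u) ∧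
        HasFDerivAt Y (velL (B.wt i) (Y u)) u ∧ Φ (t₀ + u) = (A.c i).symm (Y u).1 := by
  obtain ⟨T, hT, hF⟩ := (hΦ t₀).2 i hi
  have hz0 : A.c i (Φ t₀) ∈ (A.c i).target := (A.c i).map_source hi
  obtain ⟨b, hb, hTb⟩ := exists_inv (L i).loc hz0 hF
  obtain ⟨ρ, hρ, δ, hδ, h⟩ := lex (L i) (y0 := (A.c i (Φ t₀), b)) hz0
  obtain ⟨Y, hY0, hY⟩ := h (A.c i (Φ t₀), b) (by rw [dist_self]; exact hρ) hb
  have hcore : ∀ t ∈ Metric.ball (0 : Fin r → ℂ) δ,
      ContinuousAt (fun t => (A.c i).symm (Y t).1) t ∧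
      (A.c i).symm (Y t).1 ∈ (A.c i).source ∧
      ∃ T : (Fin r → ℂ) →L[ℂ] E n,
        HasFDerivAt (𝕜 := ℂ) (A.c i ∘ fun t => (A.c i).symm (Y t).1) T t ∧
        (∀ ζ, T ζ = XX (B.wt i) (Y t).1 (bx (Y t).2 ζ)) ∧ IsFrame (B.wt i) (Y t).1 T := by
    intro t ht
    obtain ⟨hU, hIt, hd⟩ := hY t ht
    have hYc : ContinuousAt Y t := hd.continuousAt
    have hc1 : ContinuousAt (fun t => (Y t).1) t := continuous_fst.continuousAt.comp hYc
    have hc : ContinuousAt (fun t => (A.c i).symm (Y t).1) t :=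
      ContinuousAt.comp (g := (A.c i).symm) (f := fun t => (Y t).1)
        ((A.c i).continuousAt_symm hU) hc1
    obtain ⟨T, hT1, hT2⟩ := frame_of_inv (L i).loc hU hIt
    refine ⟨hc, (A.c i).map_target hU, T, ?_, hT1, hT2⟩
    have hfst := (ContinuousLinearMap.fst ℝ (E n) (Fin r → E n)).hasFDerivAt.comp t hd
    have hev : (A.c i ∘ fun t => (A.c i).symm (Y t).1) =ᶠ[𝓝 t] fun t => (Y t).1 := by
      filter_upwards [hc1.eventually ((A.c i).open_target.mem_nhds hU)] with s hs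
      exact (A.c i).right_inv hs
    have hreal : HasFDerivAt (𝕜 := ℝ) (A.c i ∘ fun t => (A.c i).symm (Y t).1)
        ((ContinuousLinearMap.fst ℝ (E n) (Fin r → E n)).comp (velL (B.wt i) (Y t))) t :=
      HasFDerivAt.congr_of_eventuallyEq hfst hev
    refine hasFDerivAt_of_restrictScalars ℝ hreal ?_
    ext1 ξ
    show T ξ = (velL (B.wt i) (Y t) ξ).1
    rw [hT1]
    rfl
  have hψ : ∀ t ∈ Metric.ball (0 : Fin r → ℂ) δ, LeafAt B (fun t => (A.c i).symm (Y t).1) t := by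
    intro t ht
    obtain ⟨hc, hs, T, hT, -, hF⟩ := hcore t ht
    refine leafAt_of_chart B (fun j => (L j).loc) hc hs hT ?_
    have h1 : A.c i ((fun t => (A.c i).symm (Y t).1) t) = (Y t).1 :=
      (A.c i).right_inv (hY t ht).1
    rw [h1]
    exact hF
  have hΦ' : ∀ t ∈ Metric.ball (0 : Fin r → ℂ) δ, LeafAt B (fun u => Φ (t₀ + u)) t :=
    fun t _ => leafAt_comp B t₀ (LinearEquiv.refl ℂ (Fin r → ℂ)) (fun _ => rfl) (hΦ _)
  have hd0 : HasFDerivAt (𝕜 := ℂ) (A.c i ∘ fun u => Φ (t₀ + u)) T 0 := by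
    have h1 : HasFDerivAt (𝕜 := ℂ) (fun u : Fin r → ℂ => t₀ + u)
        (ContinuousLinearMap.id ℂ (Fin r → ℂ)) 0 := (hasFDerivAt_id _).const_add t₀
    have h2 : HasFDerivAt (𝕜 := ℂ) (A.c i ∘ Φ) T (t₀ + 0) := by
      rw [add_zero]
      exact hT
    have h3 := h2.comp (0 : Fin r → ℂ) h1
    rw [ContinuousLinearMap.comp_id] at h3
    exact h3
  have hd0' : HasFDerivAt (𝕜 := ℂ) (A.c i ∘ fun t => (A.c i).symm (Y t).1) T 0 := by
    obtain ⟨-, -, T', hT', hT1, -⟩ := hcore 0 (Metric.mem_ball_self hδ)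
    have h1 : T' = T := by
      refine ContinuousLinearMap.ext fun ζ => ?_
      rw [hT1, hY0, hTb]
    rw [← h1]
    exact hT'
  have h00 : Φ (t₀ + 0) = (A.c i).symm (Y 0).1 := by
    rw [hY0, add_zero]
    exact ((A.c i).left_inv hi).symm
  have hu := unq B (fun j => (L j).loc) Metric.isOpen_ball (convex_ball _ _) hΦ' hψ
    (Metric.mem_ball_self hδ) h00 (i := i) (by rw [add_zero]; exact hi) hd0 hd0'
  refine ⟨δ, hδ, Y, fun u hub => ?_⟩
  obtain ⟨h1, h2, h3⟩ := hY u hub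
  exact ⟨h1, h2, h3, hu u hub⟩

theorem cvr [CompactSpace X] (B : Bundle A) (L : ∀ i, LocB (B.wt i) (A.c i).target)
    {Φ : (Fin r → ℂ) → X} (hΦ : ∀ t, LeafAt B Φ t) (ξ : Fin r → ℂ) (s₀ : ℝ) :
    TanAt B (fun s : ℝ => Φ (s • ξ)) s₀ := by
  have hline : Continuous (fun s : ℝ => s • ξ) := continuous_id.smul continuous_const
  refine ⟨ContinuousAt.comp (f := fun s : ℝ => s • ξ) (g := Φ) (hΦ _).1 hline.continuousAt,
    fun i hi => ?_⟩
  obtain ⟨δ, hδ, Y, hY⟩ := rep B L hΦ (s₀ • ξ) hi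
  have hξ : 0 < ‖ξ‖ + 1 := by positivity
  have hball : ∀ s ∈ Set.Ioo (s₀ - δ / (‖ξ‖ + 1)) (s₀ + δ / (‖ξ‖ + 1)),
      (s - s₀) • ξ ∈ Metric.ball (0 : Fin r → ℂ) δ := by
    intro s hs
    rw [mem_ball_zero_iff, norm_smul, Real.norm_eq_abs]
    have h1 : |s - s₀| < δ / (‖ξ‖ + 1) := by
      rw [abs_lt]
      constructor
      · linarith [hs.1]
      · linarith [hs.2]
    have h2 : |s - s₀| * (‖ξ‖ + 1) < δ := (lt_div_iff₀ hξ).1 h1
    have h3 : 0 ≤ |s - s₀| := abs_nonneg _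
    nlinarith
  have hsum : ∀ s : ℝ, s₀ • ξ + (s - s₀) • ξ = s • ξ := by
    intro s
    rw [← add_smul]
    congr 1
    ring
  have hval : ∀ s ∈ Set.Ioo (s₀ - δ / (‖ξ‖ + 1)) (s₀ + δ / (‖ξ‖ + 1)),
      Φ (s • ξ) = (A.c i).symm (Y ((s - s₀) • ξ)).1 := by
    intro s hs
    have h1 := (hY _ (hball s hs)).2.2.2
    rwa [hsum] at h1
  refine ⟨δ / (‖ξ‖ + 1), by positivity, fun s => bx (Y ((s - s₀) • ξ)).2 ξ, ?_, ?_⟩
  · intro s hs
    refine ContinuousAt.continuousWithinAt ?_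
    have h1 : ContinuousAt Y ((s - s₀) • ξ) := (hY _ (hball s hs)).2.2.1.continuousAt
    have h2 : Continuous (fun s : ℝ => (s - s₀) • ξ) := (continuous_id.sub continuous_const).smul
      continuous_const
    have h3 : ContinuousAt (fun s : ℝ => Y ((s - s₀) • ξ)) s :=
      ContinuousAt.comp (f := fun s : ℝ => (s - s₀) • ξ) (g := Y) h1 h2.continuousAt
    have h4 : Continuous (fun b : Fin r → E n => bx b ξ) := by
      unfold bx
      exact continuous_finsetSum _ fun k _ => by fun_prop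
    exact ContinuousAt.comp (f := fun s : ℝ => (Y ((s - s₀) • ξ)).2) (g := fun b => bx b ξ)
      h4.continuousAt (continuous_snd.continuousAt.comp h3)
  · intro s hs
    obtain ⟨h1, h2, h3, -⟩ := hY _ (hball s hs)
    have hsrc : Φ (s • ξ) ∈ (A.c i).source := by
      rw [hval s hs]
      exact (A.c i).map_target h1
    refine ⟨hsrc, ?_⟩
    have hv : A.c i (Φ (s • ξ)) = (Y ((s - s₀) • ξ)).1 := by
      rw [hval s hs]
      exact (A.c i).right_inv h1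
    have hl : HasDerivAt (fun σ : ℝ => (σ - s₀) • ξ) ξ s := by
      have h4 := ((hasDerivAt_id s).sub_const s₀).smul_const ξ
      rw [one_smul] at h4
      exact h4
    have h5 : HasDerivAt (fun σ : ℝ => Y ((σ - s₀) • ξ)) (velL (B.wt i) (Y ((s - s₀) • ξ)) ξ) s :=
      h3.comp_hasDerivAt s hl
    have h6 : HasDerivAt (fun σ : ℝ => (Y ((σ - s₀) • ξ)).1)
        (velL (B.wt i) (Y ((s - s₀) • ξ)) ξ).1 s :=
      (ContinuousLinearMap.fst ℝ (E n) (Fin r → E n)).hasFDerivAt.comp_hasDerivAt s h5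
    have hev : (fun σ : ℝ => A.c i (Φ (σ • ξ))) =ᶠ[𝓝 s] fun σ : ℝ => (Y ((σ - s₀) • ξ)).1 := by
      filter_upwards [Ioo_mem_nhds hs.1 hs.2] with σ hσ
      rw [hval σ hσ]
      exact (A.c i).right_inv (hY _ (hball σ hσ)).1
    rw [hv]
    exact h6.congr_of_eventuallyEq hev

end Pool.Agent.LFC
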