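import Pool.Agent.LFC.Lcc

/-!
Sec (size 3): the length of a holomorphic section of `L^m` is constant on the leaves.
PROOF. `g = len B m s` is a real function with `vt A g i = uu m (B.wt i) (st A s i)` on the chart `i` (`vt_len`), smooth. Let `t`, `ξ`; in a chart `i` at `Φ t`, `z = A.c i (Φ t)`, the real derivative
of `g ∘ Φ` at `t` in the direction `ξ` is `fderiv ℝ (uu ..) z v`, `v = T ξ = XX (B.wt i) z b` (`IsFrame`). `fderiv ℝ (cx (uu ..)) z v = d10 .. z v + d01 .. z v`, and `d01 = conj d10` for a real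
function; `d10 (cx (uu m w f)) z v = exp (-m w) * conj f * ∑ k, v k * DD m w k f z` for holomorphic `f` (`pk` of `f * conj f * exp (-m w)`: see `pb_cx_uu` in DTW/Key.lean for the conjugate
computation), and `∑ k, v k * DD m w k f z = 0` for `v = XX w z b` by `main_vanish` (DTW/Main.lean) and `sum_XX`. So `g ∘ Φ` has zero derivative on `Fin r → ℂ`
(`is_const_of_fderiv_eq_zero`).
-/

open scoped ContDiff ComplexConjugate Topology
open Complex MeasureTheory

namespace Pool.Agent.LFC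

open Pool.Agent.DTW Pool.Agent.SKF

variable {n r : ℕ} {X : Type*} [TopologicalSpace X] [T2Space X] [CompactSpace X]
  [MeasurableSpace X] [BorelSpace X] {ι : Type*} {A : Atlas n X ι} {μ : Measure X}

private theorem Sec_fd {m : ℝ} {w : E n → ℝ} {f : E n → ℂ} {U : Set (E n)} (hU : IsOpen U)
    (hw : ContDiffOn ℝ ∞ w U) (hf : ContDiffOn ℝ ∞ f U) {z : E n} (hz : z ∈ U)
    (hpb : ∀ j, pb j f z = 0) {v : E n} (hv : ∑ k, v k * DD m w k f z = 0) :
    fderiv ℝ (uu m w f) z v = 0 := by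
  have hd : DifferentiableAt ℝ (uu m w f) z :=
    ((contDiffOn_uu hw hf).contDiffAt (hU.mem_nhds hz)).differentiableAt (by simp)
  have hdc : DifferentiableAt ℝ (cx (uu m w f)) z :=
    diffAt_of hU (contDiffOn_cx (contDiffOn_uu hw hf)) hz
  have h1 : d01 (cx (uu m w f)) z v = 0 := by
    rw [d01_eq_sum]
    have h0 : ∀ k, conj (v k) * pb k (cx (uu m w f)) z
        = cexp (-(m : ℂ) * cx w z) * f z * conj (v k * DD m w k f z) := by
      intro k
      rw [pb_cx_uu hU hw hf hz, hpb k, map_mul]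
      ring
    rw [Finset.sum_congr rfl fun k _ => h0 k, ← Finset.mul_sum, ← map_sum, hv, map_zero, mul_zero]
  have h2 : d10 (cx (uu m w f)) z v = 0 := by
    have h := d10_conj (a := v) hdc
    have h3 : (fun y => conj (cx (uu m w f) y)) = cx (uu m w f) := funext fun y => conj_cx _ y
    rw [h3] at h
    rw [h, h1, map_zero]
  have h3 : fderiv ℝ (cx (uu m w f)) z v = 0 := by
    have h4 : fderiv ℝ (cx (uu m w f)) z v
        = d10 (cx (uu m w f)) z v + d01 (cx (uu m w f)) z v := by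
      unfold d10 d01
      ring
    rw [h4, h1, h2, add_zero]
  have h4 : fderiv ℝ (cx (uu m w f)) z v = ((fderiv ℝ (uu m w f) z v : ℝ) : ℂ) := by
    have h5 : HasFDerivAt (cx (uu m w f)) (Complex.ofRealCLM.comp (fderiv ℝ (uu m w f) z)) z :=
      Complex.ofRealCLM.hasFDerivAt.comp z hd.hasFDerivAt
    rw [h5.fderiv]
    rfl
  rw [h4] at h3
  exact_mod_cast h3

theorem sec (hμ : A.IsVolume μ) (B : Bundle A) (hsp : B.Semipositive) (hq : Para B μ) {m : ℤ}
    {s : ι → X → ℂ} (hs : B.IsSection m s) (hol : B.IsHol s) {Φ : (Fin r → ℂ) → X}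
    (hΦ : ∀ t, LeafAt B Φ t) (t t' : Fin r → ℂ) : len B m s (Φ t) = len B m s (Φ t') := by
  have hpb := (hol_iff_pb hs).1 hol
  have key0 : ∀ i, ∀ z ∈ (A.c i).target, ∀ j : Ix n,
      ∑ k : Ix n, sg k * LM (B.wt i) z k.swap j * DD (m : ℝ) (B.wt i) k (st A s i) z = 0 := by
    intro i z hz j
    refine main_vanish hμ B hsp hq 0 m hs ?_ i z hz j
    intro i z hz j
    rw [hpb i z hz j]
    ring
  have main : ∀ t : Fin r → ℂ,
      HasFDerivAt (𝕜 := ℝ) (fun y => len B m s (Φ y)) (0 : (Fin r → ℂ) →L[ℝ] ℝ) t := by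
    intro t
    obtain ⟨hc, hT⟩ := hΦ t
    obtain ⟨i, hi⟩ := A.cover (Φ t)
    obtain ⟨T, hT1, hT2⟩ := hT i hi
    have hz : A.c i (Φ t) ∈ (A.c i).target := (A.c i).map_source hi
    have hd : DifferentiableAt ℝ (uu (m : ℝ) (B.wt i) (st A s i)) (A.c i (Φ t)) :=
      ((contDiffOn_uu (m := (m : ℝ)) (B.smooth i) (hs.smooth i)).contDiffAt
        ((A.c i).open_target.mem_nhds hz)).differentiableAt (by simp)
    have h1 : HasFDerivAt (𝕜 := ℝ) (fun y => uu (m : ℝ) (B.wt i) (st A s i) ((A.c i ∘ Φ) y))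
        ((fderiv ℝ (uu (m : ℝ) (B.wt i) (st A s i)) (A.c i (Φ t))).comp
          (T.restrictScalars ℝ)) t :=
      HasFDerivAt.comp (g := uu (m : ℝ) (B.wt i) (st A s i)) t hd.hasFDerivAt
        (hT1.restrictScalars ℝ)
    have h2 : (fderiv ℝ (uu (m : ℝ) (B.wt i) (st A s i)) (A.c i (Φ t))).comp
          (T.restrictScalars ℝ) = 0 := by
      ext ζ
      obtain ⟨b, hb, -⟩ := hT2.1 ζ
      change fderiv ℝ (uu (m : ℝ) (B.wt i) (st A s i)) (A.c i (Φ t)) (T ζ) = 0
      rw [hb]
      refine Sec_fd (A.c i).open_target (B.smooth i) (hs.smooth i) hz (hpb i _ hz) ?_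
      have h3 := sum_XX (w := B.wt i) (z := A.c i (Φ t)) 1 b
        (fun k => DD (m : ℝ) (B.wt i) k (st A s i) (A.c i (Φ t)))
      rw [one_smul] at h3
      refine h3.trans ?_
      refine Finset.sum_eq_zero fun j _ => ?_
      rw [key0 i _ hz j, mul_zero, mul_zero]
    rw [h2] at h1
    refine h1.congr_of_eventuallyEq ?_
    filter_upwards [hc.preimage_mem_nhds ((A.c i).open_source.mem_nhds hi)] with y hy
    have h4 := vt_len hs i ((A.c i).map_source hy)
    unfold vt at h4
    rw [(A.c i).left_inv hy] at h4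
    exact h4
  have hdiff : Differentiable ℝ (fun y => len B m s (Φ y)) := fun t => (main t).differentiableAt
  exact is_const_of_fderiv_eq_zero hdiff (fun t => (main t).fderiv) t t'

end Pool.Agent.LFC
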