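import Pool.Agent.LFC.Exp
import Pool.Agent.SKF.Knl

/-!
Fra (size 4): frames `T` and states `(z, b)`; the range of a frame; the rank.
`frame_of_inv`: `T ζ = XX w z (bx b ζ)` is complex linear (`XX_bx_add`, `XX_bx_smul`; `LinearMap.toContinuousLinearMap`);
isometric by `bx_levi` (`conj (ζ j) * ζ j = normSq`), onto by `XX_exp` (`ζ k = conj (levi w z b (b k))`).
`frame_levi`: if `T ζ = XX w z c`, take `b` of `IsFrame.1` with `XX w z b = XX w z c`; `levi b b = levi b c`
(`XX_eq_iff`) `= conj (levi c b) = conj (levi c c) = levi c c` (real: `levi_conj`).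
`inv_of_frame`: `on`: polarisation of `∑ j k, conj (ζ j) * ζ k * levi (b j) (b k) = ∑ k, |ζ k|²`
(`T ζ = ∑ ζ k • T (e k) = XX w z (bx b ζ)`, `frame_levi`), with `ζ = e j`, `e j + e k`, `e j + I e k`. `rk`: given `c`,
`XX w z c = T ζ = XX w z (bx b ζ)` for some `ζ`, so `levi m c = levi m (bx b ζ) = ∑ k, ζ k * levi m (b k)` for all `m`
(`XX_eq_iff`); `m = b k`: `levi (b k) c = ζ k`.
`frame_perp`: if `T ζ = X_b` then `S (X_b) c = levi c b = 0` for `c ∈ kerL`. Conversely `S a c = 0` for all `c ∈ kerL`: `sol`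
(SKF/Sol.lean) with `F = LM w z`, `ρ l = conj (S a (e l))`, gives `β` with `levi w z β m = conj (S a m)` for all `m`, so
`S a m = levi w z m β = S (XX w z β) m`, `a = XX w z β` (`S_left_inj`), which is in the range of `T`.
`frame_rank`: `T` is injective (`frame_levi` with `c = 0`), its range is `{X_b}`, of dimension `r`; the rank of `F` is `r`:
e.g. choose `b` with `T (e k) = X_(b k)`; `b` is independent modulo `kerL` (`on`) and `E n = span b ⊔ kerL` (`ker_part`),
`span b ⊓ kerL = ⊥`; `finrank (E n) = 2 n` (`Submodule.finrank_sup_add_finrank_inf_eq`). `r ≤ n`: `knl_ge`.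
-/

open scoped ContDiff ComplexConjugate Topology
open Complex

namespace Pool.Agent.LFC

open Pool.Agent.DTW Pool.Agent.SKF

variable {n r : ℕ} {U : Set (E n)} {w : E n → ℝ} {z : E n}

private theorem Fra_sumsq {ζ : Fin r → ℂ} :
    (∑ j, conj (ζ j) * ζ j : ℂ) = ((∑ k, Complex.normSq (ζ k) : ℝ) : ℂ) := by
  rw [Complex.ofReal_sum]
  exact Finset.sum_congr rfl fun j _ => (Complex.normSq_eq_conj_mul_self).symm

private theorem Fra_XX_zero (w : E n → ℝ) (z : E n) : XX w z 0 = 0 := by
  have h := XX_smul w z 0 (0 : E n)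
  rw [zero_smul, map_zero, zero_smul] at h
  exact h

private theorem Fra_single (j : Fin r) (u : ℂ) :
    (∑ l, Complex.normSq ((Pi.single j u : Fin r → ℂ) l)) = Complex.normSq u := by
  rw [Finset.sum_eq_single j]
  · rw [Pi.single_eq_same]
  · intro l _ hl
    rw [Pi.single_eq_of_ne hl, map_zero]
  · intro h
    exact absurd (Finset.mem_univ j) h

private theorem Fra_pair {j k : Fin r} (hjk : j ≠ k) (u v : ℂ) :
    (∑ l, Complex.normSq ((Pi.single j u + Pi.single k v : Fin r → ℂ) l)) =
      Complex.normSq u + Complex.normSq v := by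
  rw [← Fra_single j u, ← Fra_single k v, ← Finset.sum_add_distrib]
  refine Finset.sum_congr rfl fun l _ => ?_
  rw [Pi.add_apply]
  by_cases h : l = j
  · subst h
    rw [Pi.single_eq_of_ne hjk, map_zero, add_zero, add_zero]
  · rw [Pi.single_eq_of_ne h, map_zero, zero_add, zero_add]

private theorem Fra_S_sum (a c : E n) : S a c = ∑ l, c l * S a (e l) := by
  rw [S_eq]
  have h1 : ∀ l : Ix n, c l * S a (e l) = (fun k : Ix n => sg k * a k * c k.swap) l.swap := by
    intro l
    show c l * S a (e l) = sg l.swap * a l.swap * c l.swap.swap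
    rw [S_single, Sum.swap_swap, sg_swap]
    ring
  simp only [h1]
  exact (sum_swap (fun k : Ix n => sg k * a k * c k.swap)).symm

theorem frame_of_inv (L : Loc w U) {y : E n × (Fin r → E n)} (hz : y.1 ∈ U) (hI : InvP w y) :
    ∃ T : (Fin r → ℂ) →L[ℂ] E n, (∀ ζ, T ζ = XX w y.1 (bx y.2 ζ)) ∧ IsFrame w y.1 T := by
  have hT : ∀ ζ, (LinearMap.toContinuousLinearMap
      { toFun := fun ζ : Fin r → ℂ => XX w y.1 (bx y.2 ζ)
        map_add' := fun ξ ζ => XX_bx_add w y.1 y.2 ξ ζ
        map_smul' := fun c ξ => XX_bx_smul w y.1 y.2 c ξ } : (Fin r → ℂ) →L[ℂ] E n) ζ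
        = XX w y.1 (bx y.2 ζ) := fun ζ => rfl
  refine ⟨_, hT, ?_, ?_⟩
  · intro ζ
    exact ⟨bx y.2 ζ, hT ζ, by rw [bx_levi L hz hI, Fra_sumsq]⟩
  · intro b
    refine ⟨fun k => conj (levi w y.1 b (y.2 k)), ?_⟩
    rw [hT, XX_bx, ← XX_exp L hz hI b]

theorem frame_levi (L : Loc w U) (hz : z ∈ U) {T : (Fin r → ℂ) →L[ℂ] E n} (hT : IsFrame w z T)
    {ζ : Fin r → ℂ} {c : E n} (h : T ζ = XX w z c) :
    levi w z c c = ((∑ k, Complex.normSq (ζ k) : ℝ) : ℂ) := by
  obtain ⟨b, hb1, hb2⟩ := hT.1 ζ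
  have h1 := (XX_eq_iff L hz b c).mp (hb1.symm.trans h)
  rw [← hb2, h1 b, ← levi_conj L hz c b, h1 c, levi_conj L hz c c]

theorem frame_inj (L : Loc w U) (hz : z ∈ U) {T : (Fin r → ℂ) →L[ℂ] E n} (hT : IsFrame w z T) :
    Function.Injective T := by
  rw [injective_iff_map_eq_zero]
  intro ζ hζ
  have h1 : T ζ = XX w z 0 := by rw [hζ, Fra_XX_zero]
  have h2 := frame_levi L hz hT h1
  have h3 : levi w z 0 (0 : E n) = 0 := d10_zero_vec _ _
  rw [h3] at h2
  have h4 : (∑ k, Complex.normSq (ζ k)) = 0 := by exact_mod_cast h2.symm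
  funext k
  have h5 := (Finset.sum_eq_zero_iff_of_nonneg (fun i _ => Complex.normSq_nonneg (ζ i))).mp h4 k
    (Finset.mem_univ k)
  exact Complex.normSq_eq_zero.mp h5

private theorem Fra_T (T : (Fin r → ℂ) →L[ℂ] E n) (b : Fin r → E n)
    (hb : ∀ k, T (Pi.single k 1) = XX w z (b k)) (ζ : Fin r → ℂ) : T ζ = XX w z (bx b ζ) := by
  have h1 : ζ = ∑ k, ζ k • (Pi.single k (1 : ℂ) : Fin r → ℂ) := by
    funext j
    simp [Finset.sum_apply, Pi.single_apply]
  conv_lhs => rw [h1]
  rw [map_sum, XX_bx]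
  refine Finset.sum_congr rfl fun k _ => ?_
  rw [map_smul, hb]

theorem inv_of_frame (L : Loc w U) (hz : z ∈ U) {T : (Fin r → ℂ) →L[ℂ] E n} (hT : IsFrame w z T)
    (b : Fin r → E n) (hb : ∀ k, T (Pi.single k 1) = XX w z (b k)) : InvP w (z, b) := by
  have hon : ∀ j k, levi w z (b j) (b k) = if j = k then 1 else 0 := by
    have hd : ∀ j, levi w z (b j) (b j) = 1 := by
      intro j
      rw [frame_levi L hz hT (hb j), Fra_single]
      simp
    intro j k
    by_cases hjk : j = k
    · subst hjk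
      rw [if_pos rfl, hd]
    · rw [if_neg hjk]
      have e1 : T (Pi.single j 1 + Pi.single k 1) = XX w z (b j + b k) := by
        rw [map_add, hb, hb, XX_add]
      have e2 : T (Pi.single j 1 + Pi.single k (-I)) = XX w z (b j + I • b k) := by
        have h3 : (Pi.single k (-I) : Fin r → ℂ) = (-I) • Pi.single k (1 : ℂ) := by
          rw [← Pi.single_smul]
          simp
        rw [map_add, hb, h3, map_smul, hb, XX_add, XX_smul, Complex.conj_I]
      have f1 := frame_levi L hz hT e1
      have f2 := frame_levi L hz hT e2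
      rw [Fra_pair hjk] at f1 f2
      rw [levi_add_left L hz, levi_add_right L hz, levi_add_right L hz, hd, hd] at f1
      rw [levi_add_left L hz, levi_add_right L hz, levi_add_right L hz, levi_smul_left L hz,
        levi_smul_left L hz, levi_smul_right L hz, levi_smul_right L hz, hd, hd,
        Complex.conj_I] at f2
      simp only [map_one, Complex.normSq_neg, Complex.normSq_I, Complex.ofReal_add,
        Complex.ofReal_one] at f1 f2
      have hI : I * I = -1 := Complex.I_mul_I
      have g1 : levi w z (b j) (b k) + levi w z (b k) (b j) = 0 := by linear_combination f1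
      have g2 : levi w z (b j) (b k) - levi w z (b k) (b j) = 0 := by
        linear_combination I * f2 + (levi w z (b j) (b k) - levi w z (b k) (b j) + I) * hI
      linear_combination (g1 + g2) / 2
  refine ⟨hon, ?_⟩
  intro a c
  obtain ⟨ζ, hζ⟩ := hT.2 c
  have h1 := Fra_T T b hb ζ
  have h2 := (XX_eq_iff L hz c (bx b ζ)).mp (hζ.symm.trans h1)
  have h3 : ∀ m, levi w z m c = ∑ k, ζ k * levi w z m (b k) := by
    intro m
    rw [h2 m]
    unfold bx
    rw [levi_sum2 L hz]
    refine Finset.sum_congr rfl fun k _ => ?_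
    rw [Complex.conj_conj]
  show levi w z a c = ∑ k, levi w z a (b k) * levi w z (b k) c
  rw [h3 a]
  refine Finset.sum_congr rfl fun k _ => ?_
  have h4 : levi w z (b k) c = ζ k := by
    rw [h3 (b k), Finset.sum_eq_single k]
    · rw [hon, if_pos rfl, mul_one]
    · intro j _ hj
      rw [hon, if_neg (Ne.symm hj), mul_zero]
    · intro h
      exact absurd (Finset.mem_univ k) h
  rw [h4]
  ring

theorem exists_inv (L : Loc w U) (hz : z ∈ U) {T : (Fin r → ℂ) →L[ℂ] E n} (hT : IsFrame w z T) :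
    ∃ b : Fin r → E n, InvP w (z, b) ∧ ∀ ζ, T ζ = XX w z (bx b ζ) := by
  have h1 : ∀ k : Fin r, ∃ b, T (Pi.single k 1) = XX w z b := by
    intro k
    obtain ⟨b, hb, _⟩ := hT.1 (Pi.single k 1)
    exact ⟨b, hb⟩
  choose b hb using h1
  exact ⟨b, inv_of_frame L hz hT b hb, Fra_T T b hb⟩

theorem frame_perp (L : Loc w U) (hz : z ∈ U) {T : (Fin r → ℂ) →L[ℂ] E n} (hT : IsFrame w z T)
    (a : E n) : (∀ c ∈ kerL w z, S a c = 0) ↔ ∃ ζ, T ζ = a := by
  have hw : ContDiffAt ℝ ∞ w z := L.sm.contDiffAt (L.op.mem_nhds hz)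
  have hhf : ∀ p q : E n, hf (LM w z) p q = levi w z p q := by
    intro p q
    rw [levi_eq_sum hw]
    rfl
  constructor
  · intro h
    obtain ⟨β, hβ⟩ := sol (LM w z) (fun l => conj (S a (e l))) (by
      intro c hc
      have h1 : c ∈ kerL w z := by
        rw [mem_kerL]
        intro b
        rw [← levi_conj L hz b c, ← hhf b c, hc b, map_zero]
      have h2 := h c h1
      rw [Fra_S_sum] at h2
      have h3 := congrArg conj h2
      rw [map_sum, map_zero] at h3
      rw [← h3]
      exact Finset.sum_congr rfl fun l _ => (map_mul _ _ _).symm)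
    have h4 : a = XX w z β := by
      apply S_left_inj
      intro m
      rw [S_X L hz, ← levi_conj L hz β m, ← hhf β m, hβ m, map_sum, Fra_S_sum a m]
      refine Finset.sum_congr rfl fun l _ => ?_
      rw [map_mul, Complex.conj_conj, Complex.conj_conj]
    obtain ⟨ζ, hζ⟩ := hT.2 β
    exact ⟨ζ, by rw [h4, hζ]⟩
  · rintro ⟨ζ, hζ⟩ c hc
    obtain ⟨b, hb, _⟩ := hT.1 ζ
    rw [← hζ, hb, S_X L hz]
    exact (mem_kerL.mp hc) b

theorem frame_rank (L : Loc w U) (hz : z ∈ U) {T : (Fin r → ℂ) →L[ℂ] E n} (hT : IsFrame w z T) :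
    r + Module.finrank ℂ (kerL w z) = 2 * n ∧ r ≤ n := by
  obtain ⟨b, hb, _⟩ := exists_inv L hz hT
  have hon : ∀ j k, levi w z (b j) (b k) = if j = k then 1 else 0 := hb.on
  have hrk : ∀ a c : E n, levi w z a c = ∑ k, levi w z a (b k) * levi w z (b k) c := hb.rk
  have hcard : Module.finrank ℂ (E n) = n + n := by
    rw [Module.finrank_fintype_fun_eq_card, Fintype.card_sum, Fintype.card_fin]
  let Ψ : E n →ₗ[ℂ] (Fin r → ℂ) :=
    { toFun := fun c k => levi w z c (b k)
      map_add' := by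
        intro c c'
        funext k
        exact levi_add_left L hz c c' (b k)
      map_smul' := by
        intro t c
        funext k
        exact levi_smul_left L hz t c (b k) }
  have hker : LinearMap.ker Ψ = kerL w z := by
    ext a
    rw [LinearMap.mem_ker, mem_kerL]
    constructor
    · intro h c
      rw [hrk a c]
      refine Finset.sum_eq_zero fun k _ => ?_
      have h1 : levi w z a (b k) = 0 := congrFun h k
      rw [h1, zero_mul]
    · intro h
      funext k
      exact h (b k)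
  have hrange : LinearMap.range Ψ = ⊤ := by
    rw [LinearMap.range_eq_top]
    intro ζ
    refine ⟨∑ j, ζ j • b j, ?_⟩
    funext k
    show levi w z (∑ j, ζ j • b j) (b k) = ζ k
    rw [levi_sum1, Finset.sum_eq_single k]
    · rw [hon, if_pos rfl, mul_one]
    · intro j _ hj
      rw [hon, if_neg hj, mul_zero]
    · intro h
      exact absurd (Finset.mem_univ k) h
  have h1 := LinearMap.finrank_range_add_finrank_ker Ψ
  rw [hker, hrange, finrank_top, hcard, Module.finrank_fintype_fun_eq_card, Fintype.card_fin] at h1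
  have h2 := knl_ge L hz
  omega

end Pool.Agent.LFC
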