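import Pool.Agent.LFC.Unq

/-!
Glu (size 4): extension of a leaf map by a local one; the maximal leaf map on `Dom`.
`glu`. PROOF. `Ψ = fun t => if t ∈ Ω then Φ t else ψ (t - t₁)` (classical). On the open convex set `Ω ∩ ball t₁ δ ∋ t₁`, `Φ = ψ (· - t₁)` by `unq` (`t ↦ ψ (t - t₁)` is a leaf map on
`ball t₁ δ`: `leafAt_comp` with `V = refl`, `u = -t₁`; derivative at `t₁`: `HasFDerivAt.comp` with the translation). So `Ψ = Φ` on `Ω` and `Ψ = ψ (· - t₁)` on `ball t₁ δ`,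
both open: `Ψ` is a leaf map on `Ω ∪ ball t₁ δ` (`LeafAt` is local: `Filter.EventuallyEq`). The segment from `0` to `s₂ • ξ` is compact and contained in `Ω ∪ ball t₁ δ`
(`t₁ = s₁ • ξ`: points `s • ξ`, `s ≤ s₁`, are in `Ω` by convexity, those with `s₁ ≤ s ≤ s₂` in the ball by convexity of the ball); so is `Metric.thickening ε` of it for some
`ε > 0` (`IsCompact.exists_thickening_subset_open`), which is open, convex (`Convex.thickening`), contains `0` and `s₂ • ξ`. `Good` for `Ψ` on it (`Ψ = Φ` near `0`).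
`dom_map`. PROOF. `Φ t = Φ_t t` with chosen `Good` data. If `Good .. Ω Φ'` and `t ∈ Ω`: `Φ'` and the chosen map for `t` agree on the intersection of their domains (open, convex, contains `0`,
same value and derivative at `0`: `unq`), so `Φ t = Φ' t`; so `Φ = Φ'` on the open set `Ω`, and `Φ` is a leaf map at `t` and has `Φ 0 = x₀`, derivative `T₀`.
`dom_open`: union of open sets. `dom_star`: convexity. `dom_univ`: `Dom = univ` gives a global map.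
-/

open scoped ContDiff ComplexConjugate Topology
open Complex

namespace Pool.Agent.LFC

open Pool.Agent.DTW Pool.Agent.SKF

variable {n r : ℕ} {X : Type*} [TopologicalSpace X] [T2Space X] {ι : Type*} {A : Atlas n X ι}

omit [T2Space X] in
private theorem glu_congr {B : Bundle A} {Φ Ψ : (Fin r → ℂ) → X} {t : Fin r → ℂ}
    (h : Φ =ᶠ[𝓝 t] Ψ) (hL : LeafAt B Ψ t) : LeafAt B Φ t := by
  have e0 : Φ t = Ψ t := h.eq_of_nhds
  refine ⟨hL.1.congr h.symm, fun i hi => ?_⟩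
  rw [e0] at hi
  obtain ⟨T, h1, h2⟩ := hL.2 i hi
  refine ⟨T, h1.congr_of_eventuallyEq (h.fun_comp (A.c i)), ?_⟩
  rw [e0]
  exact h2

omit [T2Space X] in
private theorem glu_trans {B : Bundle A} {ψ : (Fin r → ℂ) → X} {t t₁ : Fin r → ℂ}
    (h : LeafAt B ψ (t - t₁)) : LeafAt B (fun s => ψ (s - t₁)) t := by
  have h1 : -t₁ + LinearEquiv.refl ℂ (Fin r → ℂ) t = t - t₁ := by
    rw [LinearEquiv.refl_apply]
    abel
  have h2 := leafAt_comp B (-t₁) (LinearEquiv.refl ℂ (Fin r → ℂ)) (fun ξ => rfl)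
    (t := t) (Φ := ψ) (by rw [h1]; exact h)
  have h3 : (fun s => ψ (-t₁ + LinearEquiv.refl ℂ (Fin r → ℂ) s)) = fun s => ψ (s - t₁) := by
    funext s
    rw [LinearEquiv.refl_apply]
    congr 1
    abel
  rw [h3] at h2
  exact h2

private theorem glu_agree (B : Bundle A) (L : ∀ i, Loc (B.wt i) (A.c i).target) {i₀ : ι} {x₀ : X}
    (hi : x₀ ∈ (A.c i₀).source) {T₀ : (Fin r → ℂ) →L[ℂ] E n} {Ω Ω' : Set (Fin r → ℂ)}
    {Φ Φ' : (Fin r → ℂ) → X} (hG : Good B i₀ x₀ T₀ Ω Φ) (hG' : Good B i₀ x₀ T₀ Ω' Φ')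
    {t : Fin r → ℂ} (ht : t ∈ Ω) (ht' : t ∈ Ω') : Φ t = Φ' t :=
  unq B L (hG.op.inter hG'.op) (hG.cv.inter hG'.cv) (fun t ht => hG.lf t ht.1)
    (fun t ht => hG'.lf t ht.2) (t₀ := 0) ⟨hG.z0, hG'.z0⟩ (by rw [hG.v0, hG'.v0])
    (i := i₀) (by rw [hG.v0]; exact hi) hG.d0 hG'.d0 t ⟨ht, ht'⟩

theorem glu (B : Bundle A) (L : ∀ i, Loc (B.wt i) (A.c i).target) {i₀ : ι} {x₀ : X}
    {T₀ : (Fin r → ℂ) →L[ℂ] E n} {Ω : Set (Fin r → ℂ)} {Φ : (Fin r → ℂ) → X}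
    (hG : Good B i₀ x₀ T₀ Ω Φ) {ξ : Fin r → ℂ} {s₁ s₂ δ : ℝ} (h0 : 0 ≤ s₁) (h12 : s₁ ≤ s₂)
    (h1 : s₁ • ξ ∈ Ω) (h2 : s₂ • ξ ∈ Metric.ball (s₁ • ξ) δ) {ψ : (Fin r → ℂ) → X}
    (hψ : ∀ t ∈ Metric.ball (0 : Fin r → ℂ) δ, LeafAt B ψ t) (hv : ψ 0 = Φ (s₁ • ξ)) {i : ι}
    (hi : Φ (s₁ • ξ) ∈ (A.c i).source) {T : (Fin r → ℂ) →L[ℂ] E n}
    (hT : HasFDerivAt (𝕜 := ℂ) (A.c i ∘ Φ) T (s₁ • ξ))
    (hT' : HasFDerivAt (𝕜 := ℂ) (A.c i ∘ ψ) T 0) : s₂ • ξ ∈ Dom B i₀ x₀ T₀ := by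
  classical
  obtain ⟨t₁, ht₁⟩ : ∃ t₁ : Fin r → ℂ, t₁ = s₁ • ξ := ⟨_, rfl⟩
  rw [← ht₁] at h1 h2 hv hi hT
  have hδ : 0 < δ := lt_of_le_of_lt dist_nonneg (Metric.mem_ball.1 h2)
  obtain ⟨V, hV⟩ : ∃ V : Set (Fin r → ℂ), V = Metric.ball t₁ δ := ⟨_, rfl⟩
  have hVo : IsOpen V := by rw [hV]; exact Metric.isOpen_ball
  have hVc : Convex ℝ V := by rw [hV]; exact convex_ball _ _
  have hV1 : t₁ ∈ V := by rw [hV]; exact Metric.mem_ball_self hδ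
  have hVL : ∀ t ∈ V, LeafAt B (fun s => ψ (s - t₁)) t := by
    intro t ht
    refine glu_trans (hψ _ ?_)
    rw [hV, Metric.mem_ball, dist_eq_norm] at ht
    rw [mem_ball_zero_iff]
    exact ht
  have hag : ∀ t ∈ Ω ∩ V, Φ t = ψ (t - t₁) := by
    refine unq B L (hG.op.inter hVo) (hG.cv.inter hVc) (fun t ht => hG.lf t ht.1)
      (fun t ht => hVL t ht.2) (Ψ := fun s => ψ (s - t₁)) (t₀ := t₁) ⟨h1, hV1⟩ ?_ hi hT ?_
    · simp only [sub_self]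
      exact hv.symm
    · have h3 : HasFDerivAt (𝕜 := ℂ) (A.c i ∘ ψ) T (t₁ - t₁) := by
        rw [sub_self]
        exact hT'
      exact (hasFDerivAt_comp_sub (𝕜 := ℂ) (f := A.c i ∘ ψ) t₁).2 h3
  obtain ⟨Ψ, hΨ⟩ : ∃ Ψ : (Fin r → ℂ) → X, Ψ = fun t => if t ∈ Ω then Φ t else ψ (t - t₁) :=
    ⟨_, rfl⟩
  have hΨ1 : ∀ t ∈ Ω, Ψ t = Φ t := fun t ht => by rw [hΨ]; exact if_pos ht
  have hΨ2 : ∀ t ∈ V, Ψ t = ψ (t - t₁) := by
    intro t ht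
    by_cases h : t ∈ Ω
    · rw [hΨ1 t h, hag t ⟨h, ht⟩]
    · rw [hΨ]
      exact if_neg h
  have hL : ∀ t ∈ Ω ∪ V, LeafAt B Ψ t := by
    rintro t (ht | ht)
    · refine glu_congr ?_ (hG.lf t ht)
      filter_upwards [hG.op.mem_nhds ht] with u hu using hΨ1 u hu
    · refine glu_congr ?_ (hVL t ht)
      filter_upwards [hVo.mem_nhds ht] with u hu using hΨ2 u hu
  -- the segment
  obtain ⟨f, hf⟩ : ∃ f : ℝ →ₗ[ℝ] (Fin r → ℂ), ∀ s, f s = s • ξ :=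
    ⟨LinearMap.toSpanSingleton ℝ _ ξ, fun s => LinearMap.toSpanSingleton_apply ℝ _ _ _⟩
  have hfc : Continuous f := LinearMap.continuous_of_finiteDimensional f
  have hKc : IsCompact (f '' Set.Icc 0 s₂) := isCompact_Icc.image hfc
  have hKv : Convex ℝ (f '' Set.Icc 0 s₂) := (convex_Icc 0 s₂).linear_image f
  have hs0 : 0 ≤ s₂ := h0.trans h12
  have hK : f '' Set.Icc 0 s₂ ⊆ Ω ∪ V := by
    rintro _ ⟨s, hs, rfl⟩
    by_cases hss : s ≤ s₁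
    · left
      have c1 : Convex ℝ (f ⁻¹' Ω) := hG.cv.linear_preimage f
      have m0 : (0 : ℝ) ∈ f ⁻¹' Ω := by
        rw [Set.mem_preimage, map_zero]
        exact hG.z0
      have m1 : s₁ ∈ f ⁻¹' Ω := by
        rw [Set.mem_preimage, hf, ← ht₁]
        exact h1
      exact c1.ordConnected.out m0 m1 ⟨hs.1, hss⟩
    · right
      have c1 : Convex ℝ (f ⁻¹' V) := hVc.linear_preimage f
      have m1 : s₁ ∈ f ⁻¹' V := by
        rw [Set.mem_preimage, hf, ← ht₁]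
        exact hV1
      have m2 : s₂ ∈ f ⁻¹' V := by
        rw [Set.mem_preimage, hf, hV]
        exact h2
      exact c1.ordConnected.out m1 m2 ⟨(not_le.1 hss).le, hs.2⟩
  obtain ⟨ε, hε, hsub⟩ := hKc.exists_thickening_subset_open (hG.op.union hVo) hK
  have hin : ∀ s ∈ Set.Icc 0 s₂, f s ∈ Metric.thickening ε (f '' Set.Icc 0 s₂) := fun s hs =>
    Metric.self_subset_thickening hε _ ⟨s, hs, rfl⟩
  have m0 : (0 : Fin r → ℂ) ∈ Metric.thickening ε (f '' Set.Icc 0 s₂) := by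
    have h3 := hin 0 ⟨le_rfl, hs0⟩
    rw [map_zero] at h3
    exact h3
  refine ⟨Metric.thickening ε (f '' Set.Icc 0 s₂), Ψ,
    ⟨Metric.isOpen_thickening, hKv.thickening ε, m0, fun t ht => hL t (hsub ht), ?_, ?_⟩, ?_⟩
  · rw [hΨ1 0 hG.z0, hG.v0]
  · refine hG.d0.congr_of_eventuallyEq ?_
    filter_upwards [hG.op.mem_nhds hG.z0] with u hu
    simp only [Function.comp_apply]
    rw [hΨ1 u hu]
  · have h3 := hin s₂ ⟨hs0, le_rfl⟩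
    rw [hf] at h3
    exact h3

theorem dom_map (B : Bundle A) (L : ∀ i, Loc (B.wt i) (A.c i).target) {i₀ : ι} {x₀ : X}
    (hi : x₀ ∈ (A.c i₀).source) {T₀ : (Fin r → ℂ) →L[ℂ] E n}
    (hne : (0 : Fin r → ℂ) ∈ Dom B i₀ x₀ T₀) :
    ∃ Φ : (Fin r → ℂ) → X, (∀ t ∈ Dom B i₀ x₀ T₀, LeafAt B Φ t) ∧ Φ 0 = x₀ ∧
      HasFDerivAt (𝕜 := ℂ) (A.c i₀ ∘ Φ) T₀ 0 ∧
      ∀ Ω Φ', Good B i₀ x₀ T₀ Ω Φ' → ∀ t ∈ Ω, Φ t = Φ' t := by
  classical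
  have hch : ∀ t : Fin r → ℂ, ∃ (Ω : Set (Fin r → ℂ)) (Φ : (Fin r → ℂ) → X),
      t ∈ Dom B i₀ x₀ T₀ → Good B i₀ x₀ T₀ Ω Φ ∧ t ∈ Ω := by
    intro t
    by_cases ht : t ∈ Dom B i₀ x₀ T₀
    · obtain ⟨Ω, Φ, h⟩ := ht
      exact ⟨Ω, Φ, fun _ => h⟩
    · exact ⟨∅, fun _ => x₀, fun h => absurd h ht⟩
  choose Ωc Φc hc using hch
  have key : ∀ Ω Φ', Good B i₀ x₀ T₀ Ω Φ' → ∀ t ∈ Ω, Φc t t = Φ' t := by
    intro Ω Φ' hG t ht
    have hd : t ∈ Dom B i₀ x₀ T₀ := ⟨Ω, Φ', hG, ht⟩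
    exact glu_agree B L hi (hc t hd).1 hG (hc t hd).2 ht
  refine ⟨fun t => Φc t t, ?_, ?_, ?_, key⟩
  · intro t ht
    obtain ⟨hG, hm⟩ := hc t ht
    refine glu_congr ?_ (hG.lf t hm)
    filter_upwards [hG.op.mem_nhds hm] with u hu using key _ _ hG u hu
  · obtain ⟨hG, hm⟩ := hc 0 hne
    exact (key _ _ hG 0 hm).trans hG.v0
  · obtain ⟨hG, hm⟩ := hc 0 hne
    refine hG.d0.congr_of_eventuallyEq ?_
    filter_upwards [hG.op.mem_nhds hm] with u hu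
    simp only [Function.comp_apply]
    rw [key _ _ hG u hu]

theorem dom_open (B : Bundle A) (i₀ : ι) (x₀ : X) (T₀ : (Fin r → ℂ) →L[ℂ] E n) :
    IsOpen (Dom B i₀ x₀ T₀) := by
  rw [isOpen_iff_mem_nhds]
  rintro t ⟨Ω, Φ, hG, ht⟩
  exact Filter.mem_of_superset (hG.op.mem_nhds ht) fun u hu => ⟨Ω, Φ, hG, hu⟩

theorem dom_star (B : Bundle A) (i₀ : ι) (x₀ : X) (T₀ : (Fin r → ℂ) →L[ℂ] E n)
    {t : Fin r → ℂ} (ht : t ∈ Dom B i₀ x₀ T₀) {s : ℝ} (h0 : 0 ≤ s) (h1 : s ≤ 1) :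
    s • t ∈ Dom B i₀ x₀ T₀ := by
  obtain ⟨Ω, Φ, hG, hm⟩ := ht
  exact ⟨Ω, Φ, hG, hG.cv.smul_mem_of_zero_mem hG.z0 hm ⟨h0, h1⟩⟩

end Pool.Agent.LFC
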