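import Pool.Agent.LFC.Defs

/-!
Hrr (size 3): complex differentiable maps on open subsets of `ℂ^r` are smooth (copy of BOC/Hsm.lean with the index type
`Fin r` instead of `Ix n`).
PROOF. Pool/Agent/BOC/Hsm.lean (in origin/main, landed) proves for `f : E n → ℂ`, `E n = Ix n → ℂ`: `DifferentiableOn ℂ f U`
implies `ContDiffOn ℂ ∞ f U` (inside `hol_smooth`; the private lemmas `Hsm_clm`, `Hsm_norm_le`, `Hsm_line`, `Hsm_key`, `Hsm_nat`).
Copy that file, replace `E n` by `Fin r → ℂ`, `e p` by `Pi.single p 1` (`vec_eq_sum` by `pi_eq_sum_univ`-type lemma) and rename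
the private lemmas `Hrr_..`. Then `hrr` componentwise (`contDiffOn_pi`), `differentiableOn_pi`. `hrr_fd`: `fderiv ℂ φ` is
`ContDiffOn ℂ ∞` on `N` (`ContDiffOn.fderiv_of_isOpen`), apply it to `ζ`.
-/

open scoped ContDiff ComplexConjugate Topology
open Complex

namespace Pool.Agent.LFC

open Pool.Agent.DTW Pool.Agent.SKF

variable {n r : ℕ}

section aux

variable {d : ℕ} {U : Set (Fin d → ℂ)}

private def Hrr_e (p : Fin d) : Fin d → ℂ := Pi.single p 1

private theorem Hrr_vec (a : Fin d → ℂ) : a = ∑ k, a k • (Hrr_e k : Fin d → ℂ) := by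
  funext j
  simp [Hrr_e, Finset.sum_apply, Pi.single_apply]

private theorem Hrr_norm_e (p : Fin d) : ‖(Hrr_e p : (Fin d → ℂ))‖ = 1 := by
  unfold Hrr_e
  rw [Pi.norm_single, norm_one]

private theorem Hrr_clm (T : (Fin d → ℂ) →L[ℂ] ℂ) :
    T = ∑ q : Fin d, T (Hrr_e q) • (ContinuousLinearMap.proj (R := ℂ) (φ := fun _ : Fin d => ℂ) q) := by
  ext a
  conv_lhs => rw [Hrr_vec a, map_sum]
  rw [_root_.sum_apply]
  refine Finset.sum_congr rfl (fun q _ => ?_)
  rw [map_smul, _root_.smul_apply, ContinuousLinearMap.proj_apply, smul_eq_mul,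
    smul_eq_mul, mul_comm]

private theorem Hrr_norm_le (T : (Fin d → ℂ) →L[ℂ] ℂ) (B : ℝ) (hB : ∀ q, ‖T (Hrr_e q)‖ ≤ B) :
    ‖T‖ ≤ Fintype.card (Fin d) * B := by
  have hB0 : 0 ≤ (Fintype.card (Fin d) : ℝ) * B := by
    rcases isEmpty_or_nonempty (Fin d) with h | ⟨⟨q⟩⟩
    · simp
    · exact mul_nonneg (Nat.cast_nonneg _) ((norm_nonneg _).trans (hB q))
  refine ContinuousLinearMap.opNorm_le_bound _ hB0 (fun a => ?_)
  conv_lhs => rw [Hrr_vec a, map_sum]
  refine (norm_sum_le _ _).trans ?_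
  have h1 : ∀ q ∈ Finset.univ, ‖T (a q • Hrr_e q)‖ ≤ B * ‖a‖ := by
    intro q _
    rw [map_smul, norm_smul, mul_comm]
    exact mul_le_mul (hB q) (norm_le_pi_norm a q) (norm_nonneg _) ((norm_nonneg _).trans (hB q))
  refine (Finset.sum_le_sum h1).trans ?_
  rw [Finset.sum_const, nsmul_eq_mul, Finset.card_univ, mul_assoc]

/-- the restriction to a line -/
private theorem Hrr_line {f : (Fin d → ℂ) → ℂ} (hf : DifferentiableOn ℂ f U) (hU : IsOpen U) (y : (Fin d → ℂ))
    (p : Fin d) (t : ℂ) (h : y + t • Hrr_e p ∈ U) :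
    HasDerivAt (fun s : ℂ => f (y + s • Hrr_e p)) (fderiv ℂ f (y + t • Hrr_e p) (Hrr_e p)) t := by
  have h1 : HasFDerivAt f (fderiv ℂ f (y + t • Hrr_e p)) (y + t • Hrr_e p) :=
    ((hf _ h).differentiableAt (hU.mem_nhds h)).hasFDerivAt
  have h2 : HasDerivAt (fun s : ℂ => y + s • (Hrr_e p : (Fin d → ℂ))) (Hrr_e p) t := by
    have := ((hasDerivAt_id t).smul_const (Hrr_e p : (Fin d → ℂ))).const_add y
    simpa using this
  exact h1.comp_hasDerivAt t h2

private theorem Hrr_key {f : (Fin d → ℂ) → ℂ} (hU : IsOpen U) (hf : DifferentiableOn ℂ f U) (p : Fin d) :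
    DifferentiableOn ℂ (fun y => fderiv ℂ f y (Hrr_e p)) U := by
  intro y0 hy0
  obtain ⟨ε, hε, hεU⟩ := Metric.isOpen_iff.1 hU y0 hy0
  obtain ⟨r, hr⟩ : ∃ r : ℝ, r = ε / 8 := ⟨_, rfl⟩
  have hr0 : 0 < r := by rw [hr]; linarith
  have hK : Metric.closedBall y0 (4 * r) ⊆ U := by
    intro y hy
    apply hεU
    rw [Metric.mem_closedBall] at hy
    rw [Metric.mem_ball]
    linarith
  have hcont : ContinuousOn f U := hf.continuousOn
  obtain ⟨M, hM⟩ := (isCompact_closedBall y0 (4 * r)).exists_bound_of_continuousOn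
    (hcont.mono hK)
  have hstep : ∀ (y : (Fin d → ℂ)) (q : Fin d) (t : ℂ) (ρ : ℝ), y ∈ Metric.closedBall y0 ρ → ‖t‖ ≤ 2 * r →
      y + t • Hrr_e q ∈ Metric.closedBall y0 (ρ + 2 * r) := by
    intro y q t ρ hy ht
    rw [Metric.mem_closedBall, dist_eq_norm] at hy ⊢
    have h1 : y + t • (Hrr_e q : (Fin d → ℂ)) - y0 = (y - y0) + t • Hrr_e q := by abel
    rw [h1]
    refine (norm_add_le _ _).trans (add_le_add hy ?_)
    rw [norm_smul, Hrr_norm_e, mul_one]
    exact ht
  -- bound of the derivative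
  have hder : ∀ y ∈ Metric.closedBall y0 (2 * r), ‖fderiv ℂ f y‖ ≤ Fintype.card (Fin d) * (M / r) := by
    intro y hy
    refine Hrr_norm_le _ _ (fun q => ?_)
    have hmem : ∀ t : ℂ, ‖t‖ ≤ 2 * r → y + t • (Hrr_e q : (Fin d → ℂ)) ∈ Metric.closedBall y0 (4 * r) := by
      intro t ht
      have := hstep y q t (2 * r) hy ht
      rwa [show 2 * r + 2 * r = 4 * r by ring] at this
    have h1 : DiffContOnCl ℂ (fun s : ℂ => f (y + s • Hrr_e q)) (Metric.ball 0 r) := by
      apply DifferentiableOn.diffContOnCl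
      intro t ht
      have ht' : ‖t‖ ≤ 2 * r := by
        have := Metric.closure_ball_subset_closedBall ht
        rw [mem_closedBall_zero_iff] at this
        linarith
      exact (Hrr_line hf hU y q t (hK (hmem t ht'))).differentiableAt.differentiableWithinAt
    have h2 := Complex.norm_deriv_le_of_forall_mem_sphere_norm_le hr0 h1 (C := M) (fun t ht => by
      rw [mem_sphere_zero_iff_norm] at ht
      exact hM _ (hmem t (by rw [ht]; linarith)))
    have h3 := (Hrr_line hf hU y q 0 (hK (hmem 0 (by rw [norm_zero]; linarith)))).deriv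
    rw [h3, zero_smul, add_zero] at h2
    exact h2
  -- the Cauchy formula
  have hcau : ∀ y ∈ Metric.ball y0 r, fderiv ℂ f y (Hrr_e p) =
      (2 * Real.pi * I : ℂ)⁻¹ • ∮ t in C(0, r), ((t - 0) ^ 2)⁻¹ • f (y + t • Hrr_e p) := by
    intro y hy
    have hy' : y ∈ Metric.closedBall y0 (2 * r) :=
      Metric.closedBall_subset_closedBall (by linarith) (Metric.ball_subset_closedBall hy)
    have hmem : ∀ t : ℂ, ‖t‖ ≤ 2 * r → y + t • (Hrr_e p : (Fin d → ℂ)) ∈ U := by
      intro t ht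
      have := hstep y p t (2 * r) hy' ht
      rw [show 2 * r + 2 * r = 4 * r by ring] at this
      exact hK this
    have h1 := two_pi_I_inv_smul_circleIntegral_sub_sq_inv_smul_of_differentiable
      (U := Metric.ball (0 : ℂ) (2 * r)) Metric.isOpen_ball (c := 0) (w₀ := 0) (R := r)
      (f := fun s : ℂ => f (y + s • Hrr_e p)) (Metric.closedBall_subset_ball (by linarith))
      (fun t ht => (Hrr_line hf hU y p t (hmem t (by
        rw [mem_ball_zero_iff] at ht; exact ht.le))).differentiableAt.differentiableWithinAt)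
      (Metric.mem_ball_self hr0)
    have h3 := (Hrr_line hf hU y p 0 (hmem 0 (by rw [norm_zero]; linarith))).deriv
    rw [h3, zero_smul, add_zero] at h1
    exact h1.symm
  -- differentiation under the integral
  have hcm : ∀ θ : ℝ, ‖circleMap 0 r θ‖ = r := fun θ => by
    rw [norm_circleMap_zero, abs_of_pos hr0]
  have hmemθ : ∀ y ∈ Metric.ball y0 r, ∀ θ : ℝ,
      y + circleMap 0 r θ • (Hrr_e p : (Fin d → ℂ)) ∈ Metric.closedBall y0 (2 * r) := by
    intro y hy θ
    rw [Metric.mem_ball, dist_eq_norm] at hy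
    rw [Metric.mem_closedBall, dist_eq_norm]
    have h1 : y + circleMap 0 r θ • (Hrr_e p : (Fin d → ℂ)) - y0 = (y - y0) + circleMap 0 r θ • Hrr_e p := by abel
    rw [h1]
    refine (norm_add_le _ _).trans ?_
    rw [norm_smul, Hrr_norm_e, mul_one, hcm]
    linarith
  have hKU : Metric.closedBall y0 (2 * r) ⊆ U :=
    (Metric.closedBall_subset_closedBall (by linarith)).trans hK
  obtain ⟨c, hc⟩ : ∃ c : ℝ → ℂ, c = fun θ => deriv (circleMap 0 r) θ * ((circleMap 0 r θ) ^ 2)⁻¹ :=
    ⟨_, rfl⟩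
  have hcc : Continuous c := by
    rw [hc]
    have h1 : ∀ θ : ℝ, circleMap 0 r θ ≠ 0 := fun θ h => by
      have := hcm θ
      rw [h, norm_zero] at this
      linarith
    simp only [deriv_circleMap]
    exact ((continuous_circleMap 0 r).mul continuous_const).mul
      (((continuous_circleMap 0 r).pow 2).inv₀ (fun θ => pow_ne_zero 2 (h1 θ)))
  have hcn : ∀ θ, ‖c θ‖ = 1 / r := by
    intro θ
    rw [hc]
    simp only [deriv_circleMap, norm_mul, norm_inv, norm_pow, hcm, Complex.norm_I, mul_one]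
    field_simp
  have hline : Continuous (fun θ : ℝ => circleMap 0 r θ • (Hrr_e p : (Fin d → ℂ))) :=
    (continuous_circleMap 0 r).smul continuous_const
  have hcontF : ∀ y ∈ Metric.ball y0 r,
      Continuous (fun θ : ℝ => c θ * f (y + circleMap 0 r θ • Hrr_e p)) := by
    intro y hy
    refine hcc.mul ?_
    exact hcont.comp_continuous (continuous_const.add hline) (fun θ => hKU (hmemθ y hy θ))
  have hmeas : Measurable (fun θ : ℝ => (y0 + circleMap 0 r θ • (Hrr_e p : (Fin d → ℂ)))) :=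
    (continuous_const.add hline).measurable
  have hmain : HasFDerivAt (fun y => ∫ θ in (0 : ℝ)..(2 * Real.pi), c θ * f (y + circleMap 0 r θ • Hrr_e p))
      (∫ θ in (0 : ℝ)..(2 * Real.pi), c θ • fderiv ℂ f (y0 + circleMap 0 r θ • Hrr_e p)) y0 := by
    refine intervalIntegral.hasFDerivAt_integral_of_dominated_of_fderiv_le
      (F := fun y θ => c θ * f (y + circleMap 0 r θ • Hrr_e p))
      (F' := fun y θ => c θ • fderiv ℂ f (y + circleMap 0 r θ • Hrr_e p))
      (bound := fun _ => 1 / r * (Fintype.card (Fin d) * (M / r)))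
      (Metric.ball_mem_nhds y0 hr0) ?_ ?_ ?_ ?_ ?_ ?_
    · filter_upwards [Metric.ball_mem_nhds y0 hr0] with y hy
      exact (hcontF y hy).aestronglyMeasurable
    · exact (hcontF y0 (Metric.mem_ball_self hr0)).intervalIntegrable _ _
    · have h1 : (fun θ : ℝ => c θ • fderiv ℂ f (y0 + circleMap 0 r θ • Hrr_e p)) =
          fun θ : ℝ => ∑ q : Fin d, (c θ * fderiv ℂ f (y0 + circleMap 0 r θ • Hrr_e p) (Hrr_e q)) •
            (ContinuousLinearMap.proj (R := ℂ) (φ := fun _ : Fin d => ℂ) q) := by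
        funext θ
        rw [Hrr_clm (c θ • fderiv ℂ f (y0 + circleMap 0 r θ • Hrr_e p))]
        rfl
      show MeasureTheory.AEStronglyMeasurable
        (fun θ : ℝ => c θ • fderiv ℂ f (y0 + circleMap 0 r θ • Hrr_e p)) _
      rw [h1]
      refine Finset.aestronglyMeasurable_fun_sum _ (fun q _ => ?_)
      have h2 : Measurable (fun θ : ℝ => c θ * fderiv ℂ f (y0 + circleMap 0 r θ • Hrr_e p) (Hrr_e q)) :=
        hcc.measurable.mul ((measurable_fderiv_apply_const ℂ f (Hrr_e q)).comp hmeas)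
      exact (h2.aestronglyMeasurable).smul_const _
    · refine Filter.Eventually.of_forall (fun θ _ y hy => ?_)
      rw [norm_smul, hcn]
      exact mul_le_mul_of_nonneg_left (hder _ (hmemθ y hy θ)) (by positivity)
    · exact intervalIntegrable_const
    · refine Filter.Eventually.of_forall (fun θ _ y hy => ?_)
      have h1 : HasFDerivAt f (fderiv ℂ f (y + circleMap 0 r θ • Hrr_e p))
          (y + circleMap 0 r θ • Hrr_e p) :=
        ((hf _ (hKU (hmemθ y hy θ))).differentiableAt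
          (hU.mem_nhds (hKU (hmemθ y hy θ)))).hasFDerivAt
      have h2 : HasFDerivAt (fun y : (Fin d → ℂ) => y + circleMap 0 r θ • (Hrr_e p : (Fin d → ℂ)))
          (ContinuousLinearMap.id ℂ ((Fin d → ℂ))) y := (hasFDerivAt_id y).add_const _
      have h3 := h1.comp y h2
      rw [ContinuousLinearMap.comp_id] at h3
      exact h3.const_mul (c θ)
  have hdiff : DifferentiableAt ℂ (fun y => (2 * Real.pi * I : ℂ)⁻¹ •
      ∫ θ in (0 : ℝ)..(2 * Real.pi), c θ * f (y + circleMap 0 r θ • Hrr_e p)) y0 :=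
    hmain.differentiableAt.const_smul ((2 * Real.pi * I : ℂ)⁻¹)
  refine DifferentiableAt.differentiableWithinAt ?_
  refine hdiff.congr_of_eventuallyEq ?_
  filter_upwards [Metric.ball_mem_nhds y0 hr0] with y hy
  rw [hcau y hy]
  congr 1
  unfold circleIntegral
  refine intervalIntegral.integral_congr (fun θ _ => ?_)
  rw [hc]
  simp only [sub_zero, smul_eq_mul]
  ring

private theorem Hrr_nat (hU : IsOpen U) (m : ℕ) : ∀ f : (Fin d → ℂ) → ℂ, DifferentiableOn ℂ f U →
    ContDiffOn ℂ m f U := by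
  induction m with
  | zero =>
    intro f hf
    exact contDiffOn_zero.2 hf.continuousOn
  | succ m ih =>
    intro f hf
    have h1 : ((m + 1 : ℕ) : WithTop ℕ∞) = (m : WithTop ℕ∞) + 1 := by push_cast; rfl
    rw [h1, contDiffOn_succ_iff_fderiv_of_isOpen hU]
    refine ⟨hf, fun h => absurd h (by simp), ?_⟩
    have h2 : (fderiv ℂ f) = fun y => ∑ q : Fin d, (fderiv ℂ f y (Hrr_e q)) •
        (ContinuousLinearMap.proj (R := ℂ) (φ := fun _ : Fin d => ℂ) q) := by
      funext y
      exact Hrr_clm _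
    rw [h2]
    exact ContDiffOn.sum (fun q _ => (ih _ (Hrr_key hU hf q)).smul contDiffOn_const)

end aux

theorem hrr {N : Set (Fin r → ℂ)} (hN : IsOpen N) {φ : (Fin r → ℂ) → E n}
    (hφ : DifferentiableOn ℂ φ N) : ContDiffOn ℂ ∞ φ N := by
  rw [contDiffOn_pi]
  intro p
  exact contDiffOn_infty.2 (fun m => Hrr_nat hN m _ (differentiableOn_pi.1 hφ p))

theorem hrr_fd {N : Set (Fin r → ℂ)} (hN : IsOpen N) {φ : (Fin r → ℂ) → E n}
    (hφ : DifferentiableOn ℂ φ N) (ζ : Fin r → ℂ) :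
    ContDiffOn ℂ ∞ (fun t => fderiv ℂ φ t ζ) N := by
  have h1 : ContDiffOn ℂ ∞ (fderiv ℂ φ) N := (hrr hN hφ).fderiv_of_isOpen hN (by simp)
  exact h1.clm_apply contDiffOn_const

end Pool.Agent.LFC
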