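import Pool.Agent.LFC.Drv

/-!
IvA (size 4): orthonormality is preserved along the solutions of the leaf system.
PROOF. `γ s = (z, b)`, `v = XX w z (bx b ξ)`, `W j l = T3 w z v (b j) (b l)`, `G j k = levi w z (b j) (b k)`. Components of
`hγ`: `z' = v`, `(b j)' = -∑ l, W j l • b l` (`velL_apply`, `HasDerivWithinAt` of components). `drv_levi`:
`(G j k)' = W j k + conj (W k j) - ∑ l, W j l * G l k - ∑ l, conj (W k l) * G j l`
(`levi_sum1`, `levi_sum2`). With `D j k = (if j = k then 1 else 0) - G j k`: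
`(D j k)' = -∑ l, W j l * D l k - ∑ l, conj (W k l) * D j l`. `W j l` is continuous on `Icc 0 1` (composition of the
continuous `T3`; e.g. `T3_eq_sum` or `smo_T3`), bounded by `C`: `‖D'‖ ≤ 2 r C ‖D‖` (sup norm of `Fin r → Fin r → ℂ`) and
`D 0 = 0`, so `D = 0` on `Icc 0 1` (`norm_le_gronwallBound_of_norm_deriv_right_le` with `δ = ε = 0`,
`gronwallBound_ε0`/`gronwallBound_x0`).
-/

open scoped ContDiff ComplexConjugate Topology
open Complex

namespace Pool.Agent.LFC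

open Pool.Agent.DTW Pool.Agent.SKF

variable {n r : ℕ} {U : Set (E n)} {w : E n → ℝ}

/-- the matrix `W` along the curve -/
private noncomputable def ivA_W (w : E n → ℝ) (γ : ℝ → E n × (Fin r → E n)) (ξ : Fin r → ℂ)
    (j l : Fin r) (s : ℝ) : ℂ :=
  T3 w (γ s).1 (XX w (γ s).1 (bx (γ s).2 ξ)) ((γ s).2 j) ((γ s).2 l)

private theorem ivA_fst {γ : ℝ → E n × (Fin r → E n)} {ξ : Fin r → ℂ} {s : ℝ}
    (h : HasDerivWithinAt γ (velL w (γ s) ξ) (Set.Icc 0 1) s) :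
    HasDerivWithinAt (fun σ => (γ σ).1) (XX w (γ s).1 (bx (γ s).2 ξ)) (Set.Icc 0 1) s := by
  have h1 := (ContinuousLinearMap.fst ℝ (E n) (Fin r → E n)).hasFDerivAt.comp_hasDerivWithinAt s h
  exact h1

private theorem ivA_snd {γ : ℝ → E n × (Fin r → E n)} {ξ : Fin r → ℂ} {s : ℝ}
    (h : HasDerivWithinAt γ (velL w (γ s) ξ) (Set.Icc 0 1) s) (j : Fin r) :
    HasDerivWithinAt (fun σ => (γ σ).2 j) (∑ l, (-ivA_W w γ ξ j l s) • (γ s).2 l)
      (Set.Icc 0 1) s := by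
  have h1 := ((ContinuousLinearMap.proj (R := ℝ) (φ := fun _ : Fin r => E n) j).comp
    (ContinuousLinearMap.snd ℝ (E n) (Fin r → E n))).hasFDerivAt.comp_hasDerivWithinAt s h
  have h2 : ((ContinuousLinearMap.proj (R := ℝ) (φ := fun _ : Fin r => E n) j).comp
    (ContinuousLinearMap.snd ℝ (E n) (Fin r → E n))) (velL w (γ s) ξ)
      = ∑ l, (-ivA_W w γ ξ j l s) • (γ s).2 l := by
    show -∑ l, T3 w (γ s).1 (XX w (γ s).1 (bx (γ s).2 ξ)) ((γ s).2 j) ((γ s).2 l) • (γ s).2 l = _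
    rw [← Finset.sum_neg_distrib]
    refine Finset.sum_congr rfl fun l _ => ?_
    rw [neg_smul]
    rfl
  rw [h2] at h1
  exact h1

private theorem ivA_bx {γ : ℝ → E n × (Fin r → E n)} {ξ : Fin r → ℂ} {s : ℝ}
    (h : HasDerivWithinAt γ (velL w (γ s) ξ) (Set.Icc 0 1) s) :
    ∃ b' : E n, HasDerivWithinAt (fun σ => bx (γ σ).2 ξ) b' (Set.Icc 0 1) s := by
  refine ⟨∑ i, conj (ξ i) • (∑ l, (-ivA_W w γ ξ i l s) • (γ s).2 l), ?_⟩
  have h1 : HasDerivWithinAt (fun σ => ∑ i, conj (ξ i) • (γ σ).2 i)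
      (∑ i, conj (ξ i) • (∑ l, (-ivA_W w γ ξ i l s) • (γ s).2 l)) (Set.Icc 0 1) s := by
    refine HasDerivWithinAt.fun_sum fun i _ => ?_
    exact (ivA_snd h i).const_smul (conj (ξ i))
  exact h1

private theorem ivA_cont (L : Loc w U) {γ : ℝ → E n × (Fin r → E n)} {ξ : Fin r → ℂ}
    (hU : ∀ s ∈ Set.Icc (0 : ℝ) 1, (γ s).1 ∈ U)
    (hγ : ∀ s ∈ Set.Icc (0 : ℝ) 1, HasDerivWithinAt γ (velL w (γ s) ξ) (Set.Icc 0 1) s)
    (j l : Fin r) : ContinuousOn (ivA_W w γ ξ j l) (Set.Icc 0 1) := by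
  intro s hs
  obtain ⟨b', hb'⟩ := ivA_bx (hγ s hs)
  obtain ⟨G, hG, -⟩ := drv_XX L (z := fun σ => (γ σ).1) (b := fun σ => bx (γ σ).2 ξ)
    (hU s hs) (ivA_fst (hγ s hs)) hb'
  have h := drv_T3 L (z := fun σ => (γ σ).1) (v := fun σ => XX w (γ σ).1 (bx (γ σ).2 ξ))
    (a := fun σ => (γ σ).2 j) (l := fun σ => (γ σ).2 l) (hU s hs) (ivA_fst (hγ s hs)) hG
    (ivA_snd (hγ s hs) j) (ivA_snd (hγ s hs) l)
  exact h.continuousWithinAt

private theorem ivA_drv (L : Loc w U) {γ : ℝ → E n × (Fin r → E n)} {ξ : Fin r → ℂ} {s : ℝ}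
    (hU : (γ s).1 ∈ U) (hγ : HasDerivWithinAt γ (velL w (γ s) ξ) (Set.Icc 0 1) s)
    (j k : Fin r) :
    HasDerivWithinAt (fun σ => (if j = k then (1 : ℂ) else 0)
        - levi w (γ σ).1 ((γ σ).2 j) ((γ σ).2 k))
      (-(∑ l, ivA_W w γ ξ j l s * ((if l = k then (1 : ℂ) else 0)
          - levi w (γ s).1 ((γ s).2 l) ((γ s).2 k)))
        - ∑ l, conj (ivA_W w γ ξ k l s) * ((if j = l then (1 : ℂ) else 0)
          - levi w (γ s).1 ((γ s).2 j) ((γ s).2 l))) (Set.Icc 0 1) s := by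
  have h := drv_levi L (z := fun σ => (γ σ).1) (a := fun σ => (γ σ).2 j)
    (l := fun σ => (γ σ).2 k) hU (ivA_fst hγ) (ivA_snd hγ j) (ivA_snd hγ k)
  have h2 := h.const_sub (if j = k then (1 : ℂ) else 0)
  refine h2.congr_deriv ?_
  rw [levi_sum1, levi_sum2 L hU]
  simp only [mul_sub, Finset.sum_sub_distrib, mul_ite, mul_one, mul_zero, Finset.sum_ite_eq',
    Finset.sum_ite_eq, Finset.mem_univ, if_true, map_neg, neg_mul, Finset.sum_neg_distrib]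
  simp only [ivA_W]
  ring

theorem ivA (L : Loc w U) {γ : ℝ → E n × (Fin r → E n)} {ξ : Fin r → ℂ}
    (hU : ∀ s ∈ Set.Icc (0 : ℝ) 1, (γ s).1 ∈ U)
    (hγ : ∀ s ∈ Set.Icc (0 : ℝ) 1, HasDerivWithinAt γ (velL w (γ s) ξ) (Set.Icc 0 1) s)
    (h0 : ∀ j k, levi w (γ 0).1 ((γ 0).2 j) ((γ 0).2 k) = if j = k then 1 else 0) :
    ∀ s ∈ Set.Icc (0 : ℝ) 1, ∀ j k,
      levi w (γ s).1 ((γ s).2 j) ((γ s).2 k) = if j = k then 1 else 0 := by
  have hC : ∃ C : ℝ, 0 ≤ C ∧ ∀ j l, ∀ s ∈ Set.Icc (0 : ℝ) 1, ‖ivA_W w γ ξ j l s‖ ≤ C := by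
    have h1 : ∀ j l, ∃ C : ℝ, ∀ s ∈ Set.Icc (0 : ℝ) 1, ‖ivA_W w γ ξ j l s‖ ≤ C := fun j l =>
      isCompact_Icc.exists_bound_of_continuousOn (ivA_cont L hU hγ j l)
    choose C hC using h1
    refine ⟨∑ j, ∑ l, |C j l|, Finset.sum_nonneg fun j _ => Finset.sum_nonneg fun l _ =>
      abs_nonneg _, fun j l s hs => (hC j l s hs).trans ((le_abs_self _).trans ?_)⟩
    refine le_trans ?_ (Finset.single_le_sum (f := fun j => ∑ l, |C j l|)
      (fun j _ => Finset.sum_nonneg fun l _ => abs_nonneg _) (Finset.mem_univ j))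
    exact Finset.single_le_sum (f := fun l => |C j l|) (fun l _ => abs_nonneg _)
      (Finset.mem_univ l)
  obtain ⟨C, hC0, hC⟩ := hC
  obtain ⟨f, hf⟩ : ∃ f : ℝ → Fin r → Fin r → ℂ, f = fun s j k => (if j = k then (1 : ℂ) else 0)
      - levi w (γ s).1 ((γ s).2 j) ((γ s).2 k) := ⟨_, rfl⟩
  obtain ⟨f', hf'⟩ : ∃ f' : ℝ → Fin r → Fin r → ℂ, f' = fun s j k =>
      -(∑ l, ivA_W w γ ξ j l s * f s l k) - ∑ l, conj (ivA_W w γ ξ k l s) * f s j l := ⟨_, rfl⟩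
  have hd : ∀ s ∈ Set.Icc (0 : ℝ) 1, HasDerivWithinAt f (f' s) (Set.Icc 0 1) s := by
    intro s hs
    rw [hasDerivWithinAt_pi]
    intro j
    rw [hasDerivWithinAt_pi]
    intro k
    have h := ivA_drv L (hU s hs) (hγ s hs) j k
    rw [hf', hf]
    exact h
  have hn : ∀ s, ∀ j k, ‖f s j k‖ ≤ ‖f s‖ := fun s j k =>
    (norm_le_pi_norm (f s j) k).trans (norm_le_pi_norm (f s) j)
  have hb : ∀ s ∈ Set.Icc (0 : ℝ) 1, ‖f' s‖ ≤ (2 * r * C) * ‖f s‖ + 0 := by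
    intro s hs
    rw [add_zero]
    have hpos : 0 ≤ (2 * r * C) * ‖f s‖ := by positivity
    rw [pi_norm_le_iff_of_nonneg hpos]
    intro j
    rw [pi_norm_le_iff_of_nonneg hpos]
    intro k
    rw [hf']
    have h1 : ‖∑ l, ivA_W w γ ξ j l s * f s l k‖ ≤ r * (C * ‖f s‖) := by
      refine (norm_sum_le _ _).trans ?_
      refine (Finset.sum_le_card_nsmul _ _ (C * ‖f s‖) fun l _ => ?_).trans ?_
      · rw [norm_mul]
        exact mul_le_mul (hC j l s hs) (hn s l k) (norm_nonneg _) hC0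
      · simp
    have h2 : ‖∑ l, conj (ivA_W w γ ξ k l s) * f s j l‖ ≤ r * (C * ‖f s‖) := by
      refine (norm_sum_le _ _).trans ?_
      refine (Finset.sum_le_card_nsmul _ _ (C * ‖f s‖) fun l _ => ?_).trans ?_
      · rw [norm_mul, RCLike.norm_conj]
        exact mul_le_mul (hC k l s hs) (hn s j l) (norm_nonneg _) hC0
      · simp
    calc ‖-(∑ l, ivA_W w γ ξ j l s * f s l k) - ∑ l, conj (ivA_W w γ ξ k l s) * f s j l‖
        ≤ ‖-(∑ l, ivA_W w γ ξ j l s * f s l k)‖ + ‖∑ l, conj (ivA_W w γ ξ k l s) * f s j l‖ :=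
          norm_sub_le _ _
      _ ≤ r * (C * ‖f s‖) + r * (C * ‖f s‖) := by
          rw [norm_neg]
          exact add_le_add h1 h2
      _ = (2 * r * C) * ‖f s‖ := by ring
  have hfc : ContinuousOn f (Set.Icc 0 1) := fun s hs => (hd s hs).continuousWithinAt
  have hI : ∀ s ∈ Set.Ico (0 : ℝ) 1, HasDerivWithinAt f (f' s) (Set.Ici s) s := by
    intro s hs
    exact (hd s ⟨hs.1, hs.2.le⟩).mono_of_mem_nhdsWithin (Icc_mem_nhdsGE_of_mem hs)
  have hf0 : ‖f 0‖ ≤ 0 := by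
    have h1 : f 0 = 0 := by
      rw [hf]
      funext j k
      simp [h0 j k]
    rw [h1, norm_zero]
  have hg := norm_le_gronwallBound_of_norm_deriv_right_le hfc hI hf0
    (fun s hs => hb s ⟨hs.1, hs.2.le⟩)
  intro s hs j k
  have h1 := hg s hs
  rw [gronwallBound_ε0, zero_mul] at h1
  have h2 : f s = 0 := norm_le_zero_iff.1 h1
  have h3 := congrFun (congrFun h2 j) k
  rw [hf] at h3
  simp only [Pi.zero_apply] at h3
  exact (sub_eq_zero.1 h3).symm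

end Pool.Agent.LFC
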