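import Pool.Agent.LFC.Drv
import Pool.Agent.LFC.Est

/-!
IvB (size 5): the rank condition is preserved along the solutions of the leaf system.
PROOF. Notation of IvA. `F = levi w z`. Put `q(a,c) = F(a,c) - ∑ k, F(a, b k) * F(b k, c)` for constant `a`, `c`, and
`d_a = a - ∑ k, F(a, b k) • b k`. Then `F(d_a, c) = q(a,c)` and `conj q(a,c) = q(c,a)`.
(1) `q(a,c)' = F'(d_a, d_c)`, where `F'(a,c) = T3 z v a c + conj (T3 z v c a)`:
by `drv_levi`, `q' = F'(a,c) - ∑ k [F'(a,b k) F(b k,c) + F(a,b k) F'(b k,c) + F(a,b' k) F(b k,c) + F(a,b k) F(b' k,c)]`,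
`b' k = -∑ l, W k l • b l`, `∑ k F(a,b' k) F(b k,c) = -∑ k l conj (W k l) F(a,b l) F(b k,c)`,
`∑ k F(a,b k) F(b' k,c) = -∑ k l W k l F(a,b k) F(b l,c)`; on the other side
`F'(d_a,d_c) = F'(a,c) - ∑ k F(a,b k) F'(b k,c) - ∑ k F(b k,c) F'(a,b k) + ∑ k l F(a,b k) F(b l,c) F'(b k,b l)` (use
`conj F(c, b l) = F(b l, c)`), `F'(b k,b l) = W k l + conj (W l k)`. (No orthonormality is used.)
(2) `XX w z d_a j = sg j * F(e j.swap, d_a) = sg j * conj F(d_a, e j.swap) = sg j * conj q(a, e j.swap)`, so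
`‖XX w z d_a‖ ≤ max over the basis of |q|` for `a` a basis vector. `est` on the compact `Q = (fun s => (γ s).1) '' Icc 0 1`
(subset of `U`): `‖T3 z v d_a d_c‖ ≤ C ‖d_a‖ ‖XX w z d_c‖ √F(b_ξ,b_ξ)` because `v = XX w z (b_ξ)`. `‖d_a‖` (`a = e p`) and
`F(b_ξ,b_ξ)` are continuous in `s`, so bounded on `Icc 0 1`. Hence for `q : Ix n → Ix n → ℂ`, `q p p' = q(e p, e p')`:
`‖q'‖ ≤ C' ‖q‖`, `q 0 = 0`, so `q = 0` (Gronwall, as in IvA); general `a`, `c` by linearity (`vec_eq_sum`).
-/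

open scoped ContDiff ComplexConjugate Topology
open Complex

namespace Pool.Agent.LFC

open Pool.Agent.DTW Pool.Agent.SKF

variable {n r : ℕ} {U : Set (E n)} {w : E n → ℝ}

/-- defect of the rank condition -/
private noncomputable def IvB_q (w : E n → ℝ) (z : E n) (b : Fin r → E n) (a c : E n) : ℂ :=
  levi w z a c - ∑ k, levi w z a (b k) * levi w z (b k) c

/-- the component outside the span of the `b k` -/
private noncomputable def IvB_d (w : E n → ℝ) (z : E n) (b : Fin r → E n) (a : E n) : E n :=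
  a - ∑ k, levi w z a (b k) • b k

private theorem IvB_levi_neg (L : Loc w U) {z : E n} (hz : z ∈ U) (x y : E n) :
    levi w z x (-y) = -levi w z x y := by
  have h := levi_smul_right L hz (-1) x y
  simpa using h

private theorem IvB_levi_negl (L : Loc w U) {z : E n} (hz : z ∈ U) (x y : E n) :
    levi w z (-x) y = -levi w z x y := by
  have h := levi_smul_left L hz (-1) x y
  simpa using h

private theorem IvB_T3_neg2 (L : Loc w U) {z : E n} (hz : z ∈ U) (v x y : E n) :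
    T3 w z v (-x) y = -T3 w z v x y := by
  have h := T3_smul2 L hz (-1) v x y
  simpa using h

private theorem IvB_T3_neg3 (L : Loc w U) {z : E n} (hz : z ∈ U) (v x y : E n) :
    T3 w z v x (-y) = -T3 w z v x y := by
  have h := T3_smul3 L hz (-1) v x y
  simpa using h

private theorem IvB_T3_dd (L : Loc w U) {z : E n} (hz : z ∈ U) (b : Fin r → E n) (v a c : E n) :
    T3 w z v (IvB_d w z b a) (IvB_d w z b c)
      = T3 w z v a c - ∑ k, levi w z a (b k) * T3 w z v (b k) c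
        - ∑ l, levi w z (b l) c * T3 w z v a (b l)
        + ∑ k, ∑ l, levi w z a (b k) * levi w z (b l) c * T3 w z v (b k) (b l) := by
  have e1 : ∀ y, T3 w z v (IvB_d w z b a) y
      = T3 w z v a y - ∑ k, levi w z a (b k) * T3 w z v (b k) y := by
    intro y
    unfold IvB_d
    rw [sub_eq_add_neg, T3_add2 L hz, IvB_T3_neg2 L hz, T3_sum2 L hz, sub_eq_add_neg]
  have e2 : ∀ x, T3 w z v x (IvB_d w z b c)
      = T3 w z v x c - ∑ l, levi w z (b l) c * T3 w z v x (b l) := by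
    intro x
    unfold IvB_d
    rw [sub_eq_add_neg, T3_add3 L hz, IvB_T3_neg3 L hz, T3_sum3 L hz, sub_eq_add_neg]
    congr 2
    exact Finset.sum_congr rfl fun l _ => by rw [levi_conj L hz]
  rw [e1, e2]
  simp only [e2, mul_sub, Finset.sum_sub_distrib, Finset.mul_sum]
  have h3 : ∀ k l : Fin r, levi w z a (b k) * (levi w z (b l) c * T3 w z v (b k) (b l))
      = levi w z a (b k) * levi w z (b l) c * T3 w z v (b k) (b l) := fun k l => by ring
  simp only [h3]
  ring

private theorem IvB_drv (L : Loc w U) {D : Set ℝ} {s : ℝ} {z : ℝ → E n} {b : ℝ → Fin r → E n}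
    {v : E n} (hz : z s ∈ U) (h1 : HasDerivWithinAt z v D s)
    (h2 : ∀ k, HasDerivWithinAt (fun σ => b σ k)
      (-∑ l, T3 w (z s) v (b s k) (b s l) • b s l) D s) (a c : E n) :
    HasDerivWithinAt (fun σ => IvB_q w (z σ) (b σ) a c)
      (T3 w (z s) v (IvB_d w (z s) (b s) a) (IvB_d w (z s) (b s) c)
        + conj (T3 w (z s) v (IvB_d w (z s) (b s) c) (IvB_d w (z s) (b s) a))) D s := by
  have hA : ∀ k, HasDerivWithinAt (fun σ => levi w (z σ) a (b σ k))
      (T3 w (z s) v a (b s k) + conj (T3 w (z s) v (b s k) a)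
        - ∑ l, conj (T3 w (z s) v (b s k) (b s l)) * levi w (z s) a (b s l)) D s := by
    intro k
    have h := drv_levi L hz h1 (hasDerivWithinAt_const (x := s) (s := D) (c := a)) (h2 k)
    refine h.congr_deriv ?_
    have e0 : levi w (z s) (0 : E n) (b s k) = 0 := d10_zero_vec _ _
    rw [e0, IvB_levi_neg L hz, levi_sum2 L hz]
    ring
  have hB : ∀ k, HasDerivWithinAt (fun σ => levi w (z σ) (b σ k) c)
      (T3 w (z s) v (b s k) c + conj (T3 w (z s) v c (b s k))
        - ∑ l, T3 w (z s) v (b s k) (b s l) * levi w (z s) (b s l) c) D s := by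
    intro k
    have h := drv_levi L hz h1 (h2 k) (hasDerivWithinAt_const (x := s) (s := D) (c := c))
    refine h.congr_deriv ?_
    have e0 : levi w (z s) (b s k) (0 : E n) = 0 := by
      have := levi_smul_right L hz 0 (b s k) 0
      simpa using this
    rw [e0, IvB_levi_negl L hz, levi_sum1]
    ring
  have h0 : HasDerivWithinAt (fun σ => levi w (z σ) a c)
      (T3 w (z s) v a c + conj (T3 w (z s) v c a)) D s := by
    have h := drv_levi L hz h1 (hasDerivWithinAt_const (x := s) (s := D) (c := a))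
      (hasDerivWithinAt_const (x := s) (s := D) (c := c))
    refine h.congr_deriv ?_
    have e0 : levi w (z s) (0 : E n) c = 0 := d10_zero_vec _ _
    have e1 : levi w (z s) a (0 : E n) = 0 := by
      have := levi_smul_right L hz 0 a 0
      simpa using this
    rw [e0, e1]
    ring
  have hS := h0.sub (HasDerivWithinAt.fun_sum (u := Finset.univ) fun k _ => (hA k).mul (hB k))
  refine hS.congr_deriv ?_
  rw [IvB_T3_dd L hz, IvB_T3_dd L hz]
  simp only [map_add, map_sub, map_sum, map_mul, levi_conj L hz, sub_mul, mul_sub, add_mul, mul_add,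
    Finset.sum_sub_distrib, Finset.sum_add_distrib, Finset.mul_sum, Finset.sum_mul]
  have e3 : ∑ k : Fin r, ∑ l : Fin r, conj (T3 w (z s) v (b s k) (b s l)) * levi w (z s) a (b s l)
        * levi w (z s) (b s k) c
      = ∑ k : Fin r, ∑ l : Fin r, levi w (z s) (b s k) c * levi w (z s) a (b s l)
        * conj (T3 w (z s) v (b s k) (b s l)) :=
    Finset.sum_congr rfl fun k _ => Finset.sum_congr rfl fun l _ => by ring
  have e4 : ∑ k : Fin r, ∑ l : Fin r, levi w (z s) a (b s k)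
        * (T3 w (z s) v (b s k) (b s l) * levi w (z s) (b s l) c)
      = ∑ k : Fin r, ∑ l : Fin r, levi w (z s) a (b s k) * levi w (z s) (b s l) c
        * T3 w (z s) v (b s k) (b s l) :=
    Finset.sum_congr rfl fun k _ => Finset.sum_congr rfl fun l _ => by ring
  have e5 : ∑ k : Fin r, T3 w (z s) v a (b s k) * levi w (z s) (b s k) c
      = ∑ k : Fin r, levi w (z s) (b s k) c * T3 w (z s) v a (b s k) :=
    Finset.sum_congr rfl fun k _ => by ring
  have e6 : ∑ k : Fin r, conj (T3 w (z s) v (b s k) a) * levi w (z s) (b s k) c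
      = ∑ k : Fin r, levi w (z s) (b s k) c * conj (T3 w (z s) v (b s k) a) :=
    Finset.sum_congr rfl fun k _ => by ring
  rw [e3, e4, e5, e6]
  ring

private theorem IvB_XX (L : Loc w U) {z : E n} (hz : z ∈ U) (b : Fin r → E n) (c : E n) (j : Ix n) :
    XX w z (IvB_d w z b c) j = sg j * IvB_q w z b (e j.swap) c := by
  rw [XX_apply (L.sm.contDiffAt (L.op.mem_nhds hz))]
  congr 1
  unfold IvB_d IvB_q
  rw [sub_eq_add_neg, levi_add_right L hz, IvB_levi_neg L hz, levi_sum2 L hz, sub_eq_add_neg]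
  congr 2
  exact Finset.sum_congr rfl fun l _ => by rw [levi_conj L hz]; ring

private theorem IvB_XX_le (L : Loc w U) {z : E n} (hz : z ∈ U) (b : Fin r → E n) (p : Ix n)
    {q : Ix n → Ix n → ℂ} (hq : ∀ i j, q i j = IvB_q w z b (e i) (e j)) :
    ‖XX w z (IvB_d w z b (e p))‖ ≤ ‖q‖ := by
  rw [pi_norm_le_iff_of_nonneg (norm_nonneg _)]
  intro j
  rw [IvB_XX L hz, norm_mul, ← hq]
  have h1 : ‖sg j‖ = 1 := by
    rcases j with j | j <;> simp [sg]
  rw [h1, one_mul]
  exact (norm_le_pi_norm (q j.swap) p).trans (norm_le_pi_norm q j.swap)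

theorem ivB (L : Loc w U) {γ : ℝ → E n × (Fin r → E n)} {ξ : Fin r → ℂ}
    (hU : ∀ s ∈ Set.Icc (0 : ℝ) 1, (γ s).1 ∈ U)
    (hγ : ∀ s ∈ Set.Icc (0 : ℝ) 1, HasDerivWithinAt γ (velL w (γ s) ξ) (Set.Icc 0 1) s)
    (h0 : ∀ a c : E n, levi w (γ 0).1 a c
      = ∑ k, levi w (γ 0).1 a ((γ 0).2 k) * levi w (γ 0).1 ((γ 0).2 k) c) :
    ∀ s ∈ Set.Icc (0 : ℝ) 1, ∀ a c : E n, levi w (γ s).1 a c
      = ∑ k, levi w (γ s).1 a ((γ s).2 k) * levi w (γ s).1 ((γ s).2 k) c := by
  -- components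
  have hz : ∀ s ∈ Set.Icc (0 : ℝ) 1,
      HasDerivWithinAt (fun σ => (γ σ).1) (XX w (γ s).1 (bx (γ s).2 ξ)) (Set.Icc 0 1) s :=
    fun s hs => (ContinuousLinearMap.fst ℝ (E n) (Fin r → E n)).hasFDerivAt.comp_hasDerivWithinAt s
      (hγ s hs)
  have hb : ∀ s ∈ Set.Icc (0 : ℝ) 1, ∀ k, HasDerivWithinAt (fun σ => (γ σ).2 k)
      (-∑ l, T3 w (γ s).1 (XX w (γ s).1 (bx (γ s).2 ξ)) ((γ s).2 k) ((γ s).2 l) • (γ s).2 l)
      (Set.Icc 0 1) s := by
    intro s hs k
    have h : HasDerivWithinAt (fun σ => (γ σ).2) (velL w (γ s) ξ).2 (Set.Icc 0 1) s :=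
      (ContinuousLinearMap.snd ℝ (E n) (Fin r → E n)).hasFDerivAt.comp_hasDerivWithinAt s (hγ s hs)
    exact (hasDerivWithinAt_pi.1 h) k
  have hzc : ContinuousOn (fun σ => (γ σ).1) (Set.Icc 0 1) := fun s hs => (hz s hs).continuousWithinAt
  have hbc : ∀ k, ContinuousOn (fun σ => (γ σ).2 k) (Set.Icc 0 1) :=
    fun k s hs => (hb s hs k).continuousWithinAt
  have hx : ∀ s ∈ Set.Icc (0 : ℝ) 1, HasDerivWithinAt (fun σ => bx (γ σ).2 ξ)
      (∑ i, conj (ξ i) • (-∑ l, T3 w (γ s).1 (XX w (γ s).1 (bx (γ s).2 ξ)) ((γ s).2 i) ((γ s).2 l)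
        • (γ s).2 l)) (Set.Icc 0 1) s := by
    intro s hs
    unfold bx
    exact HasDerivWithinAt.fun_sum fun i _ => (hb s hs i).const_smul (conj (ξ i))
  -- continuity of the coefficients
  have hF : ContinuousOn (fun σ => √(levi w (γ σ).1 (bx (γ σ).2 ξ) (bx (γ σ).2 ξ)).re)
      (Set.Icc 0 1) := by
    refine Real.continuous_sqrt.comp_continuousOn (Complex.continuous_re.comp_continuousOn ?_)
    intro s hs
    exact (drv_levi L (hU s hs) (hz s hs) (hx s hs) (hx s hs)).continuousWithinAt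
  have hd : ∀ p : Ix n, ContinuousOn (fun σ => IvB_d w (γ σ).1 (γ σ).2 (e p)) (Set.Icc 0 1) := by
    intro p
    unfold IvB_d
    refine continuousOn_const.sub (continuousOn_finsetSum _ fun k _ => ?_)
    refine ContinuousOn.smul (f := fun σ => levi w (γ σ).1 (e p) ((γ σ).2 k))
      (g := fun σ => (γ σ).2 k) ?_ (hbc k)
    intro s hs
    exact (drv_levi L (hU s hs) (hz s hs)
      (hasDerivWithinAt_const (x := s) (s := Set.Icc (0 : ℝ) 1) (c := (e p : E n)))
      (hb s hs k)).continuousWithinAt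
  have hG : ContinuousOn (fun σ (p : Ix n) => ‖IvB_d w (γ σ).1 (γ σ).2 (e p)‖
      * √(levi w (γ σ).1 (bx (γ σ).2 ξ) (bx (γ σ).2 ξ)).re) (Set.Icc 0 1) :=
    continuousOn_pi.2 fun p => (hd p).norm.mul hF
  obtain ⟨M, hM⟩ := isCompact_Icc.exists_bound_of_continuousOn hG
  have hM' : ∀ s ∈ Set.Icc (0 : ℝ) 1, ∀ p : Ix n, ‖IvB_d w (γ s).1 (γ s).2 (e p)‖
      * √(levi w (γ s).1 (bx (γ s).2 ξ) (bx (γ s).2 ξ)).re ≤ M := by
    intro s hs p
    have h1 := (norm_le_pi_norm _ p).trans (hM s hs)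
    rw [Real.norm_eq_abs] at h1
    exact (le_abs_self _).trans h1
  -- the estimate
  obtain ⟨C, hC, hest⟩ := est L (isCompact_Icc.image_of_continuousOn hzc)
    (Set.image_subset_iff.2 hU)
  -- the defect
  set q : ℝ → Ix n → Ix n → ℂ := fun s i j => IvB_q w (γ s).1 (γ s).2 (e i) (e j) with hq
  have hT : ∀ s ∈ Set.Icc (0 : ℝ) 1, ∀ i j : Ix n,
      ‖T3 w (γ s).1 (XX w (γ s).1 (bx (γ s).2 ξ)) (IvB_d w (γ s).1 (γ s).2 (e i))
        (IvB_d w (γ s).1 (γ s).2 (e j))‖ ≤ C * M * ‖q s‖ := by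
    intro s hs i j
    have h1 := hest (γ s).1 (Set.mem_image_of_mem _ hs) (bx (γ s).2 ξ)
      (IvB_d w (γ s).1 (γ s).2 (e i)) (IvB_d w (γ s).1 (γ s).2 (e j))
    have h2 := IvB_XX_le L (hU s hs) (γ s).2 j (q := q s) (fun _ _ => rfl)
    have h3 := hM' s hs i
    have h4 : 0 ≤ ‖IvB_d w (γ s).1 (γ s).2 (e i)‖
        * √(levi w (γ s).1 (bx (γ s).2 ξ) (bx (γ s).2 ξ)).re :=
      mul_nonneg (norm_nonneg _) (Real.sqrt_nonneg _)
    calc _ ≤ C * ‖IvB_d w (γ s).1 (γ s).2 (e i)‖ * ‖XX w (γ s).1 (IvB_d w (γ s).1 (γ s).2 (e j))‖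
          * √(levi w (γ s).1 (bx (γ s).2 ξ) (bx (γ s).2 ξ)).re := h1
      _ = C * (‖IvB_d w (γ s).1 (γ s).2 (e i)‖
          * √(levi w (γ s).1 (bx (γ s).2 ξ) (bx (γ s).2 ξ)).re)
          * ‖XX w (γ s).1 (IvB_d w (γ s).1 (γ s).2 (e j))‖ := by ring
      _ ≤ C * M * ‖q s‖ :=
        mul_le_mul (mul_le_mul_of_nonneg_left h3 hC) h2 (norm_nonneg _)
          (mul_nonneg hC (h4.trans h3))
  have hqd : ∀ s ∈ Set.Icc (0 : ℝ) 1, HasDerivWithinAt q (fun i j =>
      T3 w (γ s).1 (XX w (γ s).1 (bx (γ s).2 ξ)) (IvB_d w (γ s).1 (γ s).2 (e i))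
          (IvB_d w (γ s).1 (γ s).2 (e j))
        + conj (T3 w (γ s).1 (XX w (γ s).1 (bx (γ s).2 ξ)) (IvB_d w (γ s).1 (γ s).2 (e j))
          (IvB_d w (γ s).1 (γ s).2 (e i)))) (Set.Icc 0 1) s := by
    intro s hs
    refine hasDerivWithinAt_pi.2 fun i => hasDerivWithinAt_pi.2 fun j => ?_
    exact IvB_drv L (hU s hs) (hz s hs) (hb s hs) (e i) (e j)
  have hzero := eq_zero_of_abs_deriv_le_mul_abs_self_of_eq_zero_right (K := 2 * (C * M))
    (f := q) (a := 0) (b := 1) (fun s hs => (hqd s hs).continuousWithinAt)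
    (fun s hs => (hqd s (Set.Ico_subset_Icc_self hs)).mono_of_mem_nhdsWithin
      (Icc_mem_nhdsGE_of_mem hs))
    (by
      funext i j
      simp only [hq, IvB_q, Pi.zero_apply]
      rw [h0, sub_self])
    (by
      intro s hs
      have hs' := Set.Ico_subset_Icc_self hs
      have hM0 : 0 ≤ 2 * (C * M) * ‖q s‖ := by
        by_cases hn : Nonempty (Ix n)
        · obtain ⟨p⟩ := hn
          have h4 : 0 ≤ ‖IvB_d w (γ s).1 (γ s).2 (e p)‖
              * √(levi w (γ s).1 (bx (γ s).2 ξ) (bx (γ s).2 ξ)).re :=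
            mul_nonneg (norm_nonneg _) (Real.sqrt_nonneg _)
          have h5 := h4.trans (hM' s hs' p)
          positivity
        · have : q s = 0 := by
            funext i
            exact absurd ⟨i⟩ hn
          rw [this, norm_zero, mul_zero]
      rw [pi_norm_le_iff_of_nonneg hM0]
      intro i
      rw [pi_norm_le_iff_of_nonneg hM0]
      intro j
      refine (norm_add_le _ _).trans ?_
      rw [RCLike.norm_conj]
      have h1 := hT s hs' i j
      have h2 := hT s hs' j i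
      linarith)
  intro s hs a c
  have h1 := hzero s hs
  have h2 : ∀ i j : Ix n, levi w (γ s).1 (e i) (e j)
      = ∑ k, levi w (γ s).1 (e i) ((γ s).2 k) * levi w (γ s).1 ((γ s).2 k) (e j) := by
    intro i j
    have h3 := congrFun (congrFun h1 i) j
    simp only [hq, IvB_q, Pi.zero_apply] at h3
    exact sub_eq_zero.1 h3
  have hl : ∀ x : E n, levi w (γ s).1 a x = ∑ i, a i * levi w (γ s).1 (e i) x := by
    intro x
    conv_lhs => rw [vec_eq_sum a]
    exact levi_sum1 _ _ _ _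
  have hr : ∀ x : E n, levi w (γ s).1 x c = ∑ j, conj (c j) * levi w (γ s).1 x (e j) := by
    intro x
    conv_lhs => rw [vec_eq_sum c]
    exact levi_sum2 L (hU s hs) _ _ _ _
  calc levi w (γ s).1 a c
      = ∑ i, ∑ j, ∑ k, (a i * levi w (γ s).1 (e i) ((γ s).2 k))
          * (conj (c j) * levi w (γ s).1 ((γ s).2 k) (e j)) := by
        rw [hl]
        refine Finset.sum_congr rfl fun i _ => ?_
        rw [hr, Finset.mul_sum]
        refine Finset.sum_congr rfl fun j _ => ?_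
        rw [h2, Finset.mul_sum, Finset.mul_sum]
        exact Finset.sum_congr rfl fun k _ => by ring
    _ = ∑ k, ∑ i, ∑ j, (a i * levi w (γ s).1 (e i) ((γ s).2 k))
          * (conj (c j) * levi w (γ s).1 ((γ s).2 k) (e j)) := by
        have h5 : ∀ i : Ix n, (∑ j : Ix n, ∑ k : Fin r,
              (a i * levi w (γ s).1 (e i) ((γ s).2 k))
                * (conj (c j) * levi w (γ s).1 ((γ s).2 k) (e j)))
            = ∑ k : Fin r, ∑ j : Ix n, (a i * levi w (γ s).1 (e i) ((γ s).2 k))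
                * (conj (c j) * levi w (γ s).1 ((γ s).2 k) (e j)) := fun i => Finset.sum_comm
        rw [Finset.sum_congr rfl fun i _ => h5 i, Finset.sum_comm]
    _ = _ := by
        refine Finset.sum_congr rfl fun k _ => ?_
        rw [hl, hr, Finset.sum_mul_sum]

end Pool.Agent.LFC
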