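import Pool.Agent.LFC.Fra
import Pool.Agent.LFC.Hrr

/-!
Lcc (size 2): leaf maps in one chart.
`leafC_of`: `{t ∈ Ω | Φ t ∈ (A.c i).source}` is open (`Φ` is continuous at the points of the open set `Ω`).
`leafC_smooth`: `hrr`. `leafC_frame`: `HasFDerivAt.fderiv`.
-/

open scoped ContDiff ComplexConjugate Topology
open Complex

namespace Pool.Agent.LFC

open Pool.Agent.DTW Pool.Agent.SKF

variable {n r : ℕ} {U : Set (E n)} {w : E n → ℝ}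

/-- a leaf map in one chart -/
structure LeafC (w : E n → ℝ) (U : Set (E n)) (φ : (Fin r → ℂ) → E n)
    (N : Set (Fin r → ℂ)) : Prop where
  op : IsOpen N
  mem : ∀ t ∈ N, φ t ∈ U
  fr : ∀ t ∈ N, ∃ T : (Fin r → ℂ) →L[ℂ] E n, HasFDerivAt (𝕜 := ℂ) φ T t ∧ IsFrame w (φ t) T

theorem leafC_of {X : Type*} [TopologicalSpace X] {ι : Type*} {A : Atlas n X ι} (B : Bundle A)
    {Ω : Set (Fin r → ℂ)} (hΩ : IsOpen Ω) {Φ : (Fin r → ℂ) → X} (hΦ : ∀ t ∈ Ω, LeafAt B Φ t)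
    (i : ι) :
    LeafC (B.wt i) (A.c i).target (A.c i ∘ Φ) {t | t ∈ Ω ∧ Φ t ∈ (A.c i).source} := by
  refine ⟨?_, fun t ht => (A.c i).map_source ht.2, fun t ht => (hΦ t ht.1).2 i ht.2⟩
  rw [isOpen_iff_mem_nhds]
  rintro t ⟨ht, ht'⟩
  filter_upwards [hΩ.mem_nhds ht,
    (hΦ t ht).1.preimage_mem_nhds ((A.c i).open_source.mem_nhds ht')] with s hs hs'
  exact ⟨hs, hs'⟩

theorem leafC_frame {φ : (Fin r → ℂ) → E n} {N : Set (Fin r → ℂ)} (h : LeafC w U φ N)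
    {t : Fin r → ℂ} (ht : t ∈ N) :
    HasFDerivAt (𝕜 := ℂ) φ (fderiv ℂ φ t) t ∧ IsFrame w (φ t) (fderiv ℂ φ t) := by
  obtain ⟨T, hT, hF⟩ := h.fr t ht
  rw [hT.fderiv]
  exact ⟨hT, hF⟩

theorem leafC_smooth {φ : (Fin r → ℂ) → E n} {N : Set (Fin r → ℂ)} (h : LeafC w U φ N) :
    ContDiffOn ℂ ∞ φ N ∧ ∀ ζ, ContDiffOn ℂ ∞ (fun t => fderiv ℂ φ t ζ) N := by
  have hd : DifferentiableOn ℂ φ N := fun t ht =>
    (leafC_frame h ht).1.differentiableAt.differentiableWithinAt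
  exact ⟨hrr h.op hd, fun ζ => hrr_fd h.op hd ζ⟩

end Pool.Agent.LFC
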