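import Pool.Agent.LFC.Tds
import Pool.Agent.LFC.Com
import Pool.Agent.LFC.IvA
import Pool.Agent.LFC.IvB

/-!
Lex (size 2): local solutions of the leaf system near every state `y0`.
-/

open scoped ContDiff ComplexConjugate Topology
open Complex

namespace Pool.Agent.LFC

open Pool.Agent.DTW Pool.Agent.SKF

variable {n r : ℕ} {U : Set (E n)} {w : E n → ℝ}

theorem lex (L : LocB w U) {y0 : E n × (Fin r → E n)} (h0 : y0.1 ∈ U) :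
    ∃ ρ > 0, ∃ δ > 0, ∀ y, dist y y0 < ρ → InvP w y →
      ∃ Y : (Fin r → ℂ) → E n × (Fin r → E n), Y 0 = y ∧
        ∀ t ∈ Metric.ball (0 : Fin r → ℂ) δ, (Y t).1 ∈ U ∧ InvP w (Y t) ∧
          HasFDerivAt Y (velL w (Y t)) t := by
  have hW : IsOpen (U ×ˢ (Set.univ : Set (Fin r → E n))) := L.loc.op.prod isOpen_univ
  have hinv : ∀ (ξ : Fin r → ℂ) (γ : ℝ → E n × (Fin r → E n)),
      (∀ s ∈ Set.Icc (0 : ℝ) 1, γ s ∈ U ×ˢ (Set.univ : Set (Fin r → E n))) →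
      (∀ s ∈ Set.Icc (0 : ℝ) 1, HasDerivWithinAt γ (velL w (γ s) ξ) (Set.Icc 0 1) s) →
      γ 0 ∈ {y | InvP w y} → ∀ s ∈ Set.Icc (0 : ℝ) 1, γ s ∈ {y | InvP w y} := by
    intro ξ γ hγW hγ hI s hs
    have hI' : InvP w (γ 0) := hI
    exact ⟨ivA L.loc (fun s hs => (hγW s hs).1) hγ hI'.on s hs,
      ivB L.loc (fun s hs => (hγW s hs).1) hγ hI'.rk s hs⟩
  have hcom : ∀ y ∈ U ×ˢ (Set.univ : Set (Fin r → E n)), y ∈ {y | InvP w y} →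
      ∀ ξ ζ : Fin r → ℂ, fderiv ℝ (fun x => velL w x ζ) y (velL w y ξ)
        = fderiv ℝ (fun x => velL w x ξ) y (velL w y ζ) :=
    fun y hy hI ξ ζ => com L hy.1 hI ξ ζ
  obtain ⟨ρ, hρ, δ, hδ, H⟩ := tds hW (velL w) (smo_velL L.loc) {y | InvP w y} hinv hcom
    (y0 := y0) ⟨h0, trivial⟩
  refine ⟨ρ, hρ, δ, hδ, fun y hy hI => ?_⟩
  obtain ⟨Y, h1, h2⟩ := H y hy hI
  exact ⟨Y, h1, fun t ht => ⟨(h2 t ht).1.1, (h2 t ht).2.1, (h2 t ht).2.2⟩⟩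

end Pool.Agent.LFC
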