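import Pool.Agent.LFC.Fra
import Pool.Agent.LFC.Est

/-!
Low (size 4): the differential of a leaf map does not degenerate in finite time.
PROOF. `C` from `est` on `Q`. For `s ∈ Ico s₁ s₂`: `T s ξ = XX w (z s) c` with `levi c c = ∑ |ξ k|²` (`IsFrame.1`); for `ζ`, `b` with `T s ζ = XX w (z s) b`, `G` from `hode`:
`|S G m| = ‖T3 w (z s) (XX w (z s) c) m b‖ ≤ C ‖m‖ ‖T s ζ‖ √(∑ |ξ k|²)`, and `|G p| = |S G (e p.swap)|` (`S_single`), so `‖G‖ ≤ C' ‖T s ζ‖`.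
So `f s = T s ζ` satisfies `‖f'‖ ≤ C' ‖f‖` on `Ico s₁ s₂`; Gronwall for the time reversed function on `[s₁, s]`:
`‖T s₁ ζ‖ ≤ exp (C' (s - s₁)) ‖T s ζ‖ ≤ exp (C' (s₂ - s₁)) ‖T s ζ‖` (`norm_le_gronwallBound_of_norm_deriv_right_le` for `σ ↦ f (s - σ)` on `Icc 0 (s - s₁)`).
`T s₁` is injective (`frame_inj`) on a finite dimensional space: `c₁ ‖ζ‖ ≤ ‖T s₁ ζ‖`, `c₁ > 0` (`LinearMap.exists_antilipschitzWith`; `r = 0` is trivial).
If `s₁ ≥ s₂` there is nothing to prove (`c = 1`).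
-/

open scoped ContDiff ComplexConjugate Topology
open Complex

namespace Pool.Agent.LFC

open Pool.Agent.DTW Pool.Agent.SKF

variable {n r : ℕ} {U : Set (E n)} {w : E n → ℝ}

private theorem Low_norm_e (k : Ix n) : ‖(e k : E n)‖ = 1 := by
  unfold e
  rw [Pi.norm_single, norm_one]

private theorem Low_norm_le {G : E n} {M : ℝ} (hM : 0 ≤ M) (h : ∀ k : Ix n, ‖S G (e k)‖ ≤ M) :
    ‖G‖ ≤ M := by
  rw [pi_norm_le_iff_of_nonneg hM]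
  intro p
  have h1 := h p.swap
  rw [S_single, Sum.swap_swap, norm_mul, norm_neg] at h1
  have h2 : ‖(sg p.swap : ℂ)‖ = 1 := by
    cases p <;> simp [sg]
  rwa [h2, one_mul] at h1

theorem low (L : Loc w U) {Q : Set (E n)} (hQ : IsCompact Q) (hQU : Q ⊆ U) {s₁ s₂ : ℝ}
    {z : ℝ → E n} {T : ℝ → (Fin r → ℂ) →L[ℂ] E n} (hzQ : ∀ s ∈ Set.Ico s₁ s₂, z s ∈ Q)
    (hF : ∀ s ∈ Set.Ico s₁ s₂, IsFrame w (z s) (T s)) (ξ : Fin r → ℂ)
    (hode : ∀ s ∈ Set.Ico s₁ s₂, ∀ ζ, ∃ G : E n, HasDerivAt (fun σ => T σ ζ) G s ∧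
      ∀ b, XX w (z s) b = T s ζ → ∀ m, S G m = T3 w (z s) (T s ξ) m b) :
    ∃ c > 0, ∀ s ∈ Set.Ico s₁ s₂, ∀ ζ, c * ‖ζ‖ ≤ ‖T s ζ‖ := by
  classical
  rcases le_or_gt s₂ s₁ with h21 | h12
  · refine ⟨1, one_pos, fun s hs => ?_⟩
    exact absurd (lt_of_le_of_lt hs.1 hs.2) (not_lt.2 h21)
  obtain ⟨C, hC, hest⟩ := est L hQ hQU
  set R : ℝ := √(∑ k, Complex.normSq (ξ k)) with hR
  have hR0 : 0 ≤ R := Real.sqrt_nonneg _
  set C' : ℝ := C * R with hC'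
  have hC'0 : 0 ≤ C' := mul_nonneg hC hR0
  have hd : ∀ s ∈ Set.Ico s₁ s₂, ∀ ζ, ∃ G : E n, HasDerivAt (fun σ => T σ ζ) G s ∧
      ‖G‖ ≤ C' * ‖T s ζ‖ := by
    intro s hs ζ
    obtain ⟨G, hG, hS⟩ := hode s hs ζ
    refine ⟨G, hG, ?_⟩
    obtain ⟨b, hb, -⟩ := (hF s hs).1 ζ
    obtain ⟨c, hc, hcc⟩ := (hF s hs).1 ξ
    have hre : √(levi w (z s) c c).re = R := by
      rw [hcc, Complex.ofReal_re]
    refine Low_norm_le (mul_nonneg hC'0 (norm_nonneg _)) fun k => ?_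
    rw [hS b hb.symm (e k), hc]
    refine (hest (z s) (hzQ s hs) c (e k) b).trans ?_
    rw [hre, ← hb, Low_norm_e]
    refine le_of_eq ?_
    rw [hC']
    ring
  have hg : ∀ s ∈ Set.Ico s₁ s₂, ∀ ζ, ‖T s₁ ζ‖ ≤ ‖T s ζ‖ * Real.exp (C' * (s - s₁)) := by
    intro s hs ζ
    choose! G hG hGn using hd
    have hIco : ∀ x ∈ Set.Icc (0 : ℝ) (s - s₁), s - x ∈ Set.Ico s₁ s₂ := by
      intro x hx
      exact ⟨by linarith [hx.2], by linarith [hx.1, hs.2]⟩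
    have hder : ∀ x ∈ Set.Icc (0 : ℝ) (s - s₁),
        HasDerivAt (fun σ => T (s - σ) ζ) (-G (s - x) ζ) x := by
      intro x hx
      have h1 := hG (s - x) (hIco x hx) ζ
      have h2 : HasDerivAt (fun σ : ℝ => s - σ) (-1) x := by
        simpa using (hasDerivAt_id x).const_sub s
      have h3 := HasDerivAt.scomp x h1 h2
      have h4 : (-1 : ℝ) • G (s - x) ζ = -G (s - x) ζ := by
        rw [neg_smul, one_smul]
      rw [h4] at h3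
      exact h3
    have hgr := norm_le_gronwallBound_of_norm_deriv_right_le
      (f := fun σ => T (s - σ) ζ) (f' := fun x => -G (s - x) ζ) (δ := ‖T s ζ‖) (K := C') (ε := 0)
      (a := 0) (b := s - s₁)
      (fun x hx => (hder x hx).continuousAt.continuousWithinAt)
      (fun x hx => (hder x (Set.Ico_subset_Icc_self hx)).hasDerivWithinAt)
      (by simp)
      (fun x hx => by
        rw [norm_neg, add_zero]
        exact hGn (s - x) (hIco x (Set.Ico_subset_Icc_self hx)) ζ)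
      (s - s₁) ⟨by linarith [hs.1], le_refl _⟩
    rw [gronwallBound_ε0] at hgr
    simpa using hgr
  have h1m : s₁ ∈ Set.Ico s₁ s₂ := ⟨le_refl _, h12⟩
  have hinj := frame_inj L (hQU (hzQ s₁ h1m)) (hF s₁ h1m)
  obtain ⟨K, hK, hKa⟩ := LinearMap.exists_antilipschitzWith (T s₁ : (Fin r → ℂ) →ₗ[ℂ] E n)
    (LinearMap.ker_eq_bot.2 hinj)
  have hK' : (0 : ℝ) < K := by exact_mod_cast hK
  refine ⟨(K : ℝ)⁻¹ * Real.exp (-(C' * (s₂ - s₁))), by positivity, fun s hs ζ => ?_⟩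
  have h1 : ‖ζ‖ ≤ K * ‖T s₁ ζ‖ := ContinuousLinearMap.bound_of_antilipschitz (T s₁) hKa ζ
  have h2 : (K : ℝ)⁻¹ * ‖ζ‖ ≤ ‖T s₁ ζ‖ := by
    rw [inv_mul_le_iff₀ hK']
    exact h1
  have h3 := hg s hs ζ
  have h4 : Real.exp (C' * (s - s₁)) ≤ Real.exp (C' * (s₂ - s₁)) :=
    Real.exp_le_exp.2 (mul_le_mul_of_nonneg_left (by linarith [hs.2]) hC'0)
  have h5 : Real.exp (-(C' * (s₂ - s₁))) * Real.exp (C' * (s₂ - s₁)) = 1 := by
    rw [← Real.exp_add, neg_add_cancel, Real.exp_zero]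
  calc (K : ℝ)⁻¹ * Real.exp (-(C' * (s₂ - s₁))) * ‖ζ‖
      = Real.exp (-(C' * (s₂ - s₁))) * ((K : ℝ)⁻¹ * ‖ζ‖) := by ring
    _ ≤ Real.exp (-(C' * (s₂ - s₁))) * ‖T s₁ ζ‖ :=
        mul_le_mul_of_nonneg_left h2 (Real.exp_pos _).le
    _ ≤ Real.exp (-(C' * (s₂ - s₁))) * (‖T s ζ‖ * Real.exp (C' * (s - s₁))) :=
        mul_le_mul_of_nonneg_left h3 (Real.exp_pos _).le
    _ ≤ Real.exp (-(C' * (s₂ - s₁))) * (‖T s ζ‖ * Real.exp (C' * (s₂ - s₁))) :=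
        mul_le_mul_of_nonneg_left (mul_le_mul_of_nonneg_left h4 (norm_nonneg _))
          (Real.exp_pos _).le
    _ = ‖T s ζ‖ * (Real.exp (-(C' * (s₂ - s₁))) * Real.exp (C' * (s₂ - s₁))) := by ring
    _ = ‖T s ζ‖ := by rw [h5, mul_one]

end Pool.Agent.LFC
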