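import Pool.Agent.LFC.Fra
import Pool.Agent.LFC.Smo

/-!
Tht (size 4): smooth choice of `b` with `X_b = v`.
PROOF. `c = y0.2`, `G z j l = levi w z (c j) (c l)` (`Matrix (Fin r) (Fin r) ℂ`, entries smooth on `U`), `G y0.1 = 1`
(`InvP.on`), `V = {z ∈ U | (G z).det ≠ 0}` open. `Θ z v = ∑ j, conj (((G z)⁻¹.mulVec fun l => S v (c l)) j) • c j`; smooth:
entries of `(G z)⁻¹ = (det)⁻¹ • adjugate` (private `frm_det`, `frm_adj` in SKF/Frm.lean: copy), `S v (c l)` linear in `v`.
Let `z ∈ V`, `T` a frame at `z`, `(z, b)` of `exists_inv`, `v = T ζ = XX w z β`, `β = bx b ζ`, `x j` the coefficients, `Θ z v = ∑ j, x j • c j`.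
Then `∑ j, G z l j * conj (x j) = S v (c l) = levi w z (c l) β` (`S_X`), i.e. `levi w z (c l) u = 0` for all `l`, `u = Θ z v - β`.
With `M l k = levi w z (c l) (b k)`: `G z = M * Mᴴ` (`InvP.rk`), so `M` is invertible; `levi (c l) u = ∑ k, M l k * levi (b k) u`
(`rk`), so `levi (b k) u = 0` for all `k`, and `levi m u = ∑ k, levi m (b k) * levi (b k) u = 0`. So `XX w z (Θ z v) = XX w z β`
(`XX_eq_iff`).
-/

open scoped ContDiff ComplexConjugate Topology
open Complex

namespace Pool.Agent.LFC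

open Pool.Agent.DTW Pool.Agent.SKF

variable {n r : ℕ} {U : Set (E n)} {w : E n → ℝ}

private theorem Tht_det {m : ℕ} {A : E n → Matrix (Fin m) (Fin m) ℂ} {V : Set (E n)}
    (h : ∀ i j, ContDiffOn ℝ ∞ (fun y => A y i j) V) : ContDiffOn ℝ ∞ (fun y => (A y).det) V := by
  simp only [Matrix.det_apply']
  refine ContDiffOn.sum fun σ _ => ?_
  exact contDiffOn_const.mul (contDiffOn_prod fun i _ => h (σ i) i)

private theorem Tht_adj {m : ℕ} {A : E n → Matrix (Fin m) (Fin m) ℂ} {V : Set (E n)}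
    (h : ∀ i j, ContDiffOn ℝ ∞ (fun y => A y i j) V) (p q : Fin m) :
    ContDiffOn ℝ ∞ (fun y => (A y).adjugate p q) V := by
  simp only [Matrix.adjugate_apply]
  refine Tht_det fun i j => ?_
  by_cases hi : i = q
  · subst hi
    simp only [Matrix.updateRow_self]
    exact contDiffOn_const
  · simp only [Matrix.updateRow_ne hi]
    exact h i j

private theorem Tht_S (b : E n) : ContDiff ℝ ∞ (fun v : E n => S v b) := by
  unfold S
  fun_prop

theorem tht (L : Loc w U) {y0 : E n × (Fin r → E n)} (h0 : y0.1 ∈ U) (hI : InvP w y0) :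
    ∃ V : Set (E n), IsOpen V ∧ y0.1 ∈ V ∧ V ⊆ U ∧ ∃ Θ : E n → E n → E n,
      ContDiffOn ℝ ∞ (fun p : E n × E n => Θ p.1 p.2) (V ×ˢ Set.univ) ∧
      ∀ z ∈ V, ∀ T : (Fin r → ℂ) →L[ℂ] E n, IsFrame w z T → ∀ ζ, XX w z (Θ z (T ζ)) = T ζ := by
  let c : Fin r → E n := y0.2
  let G : E n → Matrix (Fin r) (Fin r) ℂ := fun z => Matrix.of fun j l => levi w z (c j) (c l)
  have hGs : ∀ i j, ContDiffOn ℝ ∞ (fun y => G y i j) U := fun i j => smooth_Lf L (c i) (c j)
  have hdet : ContDiffOn ℝ ∞ (fun y => (G y).det) U := Tht_det hGs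
  have hG0 : (G y0.1).det ≠ 0 := by
    have h1 : G y0.1 = 1 := by
      ext i j
      rw [Matrix.one_apply]
      exact hI.on i j
    rw [h1, Matrix.det_one]
    exact one_ne_zero
  let V : Set (E n) := U ∩ (fun y => (G y).det) ⁻¹' {0}ᶜ
  have hVo : IsOpen V := hdet.continuousOn.isOpen_inter_preimage L.op isOpen_compl_singleton
  have hVU : V ⊆ U := Set.inter_subset_left
  have hV0 : ∀ y ∈ V, (G y).det ≠ 0 := fun y hy => hy.2
  let x : E n → E n → Fin r → ℂ := fun z v j =>
    ((G z).det)⁻¹ * ∑ l, (G z).adjugate j l * S v (c l)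
  let Θ : E n → E n → E n := fun z v => ∑ j, conj (x z v j) • c j
  have hx : ∀ z ∈ V, ∀ v l, ∑ j, G z l j * x z v j = S v (c l) := by
    intro z hz v l
    have h1 : x z v = ((G z).det)⁻¹ • (G z).adjugate.mulVec (fun l => S v (c l)) := by
      funext j
      simp only [x, Pi.smul_apply, Matrix.mulVec, dotProduct, smul_eq_mul]
    have h2 : (G z).mulVec (x z v) = fun l => S v (c l) := by
      rw [h1, Matrix.mulVec_smul, Matrix.mulVec_mulVec, Matrix.mul_adjugate, Matrix.smul_mulVec,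
        Matrix.one_mulVec, smul_smul, inv_mul_cancel₀ (hV0 z hz), one_smul]
    exact congrFun h2 l
  refine ⟨V, hVo, ⟨h0, hG0⟩, hVU, Θ, ?_, ?_⟩
  · have hfst : Set.MapsTo (Prod.fst : E n × E n → E n) (V ×ˢ Set.univ) V := fun p hp => hp.1
    have hd : ContDiffOn ℝ ∞ (fun p : E n × E n => ((G p.1).det)⁻¹) (V ×ˢ Set.univ) := by
      have h1 : ContDiffOn ℝ ∞ (fun y => ((G y).det)⁻¹) V := (hdet.mono hVU).inv hV0
      exact h1.comp contDiffOn_fst hfst
    have ha : ∀ i j, ContDiffOn ℝ ∞ (fun p : E n × E n => (G p.1).adjugate i j)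
        (V ×ˢ Set.univ) := by
      intro i j
      have h1 : ContDiffOn ℝ ∞ (fun y => (G y).adjugate i j) V := (Tht_adj hGs i j).mono hVU
      exact h1.comp contDiffOn_fst hfst
    have hxs : ∀ j, ContDiffOn ℝ ∞ (fun p : E n × E n => x p.1 p.2 j) (V ×ˢ Set.univ) := by
      intro j
      refine hd.mul (ContDiffOn.sum fun l _ => (ha j l).mul ?_)
      exact ((Tht_S (c l)).comp contDiff_snd).contDiffOn
    refine ContDiffOn.sum fun j _ => ?_
    have h2 : ContDiffOn ℝ ∞ (fun p : E n × E n => conj (x p.1 p.2 j)) (V ×ˢ Set.univ) :=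
      Complex.conjCLE.contDiff.comp_contDiffOn (hxs j)
    exact h2.smul contDiffOn_const
  · intro z hz T hT ζ
    have hzU := hVU hz
    obtain ⟨b, hb, hTb⟩ := exists_inv L hzU hT
    rw [hTb ζ]
    rw [XX_eq_iff L hzU]
    have h1 : ∀ l, levi w z (c l) (Θ z (XX w z (bx b ζ))) = levi w z (c l) (bx b ζ) := by
      intro l
      have h2 : levi w z (c l) (Θ z (XX w z (bx b ζ)))
          = ∑ j, G z l j * x z (XX w z (bx b ζ)) j := by
        simp only [Θ]
        rw [levi_sum2 L hzU]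
        refine Finset.sum_congr rfl fun j _ => ?_
        rw [Complex.conj_conj, mul_comm]
        rfl
      rw [h2, hx z hz, S_X L hzU]
    let M : Matrix (Fin r) (Fin r) ℂ := Matrix.of fun l k => levi w z (c l) (b k)
    let N : Matrix (Fin r) (Fin r) ℂ := Matrix.of fun k l => levi w z (b k) (c l)
    have hMN : G z = M * N := by
      ext i j
      rw [Matrix.mul_apply]
      exact hb.rk (c i) (c j)
    have hM : M.det ≠ 0 := by
      intro h
      apply hV0 z hz
      rw [hMN, Matrix.det_mul, h, zero_mul]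
    have h3 : M.mulVec (fun k => levi w z (b k) (Θ z (XX w z (bx b ζ)))
        - levi w z (b k) (bx b ζ)) = 0 := by
      funext l
      have h4 := h1 l
      have h5 := hb.rk (c l) (Θ z (XX w z (bx b ζ)))
      have h6 := hb.rk (c l) (bx b ζ)
      simp only at h5 h6
      rw [h5, h6] at h4
      simp only [Matrix.mulVec, dotProduct, Pi.zero_apply, mul_sub, Finset.sum_sub_distrib]
      exact sub_eq_zero.2 h4
    have h7 := Matrix.eq_zero_of_mulVec_eq_zero hM h3
    intro m
    have h8 := hb.rk m (Θ z (XX w z (bx b ζ)))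
    have h9 := hb.rk m (bx b ζ)
    simp only at h8 h9
    rw [h8, h9]
    refine Finset.sum_congr rfl fun k _ => ?_
    have h10 := congrFun h7 k
    simp only [Pi.zero_apply] at h10
    rw [sub_eq_zero.1 h10]

end Pool.Agent.LFC
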