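import Pool.Agent.LFC.Lcc
import Pool.Agent.LFC.Tht
import Pool.Agent.LFC.Drv

/-!
Od2 (size 5): a holomorphic isometric leaf map satisfies the geodesic equation `σ(D_ξ D_ζ φ, m) = w_(Dφ(ξ) m b̄)`, `X_b = Dφ(ζ)`.
PROOF. `z0 = φ t`, `D = fderiv ℂ φ`, `v = D t ξ`. Take `y0 = (z0, b⁰)` from `exists_inv` for the frame `D t`, `Θ`, `V` from `tht`. For a direction `η`
(`η = ξ` or `η = I • ξ`) and `ζ'` arbitrary put, for `s` real near 0, `z(s) = φ (t + s • η)`, `b_ζ'(s) = Θ (z s) (D (t + s • η) ζ')`: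
`XX w (z s) (b_ζ' s) = D (t + s • η) ζ'`; everything is differentiable in `s` (`leafC_smooth`, `Θ` smooth). Let `G_η`, `β_η` be the
derivatives at `0` of `D (t + s • η) ζ` and of `b = b_ζ`, `β'_η` that of `b' = b_ζ'`; `z'(0) = D t η`. Complex differentiability (`hrr_fd`): `G_(Iξ) = I • G_ξ`, and
`D t (I • ξ) = I • v`.
(i) `S (D (t+sη) ζ) m = levi w (z s) m (b s)` (`S_X`): `drv_levi`: `S G_η m = T3 v_η m b + conj (T3 v_η b m) + levi m β_η`.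
   For `η = ξ` and `-I *` (the equation for `Iξ`), subtracted: (*) `2 conj (T3 v b m) + levi m β_ξ + I levi m β_(Iξ) = 0` for all `m`.
(ii) `levi w (z s) (b' s) (b s) = ∑ k, conj (ζ' k) * ζ k` is constant (with `exists_inv` at `z s`: `b s` and `bx b̃ ζ` have the same `XX`, `XX_eq_iff`,
   `levi_conj`, `bx_levi`): `T3 v_η b' b + conj (T3 v_η b b') + levi β'_η b + levi b' β_η = 0`. Sum of the equation for `ξ` and `-I *` that for `Iξ`:
   `2 T3 v b' b + levi β'_ξ b - I levi β'_(Iξ) b + levi b' β_ξ - I levi b' β_(Iξ) = 0`. The first three terms are `conj` of (*) for `b'`, `m = b`, so `0`: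
   `levi b' β_ξ = I levi b' β_(Iξ)` for `b' = b_ζ'(0)`, all `ζ'`; since `b_(e k)(0)` and `b⁰ k` have the same `XX` and
   by `ker_part`, `levi m β_ξ = I levi m β_(Iξ)` for all `m`. With (*): `levi m β_ξ = - conj (T3 v b m)`, and (i) gives `S G_ξ m = T3 v m b`, `b = b_ζ(0)`.
(iii) If `XX w z0 b₁ = XX w z0 b` then `b₁ - b` is in the kernel and `v` is of the form `XX w z0 c`, so `T3 v m b₁ = T3 v m b` (`T3_add3`, `T3_ker`).
-/

open scoped ContDiff ComplexConjugate Topology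
open Complex

namespace Pool.Agent.LFC

open Pool.Agent.DTW Pool.Agent.SKF

variable {n r : ℕ} {U : Set (E n)} {w : E n → ℝ}

private theorem Od2_path {φ : (Fin r → ℂ) → E n} {t : Fin r → ℂ} (hF : DifferentiableAt ℂ φ t)
    (η : Fin r → ℂ) : HasDerivAt (fun s : ℝ => φ (t + s • η)) (fderiv ℂ φ t η) 0 := by
  have h1 : HasDerivAt (fun s : ℝ => t + s • η) η 0 := by
    have h0 := ((hasDerivAt_id (0 : ℝ)).smul_const η).const_add t
    rw [one_smul] at h0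
    exact h0
  have h2 : HasFDerivAt φ ((fderiv ℂ φ t).restrictScalars ℝ) (t + (0 : ℝ) • η) := by
    rw [zero_smul, add_zero]
    exact hF.hasFDerivAt.restrictScalars ℝ
  exact h2.comp_hasDerivAt (0 : ℝ) h1

private theorem Od2_E (L : Loc w U) {φ : (Fin r → ℂ) → E n} {N : Set (Fin r → ℂ)}
    (h : LeafC w U φ N) {t : Fin r → ℂ} (ht : t ∈ N) {V : Set (E n)} (hV : IsOpen V)
    (hz0 : φ t ∈ V) (hVU : V ⊆ U) {Θ : E n → E n → E n}
    (hΘ : ContDiffOn ℝ ∞ (fun p : E n × E n => Θ p.1 p.2) (V ×ˢ Set.univ))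
    (hX : ∀ z ∈ V, ∀ T : (Fin r → ℂ) →L[ℂ] E n, IsFrame w z T → ∀ ζ, XX w z (Θ z (T ζ)) = T ζ) :
    ∃ G β : (Fin r → ℂ) → (Fin r → ℂ) → E n,
      (∀ η ζ, HasDerivAt (fun s : ℝ => fderiv ℂ φ (t + s • η) ζ) (G η ζ) 0) ∧
      (∀ ξ ζ, G (I • ξ) ζ = I • G ξ ζ) ∧
      (∀ η ζ m, S (G η ζ) m = T3 w (φ t) (fderiv ℂ φ t η) m (Θ (φ t) (fderiv ℂ φ t ζ))
        + conj (T3 w (φ t) (fderiv ℂ φ t η) (Θ (φ t) (fderiv ℂ φ t ζ)) m)
        + levi w (φ t) m (β η ζ)) ∧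
      ∀ η ζ ζ', T3 w (φ t) (fderiv ℂ φ t η) (Θ (φ t) (fderiv ℂ φ t ζ'))
          (Θ (φ t) (fderiv ℂ φ t ζ))
        + conj (T3 w (φ t) (fderiv ℂ φ t η) (Θ (φ t) (fderiv ℂ φ t ζ))
          (Θ (φ t) (fderiv ℂ φ t ζ')))
        + levi w (φ t) (β η ζ') (Θ (φ t) (fderiv ℂ φ t ζ))
        + levi w (φ t) (Θ (φ t) (fderiv ℂ φ t ζ')) (β η ζ) = 0 := by
  obtain ⟨hs1, hs2⟩ := leafC_smooth h
  have dφ : DifferentiableAt ℂ φ t := (hs1.contDiffAt (h.op.mem_nhds ht)).differentiableAt (by simp)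
  have dD : ∀ ζ, DifferentiableAt ℂ (fun t => fderiv ℂ φ t ζ) t := fun ζ =>
    ((hs2 ζ).contDiffAt (h.op.mem_nhds ht)).differentiableAt (by simp)
  obtain ⟨ΘF, hΘF⟩ : ∃ ΘF : E n × E n → E n, ΘF = fun p => Θ p.1 p.2 := ⟨_, rfl⟩
  obtain ⟨G, hG⟩ : ∃ G : (Fin r → ℂ) → (Fin r → ℂ) → E n,
    G = fun η ζ => fderiv ℂ (fun t => fderiv ℂ φ t ζ) t η := ⟨_, rfl⟩
  obtain ⟨β, hβ⟩ : ∃ β : (Fin r → ℂ) → (Fin r → ℂ) → E n,
    β = fun η ζ => fderiv ℝ ΘF (φ t, fderiv ℂ φ t ζ) (fderiv ℂ φ t η, G η ζ) := ⟨_, rfl⟩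
  have hz : ∀ η, HasDerivAt (fun s : ℝ => φ (t + s • η)) (fderiv ℂ φ t η) 0 := Od2_path dφ
  have hD : ∀ η ζ, HasDerivAt (fun s : ℝ => fderiv ℂ φ (t + s • η) ζ) (G η ζ) 0 := by
    intro η ζ
    rw [hG]
    exact Od2_path (φ := fun t => fderiv ℂ φ t ζ) (dD ζ) η
  have dΘ : ∀ ζ, DifferentiableAt ℝ ΘF (φ t, fderiv ℂ φ t ζ) := by
    intro ζ
    rw [hΘF]
    exact (hΘ.contDiffAt ((hV.prod isOpen_univ).mem_nhds ⟨hz0, Set.mem_univ _⟩)).differentiableAt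
      (by simp)
  have hb : ∀ η ζ, HasDerivAt
      (fun s : ℝ => Θ (φ (t + s • η)) (fderiv ℂ φ (t + s • η) ζ)) (β η ζ) 0 := by
    intro η ζ
    have h1 := (hz η).prodMk (hD η ζ)
    have h2 : HasFDerivAt ΘF (fderiv ℝ ΘF (φ t, fderiv ℂ φ t ζ))
        ((fun s : ℝ => (φ (t + s • η), fderiv ℂ φ (t + s • η) ζ)) 0) := by
      show HasFDerivAt ΘF (fderiv ℝ ΘF (φ t, fderiv ℂ φ t ζ))
        (φ (t + (0 : ℝ) • η), fderiv ℂ φ (t + (0 : ℝ) • η) ζ)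
      rw [zero_smul, add_zero]
      exact (dΘ ζ).hasFDerivAt
    have h3 := h2.comp_hasDerivAt (0 : ℝ) h1
    rw [hβ]
    rw [hΘF] at h3 ⊢
    exact h3
  have hev : ∀ η : Fin r → ℂ, ∀ᶠ s in 𝓝 (0 : ℝ), t + s • η ∈ N ∧ φ (t + s • η) ∈ V := by
    intro η
    have h1 : ContinuousAt (fun s : ℝ => t + s • η) 0 := by fun_prop
    have h2 : ∀ᶠ s in 𝓝 (0 : ℝ), t + s • η ∈ N := by
      apply h1.eventually
      show ∀ᶠ y in 𝓝 (t + (0 : ℝ) • η), y ∈ N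
      rw [zero_smul, add_zero]
      exact h.op.mem_nhds ht
    have h3 : ∀ᶠ s in 𝓝 (0 : ℝ), φ (t + s • η) ∈ V := by
      apply (hz η).continuousAt.eventually
      show ∀ᶠ y in 𝓝 (φ (t + (0 : ℝ) • η)), y ∈ V
      rw [zero_smul, add_zero]
      exact hV.mem_nhds hz0
    exact h2.and h3
  have hz00 : ∀ η : Fin r → ℂ, (fun s : ℝ => φ (t + s • η)) 0 ∈ U := by
    intro η
    show φ (t + (0 : ℝ) • η) ∈ U
    rw [zero_smul, add_zero]
    exact hVU hz0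
  refine ⟨G, β, hD, ?_, ?_, ?_⟩
  · intro ξ ζ
    rw [hG]
    exact map_smul _ _ _
  · intro η ζ m
    obtain ⟨G', hG', hS⟩ := drv_XX L (D := Set.univ) (s := 0) (z := fun s : ℝ => φ (t + s • η))
      (b := fun s : ℝ => Θ (φ (t + s • η)) (fderiv ℂ φ (t + s • η) ζ)) (hz00 η)
      (hz η).hasDerivWithinAt (hb η ζ).hasDerivWithinAt
    rw [hasDerivWithinAt_univ] at hG'
    have h1 : (fun s : ℝ => fderiv ℂ φ (t + s • η) ζ) =ᶠ[𝓝 0]
        fun s : ℝ => XX w (φ (t + s • η)) (Θ (φ (t + s • η)) (fderiv ℂ φ (t + s • η) ζ)) := by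
      filter_upwards [hev η] with s hs
      exact (hX _ hs.2 _ (leafC_frame h hs.1).2 ζ).symm
    have h2 : G' = G η ζ := (hG'.congr_of_eventuallyEq h1).unique (hD η ζ)
    have h3 := hS m
    rw [h2] at h3
    simp only [zero_smul, add_zero] at h3
    exact h3
  · intro η ζ ζ'
    have h1 := drv_levi L (D := Set.univ) (s := 0) (z := fun s : ℝ => φ (t + s • η))
      (a := fun s : ℝ => Θ (φ (t + s • η)) (fderiv ℂ φ (t + s • η) ζ'))
      (l := fun s : ℝ => Θ (φ (t + s • η)) (fderiv ℂ φ (t + s • η) ζ)) (hz00 η)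
      (hz η).hasDerivWithinAt (hb η ζ').hasDerivWithinAt (hb η ζ).hasDerivWithinAt
    rw [hasDerivWithinAt_univ] at h1
    have h2 : (fun _ : ℝ => ∑ j, conj (ζ' j) * ζ j) =ᶠ[𝓝 0]
        fun s : ℝ => levi w (φ (t + s • η)) (Θ (φ (t + s • η)) (fderiv ℂ φ (t + s • η) ζ'))
          (Θ (φ (t + s • η)) (fderiv ℂ φ (t + s • η) ζ)) := by
      filter_upwards [hev η] with s hs
      have hzU : φ (t + s • η) ∈ U := hVU hs.2
      have hfr := (leafC_frame h hs.1).2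
      obtain ⟨c, hcI, hc⟩ := exists_inv L hzU hfr
      have k1 : ∀ ξ, ∀ m, levi w (φ (t + s • η)) m
          (Θ (φ (t + s • η)) (fderiv ℂ φ (t + s • η) ξ))
          = levi w (φ (t + s • η)) m (bx c ξ) := by
        intro ξ
        rw [← XX_eq_iff L hzU, hX _ hs.2 _ hfr ξ]
        exact hc ξ
      have k2 := bx_levi L (y := (φ (t + s • η), c)) hzU hcI ζ' ζ
      rw [k1 ζ, ← levi_conj L hzU, k1 ζ', levi_conj L hzU]
      exact k2.symm
    have h3 := (h1.congr_of_eventuallyEq h2).unique (hasDerivAt_const (0 : ℝ) _)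
    simp only [zero_smul, add_zero] at h3
    exact h3

theorem od2 (L : Loc w U) {φ : (Fin r → ℂ) → E n} {N : Set (Fin r → ℂ)} (h : LeafC w U φ N)
    {t : Fin r → ℂ} (ht : t ∈ N) (ξ ζ : Fin r → ℂ) :
    ∃ G : E n, HasDerivAt (fun s : ℝ => fderiv ℂ φ (t + s • ξ) ζ) G 0 ∧
      ∀ b, XX w (φ t) b = fderiv ℂ φ t ζ → ∀ m, S G m = T3 w (φ t) (fderiv ℂ φ t ξ) m b := by
  have hzU : φ t ∈ U := h.mem t ht
  obtain ⟨hfd, hfr⟩ := leafC_frame h ht
  obtain ⟨b0, hI, hb0⟩ := exists_inv L hzU hfr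
  obtain ⟨V, hV, hz0, hVU, Θ, hΘ, hX⟩ := tht L (y0 := (φ t, b0)) hzU hI
  obtain ⟨G, β, hD, hGI, hE1, hE2⟩ := Od2_E L h ht hV hz0 hVU hΘ hX
  refine ⟨G ξ ζ, hD ξ ζ, ?_⟩
  -- abbreviations
  obtain ⟨v, hv⟩ : ∃ v, v = fderiv ℂ φ t ξ := ⟨_, rfl⟩
  obtain ⟨bb, hbb⟩ : ∃ bb : (Fin r → ℂ) → E n, bb = fun ζ => Θ (φ t) (fderiv ℂ φ t ζ) := ⟨_, rfl⟩
  have hbX : ∀ ζ, XX w (φ t) (bb ζ) = fderiv ℂ φ t ζ := by
    intro ζ
    rw [hbb]
    exact hX _ hz0 _ hfr ζ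
  have hvI : fderiv ℂ φ t (I • ξ) = I • v := by rw [hv, map_smul]
  have hI2 : (I : ℂ) * I = -1 := I_mul_I
  have hSsmul : ∀ (c : ℂ) (a m : E n), S (c • a) m = c * S a m := by
    intro c a m
    unfold S
    rw [Finset.mul_sum]
    refine Finset.sum_congr rfl fun i _ => ?_
    simp only [Pi.smul_apply, smul_eq_mul]
    ring
  -- the first equation for `ξ` and `I • ξ`
  have e1 : ∀ ζ m, S (G ξ ζ) m = T3 w (φ t) v m (bb ζ) + conj (T3 w (φ t) v (bb ζ) m)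
      + levi w (φ t) m (β ξ ζ) := by
    intro ζ m
    have := hE1 ξ ζ m
    rw [hv, hbb]
    exact this
  have e1I : ∀ ζ m, I * S (G ξ ζ) m = I * T3 w (φ t) v m (bb ζ)
      - I * conj (T3 w (φ t) v (bb ζ) m) + levi w (φ t) m (β (I • ξ) ζ) := by
    intro ζ m
    have k1 := hE1 (I • ξ) ζ m
    rw [hGI, hSsmul, hvI, T3_smul1, T3_smul1, map_mul, Complex.conj_I] at k1
    rw [hbb]
    linear_combination k1
  have star : ∀ ζ m, 2 * conj (T3 w (φ t) v (bb ζ) m) + levi w (φ t) m (β ξ ζ)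
      + I * levi w (φ t) m (β (I • ξ) ζ) = 0 := by
    intro ζ m
    have k1 := e1 ζ m
    have k2 := e1I ζ m
    linear_combination -k1 - I * k2
      + (S (G ξ ζ) m - T3 w (φ t) v m (bb ζ) + conj (T3 w (φ t) v (bb ζ) m)) * hI2
  -- the second equation
  have e2 : ∀ ζ ζ', T3 w (φ t) v (bb ζ') (bb ζ) + conj (T3 w (φ t) v (bb ζ) (bb ζ'))
      + levi w (φ t) (β ξ ζ') (bb ζ) + levi w (φ t) (bb ζ') (β ξ ζ) = 0 := by
    intro ζ ζ'
    have := hE2 ξ ζ ζ'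
    rw [hv, hbb]
    exact this
  have e2I : ∀ ζ ζ', I * T3 w (φ t) v (bb ζ') (bb ζ) - I * conj (T3 w (φ t) v (bb ζ) (bb ζ'))
      + levi w (φ t) (β (I • ξ) ζ') (bb ζ) + levi w (φ t) (bb ζ') (β (I • ξ) ζ) = 0 := by
    intro ζ ζ'
    have k1 := hE2 (I • ξ) ζ ζ'
    rw [hvI, T3_smul1, T3_smul1, map_mul, Complex.conj_I] at k1
    rw [hbb]
    linear_combination k1
  have k5 : ∀ ζ', levi w (φ t) (bb ζ') (β ξ ζ) = I * levi w (φ t) (bb ζ') (β (I • ξ) ζ) := by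
    intro ζ'
    have a1 := e2 ζ ζ'
    have a2 := e2I ζ ζ'
    have a3 := congrArg conj (star ζ' (bb ζ))
    rw [map_add, map_add, map_mul, map_mul, map_zero, Complex.conj_conj, Complex.conj_I,
      levi_conj L hzU, levi_conj L hzU, Complex.conj_ofNat] at a3
    linear_combination a1 - I * a2 - a3
      + (T3 w (φ t) v (bb ζ') (bb ζ) - conj (T3 w (φ t) v (bb ζ) (bb ζ'))) * hI2
  have k6 : ∀ m, levi w (φ t) m (β ξ ζ) = I * levi w (φ t) m (β (I • ξ) ζ) := by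
    intro m
    have c1 : ∀ k c, levi w (φ t) (b0 k) c = levi w (φ t) (bb (Pi.single k 1)) c := by
      intro k c
      have c2 : XX w (φ t) (b0 k) = XX w (φ t) (bb (Pi.single k 1)) := by
        rw [hbX, hb0]
        congr 1
        unfold bx
        rw [Finset.sum_eq_single k]
        · simp
        · intro j _ hj
          rw [Pi.single_eq_of_ne hj]
          simp
        · intro hk
          exact absurd (Finset.mem_univ k) hk
      rw [XX_eq_iff L hzU] at c2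
      rw [← levi_conj L hzU, c2 c, levi_conj L hzU]
    have c3 : ∀ c, levi w (φ t) m c = ∑ k, levi w (φ t) m (b0 k) * levi w (φ t) (b0 k) c :=
      fun c => hI.rk m c
    rw [c3 (β ξ ζ), c3 (β (I • ξ) ζ), Finset.mul_sum]
    refine Finset.sum_congr rfl fun k _ => ?_
    rw [c1 k (β ξ ζ), c1 k (β (I • ξ) ζ), k5]
    ring
  have k7 : ∀ m, S (G ξ ζ) m = T3 w (φ t) v m (bb ζ) := by
    intro m
    have a1 := e1 ζ m
    have a2 := star ζ m
    have a3 := k6 m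
    linear_combination a1 + a2 / 2 + a3 / 2
  intro b hb m
  rw [k7 m, ← hv]
  have d1 : XX w (φ t) b = XX w (φ t) (bb ζ) := by rw [hb, hbX]
  rw [XX_eq_iff L hzU] at d1
  have d2 : ∀ c, levi w (φ t) (b - bb ζ) c = 0 := by
    intro c
    have d3 : levi w (φ t) c (b - bb ζ) = 0 := by
      have d4 := levi_add_right L hzU c (b - bb ζ) (bb ζ)
      rw [sub_add_cancel, d1 c] at d4
      linear_combination -d4
    rw [← levi_conj L hzU, d3, map_zero]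
  have d5 : v = XX w (φ t) (bb ξ) := by rw [hbX, hv]
  have d6 : T3 w (φ t) v m (b - bb ζ) = 0 := by
    rw [d5]
    exact T3_ker L hzU d2 _ _
  have d7 := T3_add3 L hzU v m (b - bb ζ) (bb ζ)
  rw [sub_add_cancel, d6, zero_add] at d7
  exact d7.symm

end Pool.Agent.LFC
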