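import Pool.Agent.LFC.Defs

/-!
Tds (size 5): integrability theorem for commuting fields (Frobenius), with an invariant set. Abstract, only Mathlib.
`W` open in `H`, `A y : P →L[ℝ] H` of class `C²` on `W`; `Inv` is invariant under the solutions of `γ' = A(γ) ξ` and
the fields `A · ξ` commute at the points of `Inv`. Then near `y0 ∈ W` there are solutions of `DY(t) = A(Y(t))`.
PROOF. (1) Choose `a > 0` with `closedBall y0 a ⊆ W`, constants `M`, `K`, `C` with, for `x, x' ∈ closedBall y0 a`: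
`‖A x‖ ≤ M`, `‖A x - A x'‖ ≤ K ‖x - x'‖`, `‖A x' - A x - fderiv ℝ A x (x' - x)‖ ≤ C ‖x' - x‖²`
(`fderiv ℝ A` is `C¹`, so Lipschitz on a small ball (`ContDiffAt.exists_lipschitzOnWith`); mean value inequality
`Convex.norm_image_sub_le_of_norm_hasFDerivWithin_le'`). `δ = a / (4 (M + 1))`, `ρ = a / 4`.
(2) For `y ∈ ball y0 ρ` and `‖ξ‖ < δ` there is `γ = γ_ξ : ℝ → H`, `γ 0 = y`, with values in `closedBall y0 (a/2)` for
`s ∈ Icc 0 1` and `HasDerivWithinAt γ (A (γ s) ξ) (Icc 0 1) s` (Picard-Lindelöf, `IsPicardLindelof`, the field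
`x ↦ A x ξ` is bounded by `M δ ≤ a/4` and Lipschitz on `closedBall y0 (a/2)`; `H` is complete). Put `Y ξ = γ_ξ 1`.
`Y 0 = y` (the solution for `ξ = 0` has derivative 0). `Y ξ ∈ Inv` by `hinv`.
(3) Derivative of `Y` at `ξ`, `‖ξ‖ < δ`. For small `h`: `g_h(s) = γ_ξ s + s • A (γ_ξ s) h` stays in `closedBall y0 a`;
`g_h'(s) = A(γ)ξ + A(γ)h + s • (fderiv ℝ A γ (A(γ)ξ)) h`. Let `k = s • A(γ) h`. Since `γ s ∈ Inv`, `hcom` gives
`(fderiv ℝ A γ (A(γ)ξ)) h = (fderiv ℝ A γ (A(γ)h)) ξ` (`fderiv` of `x ↦ A x h` is `fderiv ℝ A x · h`), so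
`g_h' = A(γ)(ξ + h) + (fderiv ℝ A γ k) ξ` and
`‖g_h' - A(g_h)(ξ + h)‖ = ‖(A γ + fderiv ℝ A γ k - A (γ + k)) ξ + (A γ - A (γ + k)) h‖ ≤ C ‖k‖² ‖ξ‖ + K ‖k‖ ‖h‖ ≤ C' ‖h‖²`.
Gronwall (`dist_le_of_approx_trajectories_ODE_of_mem`, both curves in `closedBall y0 a`, `γ_(ξ+h)` exact, same value
at `0`): `‖γ_(ξ+h) 1 - g_h 1‖ ≤ C'' ‖h‖²`, i.e. `‖Y (ξ+h) - Y ξ - A (Y ξ) h‖ ≤ C'' ‖h‖²`.
-/

open scoped ContDiff Topology NNReal

namespace Pool.Agent.LFC

private theorem Tds_sol {H : Type*} [NormedAddCommGroup H] [NormedSpace ℝ H] [CompleteSpace H]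
    (f : H → H) (y : H) (a L K : ℝ≥0) (hb : ∀ x ∈ Metric.closedBall y (a : ℝ), ‖f x‖ ≤ L)
    (hl : LipschitzOnWith K f (Metric.closedBall y (a : ℝ))) (hLa : (L : ℝ) ≤ a) :
    ∃ γ : ℝ → H, γ 0 = y ∧ (∀ s, γ s ∈ Metric.closedBall y (a : ℝ)) ∧
      ∀ s ∈ Set.Icc (0 : ℝ) 1, HasDerivWithinAt γ (f (γ s)) (Set.Icc 0 1) s := by
  have hf : IsPicardLindelof (fun _ : ℝ => f) (⟨0, by simp⟩ : Set.Icc (0 : ℝ) 1) y a 0 L K :=
    IsPicardLindelof.of_time_independent hb hl (by simpa using hLa)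
  have hx : y ∈ Metric.closedBall y ((0 : ℝ≥0) : ℝ) := by simp
  obtain ⟨α, hα⟩ := ODE.FunSpace.exists_isFixedPt_next hf hx
  refine ⟨α.compProj, ?_, fun s => α.compProj_mem_closedBall hf.mul_max_le, fun t ht => ?_⟩
  · have h0 : α.compProj (((⟨0, by simp⟩ : Set.Icc (0 : ℝ) 1)) : ℝ) = y := by
      rw [ODE.FunSpace.compProj_val, ← hα, ODE.FunSpace.next_apply₀]
    exact h0
  · have h1 := ODE.hasDerivWithinAt_picard_Icc (⟨0, by simp⟩ : Set.Icc (0 : ℝ) 1).2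
      hf.continuousOn_uncurry α.continuous_compProj.continuousOn
      (fun _ ht' ↦ α.compProj_mem_closedBall hf.mul_max_le) y ht
    refine h1.congr_of_mem ?_ ht
    intro t' ht'
    nth_rw 1 [← hα]
    rw [ODE.FunSpace.compProj_of_mem ht', ODE.FunSpace.next_apply]

private theorem Tds_ball {P H : Type*} [NormedAddCommGroup P] [NormedSpace ℝ P]
    [NormedAddCommGroup H] [NormedSpace ℝ H]
    {W : Set H} (hW : IsOpen W) (A : H → P →L[ℝ] H) (hA : ContDiffOn ℝ ∞ A W)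
    {y0 : H} (hy0 : y0 ∈ W) :
    ∃ a > 0, ∃ M K C : ℝ, 0 ≤ M ∧ 0 ≤ K ∧ 0 ≤ C ∧ Metric.closedBall y0 a ⊆ W ∧
      (∀ x ∈ Metric.closedBall y0 a, ‖A x‖ ≤ M) ∧
      (∀ x ∈ Metric.closedBall y0 a, ∀ x' ∈ Metric.closedBall y0 a,
        ‖A x' - A x‖ ≤ K * ‖x' - x‖) ∧
      (∀ x ∈ Metric.closedBall y0 a, ∀ x' ∈ Metric.closedBall y0 a,
        ‖A x' - A x - fderiv ℝ A x (x' - x)‖ ≤ C * ‖x' - x‖ ^ 2) := by
  have hcd : ContDiffAt ℝ ∞ A y0 := hA.contDiffAt (hW.mem_nhds hy0)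
  have hd : ∀ x ∈ W, HasFDerivAt A (fderiv ℝ A x) x := fun x hx =>
    ((hA.contDiffAt (hW.mem_nhds hx)).differentiableAt (by simp)).hasFDerivAt
  obtain ⟨K, t, ht, hK⟩ := (hcd.of_le (m := 1) (by exact_mod_cast le_top)).exists_lipschitzOnWith
  obtain ⟨C, t', ht', hC⟩ := (hcd.fderiv_right (m := 1)
    (by rw [one_add_one_eq_two]; exact WithTop.coe_le_coe.2 le_top)).exists_lipschitzOnWith
  obtain ⟨a, ha, hsub⟩ := Metric.nhds_basis_closedBall.mem_iff.1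
    (Filter.inter_mem (hW.mem_nhds hy0) (Filter.inter_mem ht ht'))
  refine ⟨a, ha, ‖A y0‖ + K * a, K, C, by positivity, K.2, C.2, fun x hx => (hsub hx).1,
    fun x hx => ?_, fun x hx x' hx' => ?_, fun x hx x' hx' => ?_⟩
  · have h1 := hK.dist_le_mul x (hsub hx).2.1 y0 (hsub (Metric.mem_closedBall_self ha.le)).2.1
    have h2 : dist x y0 ≤ a := hx
    have h3 : (K : ℝ) * dist x y0 ≤ K * a := mul_le_mul_of_nonneg_left h2 K.2
    rw [dist_eq_norm] at h1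
    have h4 : ‖A x‖ ≤ ‖A x - A y0‖ + ‖A y0‖ := by
      have := norm_add_le (A x - A y0) (A y0)
      rwa [sub_add_cancel] at this
    linarith
  · have h1 := hK.dist_le_mul x' (hsub hx').2.1 x (hsub hx).2.1
    rwa [dist_eq_norm, dist_eq_norm] at h1
  · have hseg : segment ℝ x x' ⊆ Metric.closedBall y0 a :=
      (convex_closedBall y0 a).segment_subset hx hx'
    have h1 : ∀ z ∈ segment ℝ x x', ‖fderiv ℝ A z - fderiv ℝ A x‖ ≤ C * ‖x' - x‖ := by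
      intro z hz
      have h2 := hC.dist_le_mul z (hsub (hseg hz)).2.2 x (hsub hx).2.2
      rw [dist_eq_norm, dist_eq_norm] at h2
      have h3 : ‖z - x‖ ≤ ‖x' - x‖ := by
        have := norm_sub_le_of_mem_segment hz
        rwa [norm_sub_rev x' x, norm_sub_rev z x] at *
      exact h2.trans (mul_le_mul_of_nonneg_left h3 C.2)
    have h4 := (convex_segment x x').norm_image_sub_le_of_norm_hasFDerivWithin_le'
      (f := A) (f' := fderiv ℝ A) (φ := fderiv ℝ A x)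
      (fun z hz => (hd z (hsub (hseg hz)).1).hasFDerivWithinAt) h1
      (left_mem_segment ℝ x x') (right_mem_segment ℝ x x')
    calc _ ≤ C * ‖x' - x‖ * ‖x' - x‖ := h4
      _ = C * ‖x' - x‖ ^ 2 := by ring

private theorem Tds_key {P H : Type*} [NormedAddCommGroup P] [NormedSpace ℝ P]
    [NormedAddCommGroup H] [NormedSpace ℝ H]
    (A : H → P →L[ℝ] H) (y0 : H) {a M K C D : ℝ} (hK0 : 0 ≤ K) (hC0 : 0 ≤ C)
    (hM : ∀ x ∈ Metric.closedBall y0 a, ‖A x‖ ≤ M)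
    (hK : ∀ x ∈ Metric.closedBall y0 a, ∀ x' ∈ Metric.closedBall y0 a,
        ‖A x' - A x‖ ≤ K * ‖x' - x‖)
    (hC : ∀ x ∈ Metric.closedBall y0 a, ∀ x' ∈ Metric.closedBall y0 a,
        ‖A x' - A x - fderiv ℝ A x (x' - x)‖ ≤ C * ‖x' - x‖ ^ 2)
    (ha : 0 < a)
    (ξ h : P) (γ γ' : ℝ → H) (hξ : ‖ξ‖ ≤ D) (hξh : ‖ξ + h‖ ≤ D)
    (hγ : ∀ s, γ s ∈ Metric.closedBall y0 (a / 2)) (hγ' : ∀ s, γ' s ∈ Metric.closedBall y0 (a / 2))
    (dA : ∀ x ∈ Metric.closedBall y0 a, HasFDerivAt A (fderiv ℝ A x) x)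
    (dγ : ∀ s ∈ Set.Icc (0 : ℝ) 1, HasDerivWithinAt γ (A (γ s) ξ) (Set.Icc 0 1) s)
    (dγ' : ∀ s ∈ Set.Icc (0 : ℝ) 1, HasDerivWithinAt γ' (A (γ' s) (ξ + h)) (Set.Icc 0 1) s)
    (h0 : γ 0 = γ' 0)
    (comm : ∀ s ∈ Set.Icc (0 : ℝ) 1,
      fderiv ℝ A (γ s) (A (γ s) ξ) h = fderiv ℝ A (γ s) (A (γ s) h) ξ)
    (hh : M * ‖h‖ ≤ a / 2) :
    ‖γ' 1 - γ 1 - A (γ 1) h‖ ≤
      (C * M ^ 2 * D + K * M) / (K * D + 1) * (Real.exp (K * D + 1) - 1) * ‖h‖ ^ 2 := by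
  have hD0 : 0 ≤ D := (norm_nonneg _).trans hξ
  have hsub : Metric.closedBall y0 (a / 2) ⊆ Metric.closedBall y0 a :=
    Metric.closedBall_subset_closedBall (by linarith)
  set g : ℝ → H := fun s => γ s + s • A (γ s) h with hg
  have hkn : ∀ s ∈ Set.Icc (0 : ℝ) 1, ‖s • A (γ s) h‖ ≤ M * ‖h‖ := by
    intro s hs
    rw [norm_smul, Real.norm_of_nonneg hs.1]
    have h1 : ‖A (γ s) h‖ ≤ M * ‖h‖ :=
      ((A (γ s)).le_opNorm h).trans
        (mul_le_mul_of_nonneg_right (hM _ (hsub (hγ s))) (norm_nonneg _))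
    calc s * ‖A (γ s) h‖ ≤ 1 * ‖A (γ s) h‖ := mul_le_mul_of_nonneg_right hs.2 (norm_nonneg _)
      _ ≤ M * ‖h‖ := by rw [one_mul]; exact h1
  have hgb : ∀ s ∈ Set.Icc (0 : ℝ) 1, g s ∈ Metric.closedBall y0 a := by
    intro s hs
    have h1 : ‖γ s - y0‖ ≤ a / 2 := by
      have := hγ s
      rwa [Metric.mem_closedBall, dist_eq_norm] at this
    rw [Metric.mem_closedBall, dist_eq_norm]
    have h2 : g s - y0 = (γ s - y0) + s • A (γ s) h := by
      simp only [hg]; abel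
    rw [h2]
    exact (norm_add_le _ _).trans (by linarith [hkn s hs])
  have dg : ∀ s ∈ Set.Icc (0 : ℝ) 1, HasDerivWithinAt g
      (A (γ s) ξ + (s • (fderiv ℝ A (γ s) (A (γ s) ξ) h) + (1 : ℝ) • A (γ s) h)) (Set.Icc 0 1) s := by
    intro s hs
    have h1 : HasDerivWithinAt (fun s => A (γ s)) (fderiv ℝ A (γ s) (A (γ s) ξ))
        (Set.Icc 0 1) s :=
      (dA (γ s) (hsub (hγ s))).comp_hasDerivWithinAt s (dγ s hs)
    have h2 : HasDerivWithinAt (fun s => A (γ s) h) (fderiv ℝ A (γ s) (A (γ s) ξ) h)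
        (Set.Icc 0 1) s := by
      have := ((ContinuousLinearMap.apply ℝ H h).hasFDerivAt
        (x := A (γ s))).comp_hasDerivWithinAt s h1
      exact this
    exact (dγ s hs).add ((hasDerivWithinAt_id s _).smul h2)
  have hkb : ∀ s ∈ Set.Icc (0 : ℝ) 1,
      dist (A (γ s) ξ + (s • (fderiv ℝ A (γ s) (A (γ s) ξ) h) + (1 : ℝ) • A (γ s) h))
        (A (g s) (ξ + h)) ≤ (C * M ^ 2 * D + K * M) * ‖h‖ ^ 2 := by
    intro s hs
    rw [comm s hs, dist_eq_norm]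
    set k : H := s • A (γ s) h with hk
    have hgk : g s = γ s + k := rfl
    have e1 : A (γ s) ξ + (s • (fderiv ℝ A (γ s) (A (γ s) h) ξ) + (1 : ℝ) • A (γ s) h)
        - A (g s) (ξ + h) = -((A (g s) - A (γ s) - fderiv ℝ A (γ s) (g s - γ s)) ξ)
          - (A (g s) - A (γ s)) h := by
      have e2 : g s - γ s = k := by rw [hgk]; abel
      have e3 : s • (fderiv ℝ A (γ s) (A (γ s) h) ξ) = fderiv ℝ A (γ s) k ξ := by
        rw [hk, map_smul]; rfl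
      rw [e2, e3, one_smul, map_add]
      simp only [sub_apply]
      abel
    rw [e1]
    have e4 : g s - γ s = k := by rw [hgk]; abel
    have hkk : ‖g s - γ s‖ ≤ M * ‖h‖ := by rw [e4]; exact hkn s hs
    have b1 : ‖(A (g s) - A (γ s) - fderiv ℝ A (γ s) (g s - γ s)) ξ‖
        ≤ C * (M * ‖h‖) ^ 2 * D := by
      refine (ContinuousLinearMap.le_opNorm _ _).trans ?_
      have c1 := hC (γ s) (hsub (hγ s)) (g s) (hgb s hs)
      have c2 : ‖g s - γ s‖ ^ 2 ≤ (M * ‖h‖) ^ 2 := pow_le_pow_left₀ (norm_nonneg _) hkk 2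
      exact mul_le_mul (c1.trans (mul_le_mul_of_nonneg_left c2 hC0)) hξ (norm_nonneg _)
        (by positivity)
    have b2 : ‖(A (g s) - A (γ s)) h‖ ≤ K * (M * ‖h‖) * ‖h‖ := by
      refine (ContinuousLinearMap.le_opNorm _ _).trans ?_
      exact mul_le_mul_of_nonneg_right ((hK (γ s) (hsub (hγ s)) (g s) (hgb s hs)).trans
        (mul_le_mul_of_nonneg_left hkk hK0)) (norm_nonneg _)
    calc _ ≤ ‖-((A (g s) - A (γ s) - fderiv ℝ A (γ s) (g s - γ s)) ξ)‖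
          + ‖(A (g s) - A (γ s)) h‖ := norm_sub_le _ _
      _ ≤ C * (M * ‖h‖) ^ 2 * D + K * (M * ‖h‖) * ‖h‖ := by
          rw [norm_neg]; exact add_le_add b1 b2
      _ = (C * M ^ 2 * D + K * M) * ‖h‖ ^ 2 := by ring
  have hK' : (0 : ℝ) ≤ K * D + 1 := by positivity
  have hlip : ∀ t ∈ Set.Ico (0 : ℝ) 1, LipschitzOnWith (⟨K * D + 1, hK'⟩ : ℝ≥0)
      ((fun _ x => A x (ξ + h)) t) ((fun _ => Metric.closedBall y0 a) t) := by
    intro t _
    refine LipschitzOnWith.of_dist_le_mul fun x hx x' hx' => ?_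
    rw [dist_eq_norm, dist_eq_norm]
    have e1 : A x (ξ + h) - A x' (ξ + h) = (A x - A x') (ξ + h) := by simp
    show ‖A x (ξ + h) - A x' (ξ + h)‖ ≤ (K * D + 1) * ‖x - x'‖
    rw [e1]
    refine (ContinuousLinearMap.le_opNorm _ _).trans ?_
    calc ‖A x - A x'‖ * ‖ξ + h‖ ≤ (K * ‖x - x'‖) * D :=
          mul_le_mul (hK x' hx' x hx) hξh (norm_nonneg _) (by positivity)
      _ ≤ (K * D + 1) * ‖x - x'‖ := by nlinarith [norm_nonneg (x - x')]
  have hG := dist_le_of_approx_trajectories_ODE_of_mem (a := (0 : ℝ)) (b := 1)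
    (f := γ') (g := g) (f' := fun s => A (γ' s) (ξ + h))
    (g' := fun s => A (γ s) ξ + (s • (fderiv ℝ A (γ s) (A (γ s) ξ) h) + (1 : ℝ) • A (γ s) h))
    (v := fun _ x => A x (ξ + h)) (s := fun _ => Metric.closedBall y0 a)
    (K := (⟨K * D + 1, hK'⟩ : ℝ≥0)) (εf := 0) (εg := (C * M ^ 2 * D + K * M) * ‖h‖ ^ 2) (δ := 0)
    hlip
    (fun s hs => (dγ' s hs).continuousWithinAt)
    (fun s hs => (dγ' s (Set.Ico_subset_Icc_self hs)).mono_of_mem_nhdsWithin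
      (Icc_mem_nhdsGE_of_mem hs))
    (fun s _ => by simp)
    (fun s _ => hsub (hγ' s))
    (fun s hs => (dg s hs).continuousWithinAt)
    (fun s hs => (dg s (Set.Ico_subset_Icc_self hs)).mono_of_mem_nhdsWithin
      (Icc_mem_nhdsGE_of_mem hs))
    (fun s hs => hkb s (Set.Ico_subset_Icc_self hs))
    (fun s hs => hgb s (Set.Ico_subset_Icc_self hs))
    (by simp [hg, h0]) 1 (by simp)
  rw [gronwallBound_of_K_ne_0 (by
    show (K * D + 1) ≠ 0
    positivity)] at hG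
  have hG2 : dist (γ' 1) (g 1) ≤ ((C * M ^ 2 * D + K * M) * ‖h‖ ^ 2) / (K * D + 1) *
      (Real.exp (K * D + 1) - 1) := by
    simp only [zero_add, sub_zero, mul_one, zero_mul] at hG
    exact hG
  have e5 : γ' 1 - γ 1 - A (γ 1) h = γ' 1 - g 1 := by
    simp only [hg, one_smul]; abel
  rw [e5, ← dist_eq_norm]
  refine hG2.trans (le_of_eq ?_)
  ring

theorem tds {P H : Type*} [NormedAddCommGroup P] [NormedSpace ℝ P] [FiniteDimensional ℝ P]
    [NormedAddCommGroup H] [NormedSpace ℝ H] [FiniteDimensional ℝ H]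
    {W : Set H} (hW : IsOpen W) (A : H → P →L[ℝ] H) (hA : ContDiffOn ℝ ∞ A W) (Inv : Set H)
    (hinv : ∀ (ξ : P) (γ : ℝ → H), (∀ s ∈ Set.Icc (0 : ℝ) 1, γ s ∈ W) →
      (∀ s ∈ Set.Icc (0 : ℝ) 1, HasDerivWithinAt γ (A (γ s) ξ) (Set.Icc 0 1) s) → γ 0 ∈ Inv →
      ∀ s ∈ Set.Icc (0 : ℝ) 1, γ s ∈ Inv)
    (hcom : ∀ y ∈ W, y ∈ Inv → ∀ ξ ζ : P,
      fderiv ℝ (fun x => A x ζ) y (A y ξ) = fderiv ℝ (fun x => A x ξ) y (A y ζ))
    {y0 : H} (hy0 : y0 ∈ W) :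
    ∃ ρ > 0, ∃ δ > 0, ∀ y, dist y y0 < ρ → y ∈ Inv → ∃ Y : P → H, Y 0 = y ∧
      ∀ t ∈ Metric.ball (0 : P) δ, Y t ∈ W ∧ Y t ∈ Inv ∧ HasFDerivAt Y (A (Y t)) t := by
  classical
  have : CompleteSpace H := FiniteDimensional.complete ℝ H
  obtain ⟨a, ha, M, K, C, hM0, hK0, hC0, hsubW, hM, hK, hC⟩ := Tds_ball hW A hA hy0
  have dA : ∀ x ∈ Metric.closedBall y0 a, HasFDerivAt A (fderiv ℝ A x) x := fun x hx =>
    ((hA.contDiffAt (hW.mem_nhds (hsubW hx))).differentiableAt (by simp)).hasFDerivAt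
  have hfa : ∀ x ∈ Metric.closedBall y0 a, ∀ ζ : P, ∀ v : H,
      fderiv ℝ (fun z => A z ζ) x v = fderiv ℝ A x v ζ := by
    intro x hx ζ v
    have := ((ContinuousLinearMap.apply ℝ H ζ).hasFDerivAt (x := A x)).comp x (dA x hx)
    have e : HasFDerivAt (fun z => A z ζ)
      ((ContinuousLinearMap.apply ℝ H ζ).comp (fderiv ℝ A x)) x := this
    rw [e.fderiv]
    rfl
  set δ : ℝ := a / (4 * (M + 1)) with hδ
  have hM1 : 0 < M + 1 := by linarith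
  have hδ0 : 0 < δ := by positivity
  have hMδ : M * δ ≤ a / 4 := by
    rw [hδ]
    have : M * (a / (4 * (M + 1))) = (M / (M + 1)) * (a / 4) := by
      field_simp
    rw [this]
    have h1 : M / (M + 1) ≤ 1 := by
      rw [div_le_one hM1]; linarith
    calc M / (M + 1) * (a / 4) ≤ 1 * (a / 4) :=
          mul_le_mul_of_nonneg_right h1 (by positivity)
      _ = a / 4 := one_mul _
  refine ⟨a / 4, by positivity, δ, hδ0, fun y hy hyI => ?_⟩
  have hyb : Metric.closedBall y (a / 4) ⊆ Metric.closedBall y0 (a / 2) := by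
    intro x hx
    rw [Metric.mem_closedBall] at *
    have := dist_triangle x y y0
    linarith
  have hsub : Metric.closedBall y0 (a / 2) ⊆ Metric.closedBall y0 a :=
    Metric.closedBall_subset_closedBall (by linarith)
  have hex : ∀ ξ : P, ‖ξ‖ < δ → ∃ γ : ℝ → H, γ 0 = y ∧
      (∀ s, γ s ∈ Metric.closedBall y0 (a / 2)) ∧
      ∀ s ∈ Set.Icc (0 : ℝ) 1, HasDerivWithinAt γ (A (γ s) ξ) (Set.Icc 0 1) s := by
    intro ξ hξ
    obtain ⟨γ, g0, g1, g2⟩ := Tds_sol (fun x => A x ξ) y ⟨a / 4, by positivity⟩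
      ⟨M * δ, by positivity⟩ ⟨K * δ, by positivity⟩
      (by
        intro x hx
        have hx' : x ∈ Metric.closedBall y0 a := hsub (hyb hx)
        show ‖A x ξ‖ ≤ M * δ
        exact ((A x).le_opNorm ξ).trans (mul_le_mul (hM x hx') hξ.le (norm_nonneg _) hM0))
      (by
        refine LipschitzOnWith.of_dist_le_mul fun x hx x' hx' => ?_
        rw [dist_eq_norm, dist_eq_norm]
        have e1 : A x ξ - A x' ξ = (A x - A x') ξ := by simp
        show ‖A x ξ - A x' ξ‖ ≤ (K * δ) * ‖x - x'‖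
        rw [e1]
        refine (ContinuousLinearMap.le_opNorm _ _).trans ?_
        calc ‖A x - A x'‖ * ‖ξ‖ ≤ (K * ‖x - x'‖) * δ :=
              mul_le_mul (hK x' (hsub (hyb hx')) x (hsub (hyb hx))) hξ.le (norm_nonneg _)
                (by positivity)
          _ = (K * δ) * ‖x - x'‖ := by ring)
      (by
        show M * δ ≤ a / 4
        exact hMδ)
    exact ⟨γ, g0, fun s => hyb (g1 s), g2⟩
  choose! γ g0 g1 g2 using hex
  have hInv : ∀ ξ : P, ‖ξ‖ < δ → ∀ s ∈ Set.Icc (0 : ℝ) 1, γ ξ s ∈ Inv := fun ξ hξ =>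
    hinv ξ (γ ξ) (fun s _ => hsubW (hsub (g1 ξ hξ s))) (g2 ξ hξ) (by rw [g0 ξ hξ]; exact hyI)
  refine ⟨fun ξ => γ ξ 1, ?_, fun ξ hξ => ?_⟩
  · have h0δ : ‖(0 : P)‖ < δ := by simpa using hδ0
    have hc := constant_of_has_deriv_right_zero (a := (0 : ℝ)) (b := 1) (f := γ 0)
      (fun s hs => (g2 0 h0δ s hs).continuousWithinAt)
      (fun s hs => by
        have := (g2 0 h0δ s (Set.Ico_subset_Icc_self hs)).mono_of_mem_nhdsWithin
          (Icc_mem_nhdsGE_of_mem hs)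
        rwa [map_zero] at this) 1 (by simp)
    show γ 0 1 = y
    rw [hc, g0 0 h0δ]
  · have hξ' : ‖ξ‖ < δ := by simpa using hξ
    refine ⟨hsubW (hsub (g1 ξ hξ' 1)), hInv ξ hξ' 1 (by simp), ?_⟩
    set C2 : ℝ := (C * M ^ 2 * δ + K * M) / (K * δ + 1) * (Real.exp (K * δ + 1) - 1) with hC2
    have hKδ : 0 ≤ K * δ := by positivity
    have hC20 : 0 ≤ C2 := by
      have : 0 ≤ Real.exp (K * δ + 1) - 1 := by
        have := Real.add_one_le_exp (K * δ + 1)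
        linarith
      positivity
    have hlocal : ∀ᶠ h in 𝓝 (0 : P), ‖γ (ξ + h) 1 - γ ξ 1 - A (γ ξ 1) h‖ ≤ C2 * ‖h‖ ^ 2 := by
      have c1 : ∀ᶠ h in 𝓝 (0 : P), ‖ξ + h‖ < δ := by
        have : Filter.Tendsto (fun h : P => ‖ξ + h‖) (𝓝 0) (𝓝 ‖ξ + 0‖) :=
          (continuous_norm.comp (continuous_const.add continuous_id)).tendsto 0
        rw [add_zero] at this
        exact this.eventually (gt_mem_nhds hξ')
      have c2 : ∀ᶠ h in 𝓝 (0 : P), M * ‖h‖ < a / 2 := by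
        have : Filter.Tendsto (fun h : P => M * ‖h‖) (𝓝 0) (𝓝 (M * ‖(0 : P)‖)) :=
          (continuous_const.mul continuous_norm).tendsto 0
        rw [norm_zero, mul_zero] at this
        exact this.eventually (gt_mem_nhds (by positivity))
      filter_upwards [c1, c2] with h h1 h2
      exact Tds_key A y0 hK0 hC0 hM hK hC ha ξ h (γ ξ) (γ (ξ + h)) hξ'.le h1.le
        (g1 ξ hξ') (g1 _ h1) dA (g2 ξ hξ') (g2 _ h1) (by rw [g0 ξ hξ', g0 _ h1])
        (fun s hs => by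
          have hb := hsub (g1 ξ hξ' s)
          rw [← hfa _ hb, ← hfa _ hb]
          exact hcom _ (hsubW hb) (hInv ξ hξ' s hs) ξ h) h2.le
    rw [hasFDerivAt_iff_isLittleO_nhds_zero]
    have hO : (fun h : P => γ (ξ + h) 1 - γ ξ 1 - A (γ ξ 1) h) =O[𝓝 0] fun h => ‖h‖ ^ 2 := by
      refine Asymptotics.IsBigO.of_bound C2 ?_
      filter_upwards [hlocal] with h hh
      rw [Real.norm_of_nonneg (by positivity)]
      exact hh
    refine hO.trans_isLittleO ?_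
    have := (Asymptotics.isLittleO_pow_id (𝕜 := ℝ) one_lt_two).comp_tendsto
      (tendsto_norm_zero (E := P))
    exact (this : (fun h : P => ‖h‖ ^ 2) =o[𝓝 0] fun h : P => ‖h‖).of_norm_right

end Pool.Agent.LFC
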