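import Pool.Agent.LFC.Defs

/-!
Trl (size 3): the trilinear form `T3 w z v a l = ∂_v (F(a, l̄))`, `F = levi w`.
All statements at a point `z` of the open set `U` of `L : Loc w U`.
`T3_eq_sum`: on `U`, `Lf w a l y = ∑ p, ∑ q, a p * conj (l q) * LM w y p q` (`levi_eq_sum`), `d10_congr`, `d10_sum`,
`d10_const_mul`, `d10_eq_sum` (`pk k f z = d10 f z (e k)`). `T3_add2`, `T3_smul2`, `T3_add3`, `T3_smul3` and the sums
follow from it (or from `levi_add_left` ... in SKF/LvA.lean). `T3_swap` is `d10_Lf_symm`, `T3_symm` is `Cf_symm`,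
`T3_ker` is `Cf_ker` (SKF/Sym.lean). `d01_Lf`: `conj (levi w y a l) = levi w y l a` on `U` (`levi_conj`) and `d10_conj`.
`fd_Lf`: `fderiv ℝ f z v = d10 f z v + d01 f z v` (unfold; `ring`).
-/

open scoped ContDiff ComplexConjugate Topology
open Complex

namespace Pool.Agent.LFC

open Pool.Agent.DTW Pool.Agent.SKF

variable {n r : ℕ} {U : Set (E n)} {w : E n → ℝ} {z : E n}

theorem fd_eq (f : E n → ℂ) (z v : E n) : fderiv ℝ f z v = d10 f z v + d01 f z v := by
  unfold d10 d01
  ring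

theorem T3_eq_sum (L : Loc w U) (hz : z ∈ U) (v a l : E n) :
    T3 w z v a l = ∑ k, ∑ p, ∑ q, v k * a p * conj (l q) * pk k (fun y => LM w y p q) z := by
  have h1 : Lf w a l =ᶠ[𝓝 z] fun y => ∑ p, ∑ q, a p * conj (l q) * LM w y p q := by
    filter_upwards [L.op.mem_nhds hz] with y hy
    exact levi_eq_sum (L.sm.contDiffAt (L.op.mem_nhds hy)) a l
  have hd : ∀ p q, DifferentiableAt ℝ (fun y => LM w y p q) z := fun p q => diffLM L.op L.sm hz p q
  unfold T3
  rw [d10_congr h1, d10_eq_sum]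
  refine Finset.sum_congr rfl fun k _ => ?_
  have h2 := d10_sum (z := z) (a := e k) Finset.univ
    (fun p y => ∑ q, a p * conj (l q) * LM w y p q)
    (fun p _ => DifferentiableAt.fun_sum fun q _ => (differentiableAt_const _).mul (hd p q))
  have h3 : pk k (fun y => ∑ p, ∑ q, a p * conj (l q) * LM w y p q) z
      = ∑ p, ∑ q, a p * conj (l q) * pk k (fun y => LM w y p q) z := by
    refine h2.trans (Finset.sum_congr rfl fun p _ => ?_)
    have h4 := d10_sum (z := z) (a := e k) Finset.univ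
      (fun q y => a p * conj (l q) * LM w y p q)
      (fun q _ => (differentiableAt_const _).mul (hd p q))
    refine h4.trans (Finset.sum_congr rfl fun q _ => ?_)
    exact d10_const_mul (hd p q) _
  rw [h3, Finset.mul_sum]
  refine Finset.sum_congr rfl fun p _ => ?_
  rw [Finset.mul_sum]
  refine Finset.sum_congr rfl fun q _ => ?_
  ring

theorem T3_add2 (L : Loc w U) (hz : z ∈ U) (v a a' l : E n) :
    T3 w z v (a + a') l = T3 w z v a l + T3 w z v a' l := by
  rw [T3_eq_sum L hz, T3_eq_sum L hz, T3_eq_sum L hz]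
  simp only [← Finset.sum_add_distrib]
  refine Finset.sum_congr rfl fun k _ => Finset.sum_congr rfl fun p _ =>
    Finset.sum_congr rfl fun q _ => ?_
  rw [Pi.add_apply]
  ring

theorem T3_smul2 (L : Loc w U) (hz : z ∈ U) (c : ℂ) (v a l : E n) :
    T3 w z v (c • a) l = c * T3 w z v a l := by
  rw [T3_eq_sum L hz, T3_eq_sum L hz]
  simp only [Finset.mul_sum]
  refine Finset.sum_congr rfl fun k _ => Finset.sum_congr rfl fun p _ =>
    Finset.sum_congr rfl fun q _ => ?_
  rw [Pi.smul_apply, smul_eq_mul]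
  ring

theorem T3_add3 (L : Loc w U) (hz : z ∈ U) (v a l l' : E n) :
    T3 w z v a (l + l') = T3 w z v a l + T3 w z v a l' := by
  rw [T3_eq_sum L hz, T3_eq_sum L hz, T3_eq_sum L hz]
  simp only [← Finset.sum_add_distrib]
  refine Finset.sum_congr rfl fun k _ => Finset.sum_congr rfl fun p _ =>
    Finset.sum_congr rfl fun q _ => ?_
  rw [Pi.add_apply, map_add]
  ring

theorem T3_smul3 (L : Loc w U) (hz : z ∈ U) (c : ℂ) (v a l : E n) :
    T3 w z v a (c • l) = conj c * T3 w z v a l := by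
  rw [T3_eq_sum L hz, T3_eq_sum L hz]
  simp only [Finset.mul_sum]
  refine Finset.sum_congr rfl fun k _ => Finset.sum_congr rfl fun p _ =>
    Finset.sum_congr rfl fun q _ => ?_
  rw [Pi.smul_apply, smul_eq_mul, map_mul]
  ring

theorem T3_sum1 {κ : Type*} (s : Finset κ) (c : κ → ℂ) (v : κ → E n) (a l : E n) :
    T3 w z (∑ i ∈ s, c i • v i) a l = ∑ i ∈ s, c i * T3 w z (v i) a l := by
  let G : E n →+ ℂ :=
    { toFun := fun x => T3 w z x a l, map_zero' := d10_zero_vec _ _,
      map_add' := fun x y => T3_add1 w z x y a l }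
  have h : G (∑ i ∈ s, c i • v i) = ∑ i ∈ s, G (c i • v i) := map_sum G _ s
  exact h.trans (Finset.sum_congr rfl fun i _ => T3_smul1 w z (c i) (v i) a l)

theorem T3_sum2 (L : Loc w U) (hz : z ∈ U) {κ : Type*} (s : Finset κ) (c : κ → ℂ) (v l : E n)
    (a : κ → E n) : T3 w z v (∑ i ∈ s, c i • a i) l = ∑ i ∈ s, c i * T3 w z v (a i) l := by
  have h0 : T3 w z v 0 l = 0 := by
    have h1 := T3_smul2 L hz 0 v 0 l
    rwa [zero_smul, zero_mul] at h1
  let G : E n →+ ℂ :=
    { toFun := fun x => T3 w z v x l, map_zero' := h0,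
      map_add' := fun x y => T3_add2 L hz v x y l }
  have h : G (∑ i ∈ s, c i • a i) = ∑ i ∈ s, G (c i • a i) := map_sum G _ s
  exact h.trans (Finset.sum_congr rfl fun i _ => T3_smul2 L hz (c i) v (a i) l)

theorem T3_sum3 (L : Loc w U) (hz : z ∈ U) {κ : Type*} (s : Finset κ) (c : κ → ℂ) (v a : E n)
    (l : κ → E n) : T3 w z v a (∑ i ∈ s, c i • l i) = ∑ i ∈ s, conj (c i) * T3 w z v a (l i) := by
  have h0 : T3 w z v a 0 = 0 := by
    have h1 := T3_smul3 L hz 0 v a 0
    rwa [zero_smul, map_zero, zero_mul] at h1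
  let G : E n →+ ℂ :=
    { toFun := fun x => T3 w z v a x, map_zero' := h0,
      map_add' := fun x y => T3_add3 L hz v a x y }
  have h : G (∑ i ∈ s, c i • l i) = ∑ i ∈ s, G (c i • l i) := map_sum G _ s
  exact h.trans (Finset.sum_congr rfl fun i _ => T3_smul3 L hz (c i) v a (l i))

theorem levi_sum1 {κ : Type*} (s : Finset κ) (c : κ → ℂ) (a : κ → E n)
    (l : E n) : levi w z (∑ i ∈ s, c i • a i) l = ∑ i ∈ s, c i * levi w z (a i) l := by
  let G : E n →+ ℂ :=
    { toFun := fun x => levi w z x l, map_zero' := d10_zero_vec _ _,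
      map_add' := fun x y => d10_add_vec _ _ _ _ }
  have h : G (∑ i ∈ s, c i • a i) = ∑ i ∈ s, G (c i • a i) := map_sum G _ s
  exact h.trans (Finset.sum_congr rfl fun i _ => d10_smul_vec _ _ _ _)

theorem levi_sum2 (L : Loc w U) (hz : z ∈ U) {κ : Type*} (s : Finset κ) (c : κ → ℂ) (a : E n)
    (l : κ → E n) : levi w z a (∑ i ∈ s, c i • l i) = ∑ i ∈ s, conj (c i) * levi w z a (l i) := by
  let G : E n →+ ℂ :=
    { toFun := fun x => levi w z a x, map_zero' := levi_zero_right
        (L.sm.contDiffAt (L.op.mem_nhds hz)) a,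
      map_add' := fun x y => levi_add_right L hz a x y }
  have h : G (∑ i ∈ s, c i • l i) = ∑ i ∈ s, G (c i • l i) := map_sum G _ s
  exact h.trans (Finset.sum_congr rfl fun i _ => levi_smul_right L hz (c i) a (l i))

/-- `∂_v F(a, l̄) = ∂_a F(v, l̄)` -/
theorem T3_swap (L : Loc w U) (hz : z ∈ U) (v a l : E n) : T3 w z v a l = T3 w z a v l := by
  exact d10_Lf_symm L hz a v l

/-- `C(b,m,d) = ∂_(X_b) F(m, d̄)` is symmetric in `b`, `d` -/
theorem T3_symm (L : Loc w U) (hz : z ∈ U) (b m d : E n) :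
    T3 w z (XX w z b) m d = T3 w z (XX w z d) m b := by
  exact Cf_symm L hz b m d

theorem T3_ker (L : Loc w U) (hz : z ∈ U) {l : E n} (hl : ∀ c, levi w z l c = 0) (b m : E n) :
    T3 w z (XX w z b) m l = 0 := by
  exact Cf_ker L hz hl b m

/-- `∂̄_v F(a, l̄) = conj (∂_v F(l, ā))` -/
theorem d01_Lf (L : Loc w U) (hz : z ∈ U) (v a l : E n) :
    d01 (Lf w a l) z v = conj (T3 w z v l a) := by
  exact (conj_d10_Lf L hz l a v).symm

theorem fd_Lf (L : Loc w U) (hz : z ∈ U) (v a l : E n) :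
    fderiv ℝ (Lf w a l) z v = T3 w z v a l + conj (T3 w z v l a) := by
  rw [fd_eq, d01_Lf L hz]
  rfl

/-- `S (X_b, m) = F(m, b̄)` -/
theorem S_X (L : Loc w U) (hz : z ∈ U) (b m : E n) : S (XX w z b) m = levi w z m b := by
  have h := S_XX (L.sm.contDiffAt (L.op.mem_nhds hz)) 1 b m
  rwa [one_smul, one_mul] at h

/-- `X_b = X_c` if and only if `b - c` is in the kernel -/
theorem XX_eq_iff (L : Loc w U) (hz : z ∈ U) (b c : E n) :
    XX w z b = XX w z c ↔ ∀ m, levi w z m b = levi w z m c := by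
  constructor
  · intro h m
    rw [← S_X L hz b m, ← S_X L hz c m, h]
  · intro h
    funext k
    rw [XX_apply (L.sm.contDiffAt (L.op.mem_nhds hz)), XX_apply (L.sm.contDiffAt (L.op.mem_nhds hz)),
      h]

theorem XX_bx (b : Fin r → E n) (ξ : Fin r → ℂ) :
    XX w z (bx b ξ) = ∑ i, ξ i • XX w z (b i) := by
  let G : E n →+ E n :=
    { toFun := fun x => XX w z x, map_zero' := by
        have h1 := XX_smul w z 0 0
        rwa [zero_smul, map_zero, zero_smul] at h1,
      map_add' := fun x y => XX_add w z x y }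
  have h : G (∑ i, conj (ξ i) • b i) = ∑ i, G (conj (ξ i) • b i) := map_sum G _ _
  refine h.trans (Finset.sum_congr rfl fun i _ => ?_)
  have h2 := XX_smul w z (conj (ξ i)) (b i)
  rwa [Complex.conj_conj] at h2

end Pool.Agent.LFC
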