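import Pool.Agent.LFC.Od2

/-!
Uql (size 4): local uniqueness of leaf maps along rays, in one chart.
PROOF. `y0 = (φ₁ t, b⁰)` from `exists_inv`, `V`, `Θ` from `tht`. States `σ_i(s) = (φ_i (t + s • ξ), fun k => fderiv ℂ φ_i (t + s • ξ) (Pi.single k 1))`
in `E n × (Fin r → E n)` solve near `s = 0` the autonomous ODE with field `g(z, v) = (∑ k, ξ k • v k, fun k p => sg p * T3 w z (∑ j, ξ j • v j) (e p.swap) (Θ z (v k)))`,
smooth on `V ×ˢ univ` (`smo_T3`, `Θ` smooth): `od2` at the points `t + s • ξ` (shift of `s`) with `b = Θ z (v k)` and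
`a p = sg p * S a (e p.swap)` (from `S_single`), `fderiv ℂ φ t' ξ = ∑ k, ξ k • fderiv ℂ φ t' (Pi.single k 1)`. Same value at `s = 0`. A field of class
`C¹` is locally Lipschitz (`ContDiffAt.exists_lipschitzOnWith`): uniqueness `ODE_solution_unique_of_eventually` (or `ODE_solution_unique_of_mem_Ioo`).
-/

open scoped ContDiff ComplexConjugate Topology
open Complex

namespace Pool.Agent.LFC

open Pool.Agent.DTW Pool.Agent.SKF

variable {n r : ℕ} {U : Set (E n)} {w : E n → ℝ}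

private theorem uql_lin (T : (Fin r → ℂ) →L[ℂ] E n) (ζ : Fin r → ℂ) :
    T ζ = ∑ k, ζ k • T (Pi.single k 1) := by
  have h : ζ = ∑ k, ζ k • (Pi.single k (1 : ℂ) : Fin r → ℂ) := by
    funext j
    simp [Finset.sum_apply, Pi.single_apply]
  calc T ζ = T (∑ k, ζ k • (Pi.single k (1 : ℂ) : Fin r → ℂ)) := by rw [← h]
    _ = ∑ k, ζ k • T (Pi.single k 1) := by
      rw [map_sum]
      exact Finset.sum_congr rfl fun k _ => map_smul _ _ _

private noncomputable def gf (w : E n → ℝ) (Θ : E n → E n → E n) (ξ : Fin r → ℂ)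
    (y : E n × (Fin r → E n)) : E n × (Fin r → E n) :=
  (∑ k, ξ k • y.2 k,
    fun k p => sg p * T3 w y.1 (∑ j, ξ j • y.2 j) (e p.swap) (Θ y.1 (y.2 k)))

private theorem gf_smooth (L : Loc w U) {V : Set (E n)} (hV : V ⊆ U) {Θ : E n → E n → E n}
    (hΘ : ContDiffOn ℝ ∞ (fun p : E n × E n => Θ p.1 p.2) (V ×ˢ Set.univ)) (ξ : Fin r → ℂ) :
    ContDiffOn ℝ ∞ (gf w Θ ξ) (V ×ˢ (Set.univ : Set (Fin r → E n))) := by
  have hc : ∀ k : Fin r, ContDiff ℝ ∞ (fun y : E n × (Fin r → E n) => y.2 k) := fun k =>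
    (contDiff_apply ℝ (E n) k).comp contDiff_snd
  have hsum : ContDiff ℝ ∞ (fun y : E n × (Fin r → E n) => ∑ k, ξ k • y.2 k) :=
    ContDiff.sum fun k _ => (hc k).const_smul (ξ k)
  refine ContDiffOn.prodMk hsum.contDiffOn ?_
  rw [contDiffOn_pi]
  intro k
  rw [contDiffOn_pi]
  intro p
  refine contDiffOn_const.mul ?_
  have h1 : ContDiffOn ℝ ∞ (fun y : E n × (Fin r → E n) => Θ y.1 (y.2 k))
      (V ×ˢ (Set.univ : Set (Fin r → E n))) := by
    refine hΘ.comp (f := fun y : E n × (Fin r → E n) => (y.1, y.2 k))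
      (contDiff_fst.prodMk (hc k)).contDiffOn ?_
    intro y hy
    exact ⟨hy.1, trivial⟩
  refine (smo_T3 L).comp
    (f := fun y : E n × (Fin r → E n) =>
      (y.1, (∑ j, ξ j • y.2 j, (e p.swap, Θ y.1 (y.2 k))))) ?_ ?_
  · exact contDiff_fst.contDiffOn.prodMk
      (hsum.contDiffOn.prodMk (contDiffOn_const.prodMk h1))
  · intro y hy
    exact ⟨hV hy.1, trivial⟩

private theorem uql_ray (t ξ : Fin r → ℂ) (s : ℝ) :
    HasDerivAt (fun u : ℝ => t + u • ξ) ξ s := by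
  have h := ((hasDerivAt_id s).smul_const ξ).const_add t
  simpa using h

private theorem uql_state (L : Loc w U) {φ : (Fin r → ℂ) → E n} {N : Set (Fin r → ℂ)}
    (h : LeafC w U φ N) {V : Set (E n)} {Θ : E n → E n → E n}
    (hΘ : ∀ z ∈ V, ∀ T : (Fin r → ℂ) →L[ℂ] E n, IsFrame w z T → ∀ ζ, XX w z (Θ z (T ζ)) = T ζ)
    {t ξ : Fin r → ℂ} {s : ℝ} (hs : t + s • ξ ∈ N) (hsV : φ (t + s • ξ) ∈ V) :
    HasDerivAt (fun u : ℝ => (φ (t + u • ξ),
        fun k : Fin r => fderiv ℂ φ (t + u • ξ) (Pi.single k 1)))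
      (gf w Θ ξ (φ (t + s • ξ), fun k : Fin r => fderiv ℂ φ (t + s • ξ) (Pi.single k 1))) s := by
  obtain ⟨hF, hfr⟩ := leafC_frame h hs
  have hray := uql_ray t ξ s
  refine HasDerivAt.prodMk ?_ ?_
  · have h1 := (hF.restrictScalars ℝ).comp_hasDerivAt s hray
    have h2 : (fderiv ℂ φ (t + s • ξ)).restrictScalars ℝ ξ
        = ∑ k, ξ k • fderiv ℂ φ (t + s • ξ) (Pi.single k 1) :=
      uql_lin (fderiv ℂ φ (t + s • ξ)) ξ
    rw [h2] at h1
    exact h1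
  · rw [hasDerivAt_pi]
    intro k
    obtain ⟨G, hG, hG2⟩ := od2 L h hs ξ (Pi.single k 1)
    have hG' : HasDerivAt (fun u : ℝ => fderiv ℂ φ (t + s • ξ + u • ξ) (Pi.single k 1)) G (s - s) := by
      rw [sub_self]
      exact hG
    have h1 := hG'.comp_sub_const s s
    have h2 : (fun u : ℝ => fderiv ℂ φ (t + s • ξ + (u - s) • ξ) (Pi.single k 1))
        = fun u : ℝ => fderiv ℂ φ (t + u • ξ) (Pi.single k 1) := by
      funext u
      have : t + s • ξ + (u - s) • ξ = t + u • ξ := by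
        rw [sub_smul]
        abel
      rw [this]
    rw [h2] at h1
    have h3 : G = fun p => sg p * T3 w (φ (t + s • ξ))
        (∑ j, ξ j • fderiv ℂ φ (t + s • ξ) (Pi.single j 1)) (e p.swap)
        (Θ (φ (t + s • ξ)) (fderiv ℂ φ (t + s • ξ) (Pi.single k 1))) := by
      funext p
      rw [← uql_lin (fderiv ℂ φ (t + s • ξ)) ξ,
        ← hG2 _ (hΘ _ hsV _ hfr (Pi.single k 1)) (e p.swap), S_single, Sum.swap_swap, sg_swap]
      linear_combination (-(G p)) * sg_sq p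
    rw [h3] at h1
    exact h1

theorem uql (L : Loc w U) {φ₁ φ₂ : (Fin r → ℂ) → E n} {N₁ N₂ : Set (Fin r → ℂ)}
    (h₁ : LeafC w U φ₁ N₁) (h₂ : LeafC w U φ₂ N₂) {t : Fin r → ℂ} (ht₁ : t ∈ N₁) (ht₂ : t ∈ N₂)
    (h0 : φ₁ t = φ₂ t) (h1 : fderiv ℂ φ₁ t = fderiv ℂ φ₂ t) (ξ : Fin r → ℂ) :
    ∃ ε > 0, ∀ s : ℝ, |s| < ε → t + s • ξ ∈ N₁ ∧ t + s • ξ ∈ N₂ ∧
      φ₁ (t + s • ξ) = φ₂ (t + s • ξ) ∧
      fderiv ℂ φ₁ (t + s • ξ) = fderiv ℂ φ₂ (t + s • ξ) := by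
  obtain ⟨hF₁, hfr₁⟩ := leafC_frame h₁ ht₁
  obtain ⟨b0, hI, -⟩ := exists_inv L (h₁.mem t ht₁) hfr₁
  obtain ⟨V, hVo, hV0, hVU, Θ, hΘs, hΘ⟩ := tht L (y0 := (φ₁ t, b0)) (h₁.mem t ht₁) hI
  have hV0' : φ₁ t ∈ V := hV0
  set y0 : E n × (Fin r → E n) := (φ₁ t, fun k => fderiv ℂ φ₁ t (Pi.single k 1)) with hy0
  have hg : ContDiffAt ℝ 1 (gf w Θ ξ) y0 := by
    have h1 : (V ×ˢ (Set.univ : Set (Fin r → E n))) ∈ 𝓝 y0 :=
      (hVo.prod isOpen_univ).mem_nhds ⟨hV0', trivial⟩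
    exact ((gf_smooth L hVU hΘs ξ).contDiffAt h1).of_le (by exact_mod_cast le_top)
  obtain ⟨K, W, hW, hLip⟩ := hg.exists_lipschitzOnWith
  have key : ∀ {φ : (Fin r → ℂ) → E n} {N : Set (Fin r → ℂ)}, LeafC w U φ N → t ∈ N →
      (φ t, fun k : Fin r => fderiv ℂ φ t (Pi.single k 1)) = y0 →
      (∀ᶠ s : ℝ in 𝓝 0, t + s • ξ ∈ N) ∧
      ∀ᶠ s : ℝ in 𝓝 0, HasDerivAt (fun u : ℝ => (φ (t + u • ξ),
          fun k : Fin r => fderiv ℂ φ (t + u • ξ) (Pi.single k 1)))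
        (gf w Θ ξ (φ (t + s • ξ), fun k : Fin r => fderiv ℂ φ (t + s • ξ) (Pi.single k 1))) s ∧
        (φ (t + s • ξ), fun k : Fin r => fderiv ℂ φ (t + s • ξ) (Pi.single k 1)) ∈ W := by
    intro φ N h ht hy
    have hz : t + (0 : ℝ) • ξ = t := by rw [zero_smul, add_zero]
    have hray0 : ContinuousAt (fun u : ℝ => t + u • ξ) 0 := (uql_ray t ξ 0).continuousAt
    have e1 : ∀ᶠ s : ℝ in 𝓝 0, t + s • ξ ∈ N := by
      refine hray0.eventually ?_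
      show ∀ᶠ x in 𝓝 (t + (0 : ℝ) • ξ), x ∈ N
      rw [hz]
      exact h.op.mem_nhds ht
    have hφt : φ t = φ₁ t := congrArg Prod.fst hy
    have hc : ContinuousAt φ t := (leafC_frame h ht).1.continuousAt
    have e2 : ∀ᶠ s : ℝ in 𝓝 0, φ (t + s • ξ) ∈ V := by
      have h1 : ContinuousAt (fun u : ℝ => φ (t + u • ξ)) 0 := by
        refine ContinuousAt.comp (g := φ) ?_ hray0
        show ContinuousAt φ (t + (0 : ℝ) • ξ)
        rw [hz]
        exact hc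
      refine h1.eventually ?_
      show ∀ᶠ x in 𝓝 (φ (t + (0 : ℝ) • ξ)), x ∈ V
      rw [hz, hφt]
      exact hVo.mem_nhds hV0'
    have e3 : ∀ᶠ s : ℝ in 𝓝 0, (φ (t + s • ξ),
        fun k : Fin r => fderiv ℂ φ (t + s • ξ) (Pi.single k 1)) ∈ W := by
      have h1 := (uql_state L h hΘ (t := t) (ξ := ξ) (s := 0) e1.self_of_nhds
        e2.self_of_nhds).continuousAt
      refine h1.eventually ?_
      show ∀ᶠ x in 𝓝 (φ (t + (0 : ℝ) • ξ),
        fun k : Fin r => fderiv ℂ φ (t + (0 : ℝ) • ξ) (Pi.single k 1)), x ∈ W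
      rw [hz, hy]
      exact hW
    refine ⟨e1, ?_⟩
    filter_upwards [e1, e2, e3] with s hs1 hs2 hs3
    exact ⟨uql_state L h hΘ hs1 hs2, hs3⟩
  obtain ⟨a1, a2⟩ := key h₁ ht₁ rfl
  obtain ⟨b1, b2⟩ := key h₂ ht₂ (by rw [hy0, h0, h1])
  have hz : t + (0 : ℝ) • ξ = t := by rw [zero_smul, add_zero]
  have huniq := ODE_solution_unique_of_eventually (K := K) (v := fun _ => gf w Θ ξ)
    (s := fun _ => W) (t₀ := (0 : ℝ)) (Filter.Eventually.of_forall fun _ => hLip) a2 b2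
    (by simp only [hz]; rw [h0, h1])
  obtain ⟨ε, hε, hall⟩ := Metric.eventually_nhds_iff.1 ((a1.and b1).and huniq)
  refine ⟨ε, hε, fun s hs => ?_⟩
  obtain ⟨⟨c1, c2⟩, c3⟩ := hall (y := s) (by simpa [Real.dist_eq] using hs)
  refine ⟨c1, c2, congrArg Prod.fst c3, ?_⟩
  have c4 := congrArg Prod.snd c3
  refine ContinuousLinearMap.ext fun ζ => ?_
  rw [uql_lin, uql_lin (fderiv ℂ φ₂ (t + s • ξ))]
  exact Finset.sum_congr rfl fun k _ => congrArg (fun x => ζ k • x) (congrFun c4 k)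

end Pool.Agent.LFC
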